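import Mathlib

set_option autoImplicit false

namespace Pool.Agent.Helper397.E1

open Cardinal

universe u

theorem exists_rec {I : Type*} [LinearOrder I] [WellFoundedLT I] {X : Type*} [Inhabited X]
    (Phi : I → (I → X) → X → Prop)
    (hloc : ∀ i (D D' : I → X) x, (∀ j, j < i → D j = D' j) → Phi i D x → Phi i D' x)
    (hex : ∀ i D, ∃ x, Phi i D x) : ∃ D : I → X, ∀ i, Phi i D (D i) := by
  classical
  let step : (i : I) → ((j : I) → j < i → X) → X := fun i D =>
    Classical.choose (hex i (fun j => if h : j < i then D j h else default))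
  let D : I → X := WellFounded.fix (wellFounded_lt (α := I)) step
  refine ⟨D, fun i => ?_⟩
  have h1 : D i = step i (fun j _ => D j) := WellFounded.fix_eq _ _ _
  have h2 : Phi i (fun j => if h : j < i then D j else default) (step i (fun j _ => D j)) :=
    Classical.choose_spec (hex i (fun j => if h : j < i then D j else default))
  rw [← h1] at h2
  refine hloc i _ _ _ ?_ h2
  intro j hj
  simp [hj]

section

variable {I : Type u} [LinearOrder I]

/-- Admissible down-neighbour functions. -/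
structure Adm (N : I × I → Set (I × I)) : Prop where
  pos : ∀ x y, y ∈ N x → x.1 < y.1 ∧ y.1 ≤ y.2 ∧ y.2 < x.2
  uniq : ∀ x y z, y ∈ N x → z ∈ N x → y.1 = z.1 → y = z

structure IsSel (N : I × I → Set (I × I)) (ξ α : I) (Y : Set (I × I)) : Prop where
  pos : ∀ y ∈ Y, ξ < y.1 ∧ y.1 ≤ y.2 ∧ y.2 < α
  uniq : ∀ y ∈ Y, ∀ z ∈ Y, y.1 = z.1 → y = z
  ind : ∀ y ∈ Y, ∀ z ∈ Y, z ∉ N y

open Classical in
/-- the part of the structure of height below `α` -/
noncomputable def low (D : I → I → Set (I × I)) (α : I) : I × I → Set (I × I) :=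
  fun x => if x.2 < α then D x.2 x.1 else ∅

theorem build [WellFoundedLT I] (Req : I → I → Set (Set (I × I)))
    (hsel : ∀ N : I × I → Set (I × I), Adm N → ∀ ξ α,
      ∃ Y, IsSel N ξ α Y ∧ ∀ A ∈ Req ξ α, (Y ∩ A).Nonempty) :
    ∃ N : I × I → Set (I × I), Adm N ∧ (∀ x, ∀ y ∈ N x, ∀ z ∈ N x, z ∉ N y) ∧
      ∀ x : I × I, ∀ A ∈ Req x.1 x.2, (N x ∩ A).Nonempty := by
  classical
  obtain ⟨D, hD⟩ := exists_rec (I := I) (X := I → Set (I × I))
    (fun α D Y => Adm (low D α) →
      ∀ ξ, IsSel (low D α) ξ α (Y ξ) ∧ ∀ A ∈ Req ξ α, (Y ξ ∩ A).Nonempty)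
    (by
      intro α D D' Y h hY
      have : low D' α = low D α := by
        funext x
        unfold low
        by_cases hx : x.2 < α
        · simp [hx, h x.2 hx]
        · simp [hx]
      rw [this]
      exact hY)
    (by
      intro α D
      by_cases h : Adm (low D α)
      · choose Y hY using hsel _ h
        exact ⟨fun ξ => Y ξ α, fun _ ξ => hY ξ α⟩
      · exact ⟨fun _ => ∅, fun h' => absurd h' h⟩)
  have hadm : ∀ α, Adm (low D α) := by
    intro α
    induction α using WellFoundedLT.induction with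
    | ind α IH =>
      refine ⟨fun x y hy => ?_, fun x y z hy hz hyz => ?_⟩
      · by_cases hx : x.2 < α
        · simp only [low, hx, if_true] at hy
          exact (hD x.2 (IH x.2 hx) x.1).1.pos y hy
        · simp [low, hx] at hy
      · by_cases hx : x.2 < α
        · simp only [low, hx, if_true] at hy hz
          exact (hD x.2 (IH x.2 hx) x.1).1.uniq y hy z hz hyz
        · simp [low, hx] at hy
  refine ⟨fun x => D x.2 x.1, ⟨fun x y hy => ?_, fun x y z hy hz hyz => ?_⟩, ?_, ?_⟩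
  · exact (hD x.2 (hadm x.2) x.1).1.pos y hy
  · exact (hD x.2 (hadm x.2) x.1).1.uniq y hy z hz hyz
  · intro x y hy z hz hcon
    have h1 := (hD x.2 (hadm x.2) x.1).1.pos y hy
    have h2 := (hD x.2 (hadm x.2) x.1).1.ind y hy z hz
    apply h2
    simp only [low, h1.2.2, if_true]
    exact hcon
  · intro x A hA
    exact (hD x.2 (hadm x.2) x.1).2 A hA

/-- A graph on the square of `I` without triangles such that every set with unboundedly many
unbounded columns spans an edge. -/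
def BadGraph (I : Type u) [LinearOrder I] : Prop :=
  ∃ G : I × I → I × I → Prop, (∀ x y, G x y → G y x) ∧
    (∀ x y z, G x y → G y z → G x z → False) ∧
    ∀ X : Set (I × I), (∀ b, ∃ ξ, b < ξ ∧ ∀ b', ∃ α, b' < α ∧ (ξ, α) ∈ X) →
      ∃ x ∈ X, ∃ y ∈ X, G x y

theorem badGraph_of {N : I × I → Set (I × I)} (hN : Adm N)
    (hind : ∀ x, ∀ y ∈ N x, ∀ z ∈ N x, z ∉ N y)
    (hhit : ∀ X : Set (I × I), (∀ b, ∃ ξ, b < ξ ∧ ∀ b', ∃ α, b' < α ∧ (ξ, α) ∈ X) →
      ∃ x ∈ X, ∃ y ∈ X, y ∈ N x) : BadGraph I := by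
  refine ⟨fun x y => y ∈ N x ∨ x ∈ N y, fun x y h => h.symm, ?_, ?_⟩
  · have key : ∀ x y z, y.2 < x.2 → z.2 < x.2 → (y ∈ N x ∨ x ∈ N y) → (z ∈ N x ∨ x ∈ N z) →
        (y ∈ N z ∨ z ∈ N y) → False := by
      intro x y z hyx hzx h1 h2 h3
      have hy : y ∈ N x := by
        rcases h1 with h | h
        · exact h
        · exact absurd (hN.pos y x h).2.2 (not_lt.mpr hyx.le)
      have hz : z ∈ N x := by
        rcases h2 with h | h
        · exact h
        · exact absurd (hN.pos z x h).2.2 (not_lt.mpr hzx.le)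
      rcases h3 with h | h
      · exact hind x z hz y hy h
      · exact hind x y hy z hz h
    have hne : ∀ x y, (y ∈ N x ∨ x ∈ N y) → x.2 ≠ y.2 := by
      intro x y h
      rcases h with h | h
      · exact (hN.pos x y h).2.2.ne'
      · exact (hN.pos y x h).2.2.ne
    intro x y z hxy hyz hxz
    rcases lt_or_gt_of_ne (hne x y hxy) with a | a
    · rcases lt_or_gt_of_ne (hne y z hyz) with b | b
      · exact key z x y (a.trans b) b hxz.symm hyz.symm hxy.symm
      · exact key y x z a b hxy.symm hyz hxz.symm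
    · rcases lt_or_gt_of_ne (hne x z hxz) with b | b
      · exact key z x y b (a.trans b) hxz.symm hyz.symm hxy.symm
      · exact key x y z a b hxy hxz hyz.symm
  · intro X hX
    obtain ⟨x, hx, y, hy, h⟩ := hhit X hX
    exact ⟨x, hx, y, hy, Or.inl h⟩

/-- Selection lemma for successor cardinals. -/
theorem sel_succ {J : Type u} [LinearOrder J] [WellFoundedLT J] [Nonempty J]
    (hJ : ∀ j : J, #(Set.Iio j) < #J)
    (N : I × I → Set (I × I)) (hN : Adm N) (ξ α : I)
    (η : J → J → I) (H : J → J → Set I)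
    (hη : ∀ γ ν, ξ < η γ ν)
    (hH : ∀ γ ν, ∀ β ∈ H γ ν, η γ ν ≤ β ∧ β < α)
    (hdis : ∀ γ ν ν', ν < ν' → ∀ β ∈ H γ ν, β < η γ ν')
    (hcard : ∀ γ ν, #J ≤ #(H γ ν)) :
    ∃ y : J → I × I, (∀ γ, ∃ ν, (y γ).1 = η γ ν ∧ (y γ).2 ∈ H γ ν) ∧
      IsSel N ξ α (Set.range y) := by
  classical
  haveI : Inhabited (I × I) := ⟨(ξ, ξ)⟩
  obtain ⟨y, hy⟩ := exists_rec (I := J) (X := I × I)
    (fun γ D y => ∃ ν, y.1 = η γ ν ∧ y.2 ∈ H γ ν ∧
      ∀ k, k < γ → ¬ (y.1 ≤ (D k).1 ∧ (D k).1 ≤ y.2) ∧ y ∉ N (D k))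
    (by
      rintro γ D D' y h ⟨ν, h1, h2, h3⟩
      refine ⟨ν, h1, h2, fun k hk => ?_⟩
      rw [← h k hk]
      exact h3 k hk)
    (by
      intro γ D
      -- choose the block
      obtain ⟨ν, hν⟩ : ∃ ν, ∀ k, k < γ → ∀ β ∈ H γ ν, ¬ (η γ ν ≤ (D k).1 ∧ (D k).1 ≤ β) := by
        by_contra hcon
        push Not at hcon
        choose k hk β hβ hb1 hb2 using hcon
        have hinj : Function.Injective (fun ν : J => (⟨k ν, hk ν⟩ : Set.Iio γ)) := by
          intro ν ν' hνν
          have hkk : k ν = k ν' := congrArg Subtype.val hνν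
          rcases lt_trichotomy ν ν' with h | h | h
          · exfalso
            have h1 := hdis γ ν ν' h (β ν) (hβ ν)
            have h2 := hb1 ν'
            rw [← hkk] at h2
            exact absurd (h1.trans_le h2) (not_lt.mpr (hb2 ν))
          · exact h
          · exfalso
            have h1 := hdis γ ν' ν h (β ν') (hβ ν')
            have h2 := hb1 ν
            rw [hkk] at h2
            exact absurd (h1.trans_le h2) (not_lt.mpr (hb2 ν'))
        exact absurd (Cardinal.mk_le_of_injective hinj) (not_le.mpr (hJ γ))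
      -- choose the height
      obtain ⟨β, hβ, hβ2⟩ : ∃ β ∈ H γ ν, ∀ k, k < γ → (η γ ν, β) ∉ N (D k) := by
        by_contra hcon
        push Not at hcon
        choose! k hk hkN using hcon
        have hinj : Function.Injective
            (fun β : H γ ν => (⟨k β.1, hk β.1 β.2⟩ : Set.Iio γ)) := by
          rintro ⟨β, hβ⟩ ⟨β', hβ'⟩ h
          have hkk : k β = k β' := congrArg Subtype.val h
          have h1 := hkN β hβ
          have h2 := hkN β' hβ'
          rw [← hkk] at h2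
          have h3 := hN.uniq _ _ _ h1 h2 rfl
          exact Subtype.ext (congrArg Prod.snd h3)
        have h1 := Cardinal.mk_le_of_injective hinj
        exact absurd ((hcard γ ν).trans h1) (not_le.mpr (hJ γ))
      exact ⟨(η γ ν, β), ν, rfl, hβ, fun k hk => ⟨hν k hk β hβ, hβ2 k hk⟩⟩)
  choose ν hν1 hν2 hν3 using hy
  have hpos : ∀ γ, ξ < (y γ).1 ∧ (y γ).1 ≤ (y γ).2 ∧ (y γ).2 < α := by
    intro γ
    obtain ⟨h1, h2⟩ := hH γ (ν γ) (y γ).2 (hν2 γ)
    rw [hν1 γ]
    exact ⟨hη γ _, h1, h2⟩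
  refine ⟨y, fun γ => ⟨ν γ, hν1 γ, hν2 γ⟩, ⟨?_, ?_, ?_⟩⟩
  · rintro _ ⟨γ, rfl⟩
    exact hpos γ
  · rintro _ ⟨γ, rfl⟩ _ ⟨γ', rfl⟩ h
    rcases lt_trichotomy γ γ' with hlt | heq | hlt
    · exact absurd ⟨h.symm.le, h ▸ (hpos γ').2.1⟩ (hν3 γ' γ hlt).1
    · rw [heq]
    · exact absurd ⟨h.le, h ▸ (hpos γ).2.1⟩ (hν3 γ γ' hlt).1
  · rintro _ ⟨γ, rfl⟩ _ ⟨γ', rfl⟩ hcon
    have hp := hN.pos _ _ hcon
    rcases lt_trichotomy γ γ' with hlt | heq | hlt
    · exact (hν3 γ' γ hlt).2 hcon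
    · rw [heq] at hp
      exact lt_irrefl _ hp.1
    · exact (hν3 γ γ' hlt).1 ⟨hp.1.le, hp.2.1.trans hp.2.2.le⟩

end

end Pool.Agent.Helper397.E1
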