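import Pool.Agent.Helper397.E9

set_option autoImplicit false

namespace Pool.Agent.Helper397.E10

open Cardinal
open Pool.Agent.Helper397.E1 Pool.Agent.Helper397.E2 Pool.Agent.Helper397.E3
open Pool.Agent.Helper397.E5 Pool.Agent.Helper397.E9
open Pool.Agent.Helper397.LamDefs

universe u

/-- Under GCH a cardinal whose cofinality is not a successor is a strong limit. -/
theorem strong_limit_of_gch (gch : ∀ μ : Cardinal.{u}, ℵ₀ ≤ μ → (2 : Cardinal.{u}) ^ μ = Order.succ μ)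
    {l : Cardinal.{u}} (hl : ℵ₀ ≤ l) (hcof : ∀ μ, ℵ₀ ≤ μ → l.ord.cof ≠ Order.succ μ) :
    ∀ x, x < l → (2 : Cardinal.{u}) ^ x < l := by
  intro x hx
  by_cases hx0 : ℵ₀ ≤ x
  · rw [gch x hx0]
    refine lt_of_le_of_ne (Order.succ_le_of_lt hx) (fun h => ?_)
    apply hcof x hx0
    rw [← h]
    exact (Cardinal.isRegular_succ hx0).cof_ord
  · have h2 : (2 : Cardinal.{u}) < ℵ₀ := by exact_mod_cast Cardinal.natCast_lt_aleph0 (n := 2)
    exact (Cardinal.power_lt_aleph0 h2 (not_le.mp hx0)).trans_le hl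

theorem not_arrow_of_succ (gch : ∀ μ : Cardinal.{u}, ℵ₀ ≤ μ → (2 : Cardinal.{u}) ^ μ = Order.succ μ)
    {l μ : Cardinal.{u}} (hl : ℵ₀ ≤ l) (hμ : ℵ₀ ≤ μ) (hcof : l.ord.cof = Order.succ μ) :
    ¬ ArrowSelfThree (l.ord * l.ord) := by
  refine transfer hl ?_
  rw [hcof]
  exact badGraph_succ hμ (gch μ hμ)

theorem arrow_of_omega (gch : ∀ μ : Cardinal.{u}, ℵ₀ ≤ μ → (2 : Cardinal.{u}) ^ μ = Order.succ μ)
    {l : Cardinal.{u}} (hl : ℵ₀ ≤ l) (hcof : l.ord.cof = ℵ₀) : ArrowSelfThree (l.ord * l.ord) := by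
  refine arrow_of_cof hl (strong_limit_of_gch gch hl (fun μ hμ h => ?_)) ?_
  · rw [hcof] at h
    exact absurd h (hμ.trans_lt (Order.lt_succ μ)).ne
  · rw [hcof]
    exact ram4_omega

/-- Classification under GCH if there is no inaccessible cardinal. -/
theorem classification (gch : ∀ μ : Cardinal.{u}, ℵ₀ ≤ μ → (2 : Cardinal.{u}) ^ μ = Order.succ μ)
    (hno : ∀ κ : Cardinal.{u}, ¬ κ.IsInaccessible) (l : Cardinal.{u}) (hl : ℵ₀ ≤ l) :
    ArrowSelfThree (l.ord * l.ord) ↔ l.ord.cof = ℵ₀ := by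
  constructor
  · intro harr
    by_contra hcof
    have hreg : (l.ord.cof).IsRegular := Cardinal.isRegular_cof (Cardinal.isSuccLimit_ord hl)
    by_cases hs : ∃ μ, ℵ₀ ≤ μ ∧ l.ord.cof = Order.succ μ
    · obtain ⟨μ, hμ, h⟩ := hs
      exact not_arrow_of_succ gch hl hμ h harr
    · push Not at hs
      apply hno l.ord.cof
      refine ⟨lt_of_le_of_ne hreg.aleph0_le (Ne.symm hcof), hreg.le_cof_ord, ?_⟩
      have h1 := strong_limit_of_gch gch hreg.aleph0_le (l := l.ord.cof) (fun μ hμ h => by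
        rw [hreg.cof_ord] at h
        exact hs μ hμ h)
      exact fun x hx => h1 x hx
  · exact arrow_of_omega gch hl

end Pool.Agent.Helper397.E10
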