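import Pool.Agent.Helper397.E10

set_option autoImplicit false

namespace Pool.Agent.Helper397.E11

open Cardinal
open Pool.Agent.Helper397.E1 Pool.Agent.Helper397.E2 Pool.Agent.Helper397.E3
open Pool.Agent.Helper397.E4 Pool.Agent.Helper397.E5 Pool.Agent.Helper397.E9
open Pool.Agent.Helper397.LamDefs

universe u

theorem exists_hom {κ : Cardinal.{u}} (hκ : WeaklyCompact κ)
    (R : κ.ord.ToType → κ.ord.ToType → Prop) :
    ∃ X : Set κ.ord.ToType, (∀ b, ∃ x ∈ X, b < x) ∧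
      ((∀ x ∈ X, ∀ y ∈ X, x < y → R x y) ∨ ∀ x ∈ X, ∀ y ∈ X, x < y → ¬ R x y) := by
  classical
  obtain ⟨hin, hpart⟩ := hκ
  have hlim : Order.IsSuccLimit κ.ord := Cardinal.isSuccLimit_ord hin.aleph0_lt.le
  obtain ⟨f, hf1, hf2, hf3⟩ := hpart (fun a b => ∃ x y : κ.ord.ToType, ofI x = a ∧ ofI y = b ∧ R x y)
  have hR : ∀ x y : κ.ord.ToType, (∃ x' y' : κ.ord.ToType, ofI x' = ofI x ∧ ofI y' = ofI y ∧ R x' y') ↔
      R x y := by
    intro x y
    have hinj : ∀ a b : κ.ord.ToType, ofI a = ofI b → a = b := by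
      intro a b h
      rcases lt_trichotomy a b with h' | h' | h'
      · exact absurd h (ofI_lt_ofI.mpr h').ne
      · exact h'
      · exact absurd h (ofI_lt_ofI.mpr h').ne'
    constructor
    · rintro ⟨x', y', h1, h2, h3⟩
      rw [← hinj _ _ h1, ← hinj _ _ h2]
      exact h3
    · intro h
      exact ⟨x, y, rfl, rfl, h⟩
  let X : Set κ.ord.ToType := {z | ∃ a, a < κ.ord ∧ ofI z = f a}
  have hlt : ∀ a b, a < κ.ord → b < κ.ord → f a < f b → a < b := by
    intro a b ha hb h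
    rcases lt_trichotomy a b with h' | h' | h'
    · exact h'
    · rw [h'] at h; exact absurd h (lt_irrefl _)
    · exact absurd h (not_lt.mpr (hf1 hb ha h').le)
  refine ⟨X, ?_, ?_⟩
  · intro b
    have h1 : Order.succ (ofI b) < κ.ord := hlim.succ_lt (ofI_lt b)
    obtain ⟨z, hz⟩ := exists_ofI (hf2 _ h1)
    refine ⟨z, ⟨_, h1, hz⟩, ?_⟩
    rw [← ofI_lt_ofI, hz]
    exact (Order.lt_succ _).trans_le (le_apply_of_strictMonoOn hf1 h1 hf2)
  · rcases hf3 with h | h
    · left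
      rintro x ⟨a, ha, hxa⟩ y ⟨b, hb, hyb⟩ hxy
      have hab : a < b := hlt a b ha hb (by rw [← hxa, ← hyb]; exact ofI_lt_ofI.mpr hxy)
      have := h a b hab hb
      rw [← hxa, ← hyb] at this
      exact (hR x y).mp this
    · right
      rintro x ⟨a, ha, hxa⟩ y ⟨b, hb, hyb⟩ hxy hRxy
      have hab : a < b := hlt a b ha hb (by rw [← hxa, ← hyb]; exact ofI_lt_ofI.mpr hxy)
      have := h a b hab hb
      rw [← hxa, ← hyb] at this
      exact this ((hR x y).mpr hRxy)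

/-- Many two-valued functions are simultaneously eventually constant on an unbounded set. -/
theorem ec {κ : Cardinal.{u}} (hκ : WeaklyCompact κ) {Y : Set κ.ord.ToType}
    (hY : ∀ b, ∃ y ∈ Y, b < y) (h : κ.ord.ToType → κ.ord.ToType → Prop) :
    ∃ X : Set κ.ord.ToType, X ⊆ Y ∧ (∀ b, ∃ x ∈ X, b < x) ∧
      ∀ i, ∃ b, ∀ d ∈ X, ∀ d' ∈ X, b < d → b < d' → (h i d ↔ h i d') := by
  classical
  have hreg : κ.IsRegular := hκ.1.isRegular
  have hne : Nonempty κ.ord.ToType := by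
    rw [← Cardinal.mk_ne_zero_iff, Cardinal.mk_ord_toType]
    exact hreg.pos.ne'
  have hYc : κ ≤ #Y := (card_unbdd hreg hY (Classical.choice hne)).trans
    (Cardinal.mk_le_mk_of_subset (fun x hx => hx.1))
  obtain ⟨e, he1, he2⟩ := exists_enum hreg.aleph0_le hYc
  let Lex : κ.ord.ToType → κ.ord.ToType → Prop := fun d d' =>
    ∃ i, (∀ j, j < i → (h j d ↔ h j d')) ∧ ¬ h i d ∧ h i d'
  obtain ⟨X0, hX0, hhom⟩ := exists_hom hκ (fun d d' => Lex (e d) (e d'))
  have hXunb : ∀ b, ∃ x ∈ e '' X0, b < x := by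
    intro b
    obtain ⟨x, hx, hbx⟩ := hX0 b
    exact ⟨e x, ⟨x, hx, rfl⟩, hbx.trans_le he1.le_apply⟩
  refine ⟨e '' X0, ?_, hXunb, fun i => ?_⟩
  · rintro _ ⟨x, -, rfl⟩
    exact he2 x
  · -- restrict to indices up to `i`
    have hX0c : κ ≤ #X0 := (card_unbdd hreg hX0 (Classical.choice hne)).trans
      (Cardinal.mk_le_mk_of_subset (fun x hx => hx.1))
    obtain ⟨v, hv⟩ := ph hreg X0 hX0c (fun d => ({j | h j.1 (e d)} : Set (Set.Iic i))) (by
      rw [Cardinal.mk_set]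
      exact hκ.1.isStrongPrelimit (card_Iic_lt hreg.aleph0_le i))
    have hunb := unbdd_of_card hreg.aleph0_le hv
    obtain ⟨d0, ⟨hd0, hd0v⟩, -⟩ := hunb (Classical.choice hne)
    have hagree : ∀ d1, ({j | h j.1 (e d1)} : Set (Set.Iic i)) = v →
        ∀ j, j ≤ i → (h j (e d1) ↔ h j (e d0)) := by
      intro d1 hd1 j hj
      have e1 : ((⟨j, hj⟩ : Set.Iic i) ∈ ({j | h j.1 (e d1)} : Set (Set.Iic i))) ↔
          ((⟨j, hj⟩ : Set.Iic i) ∈ ({j | h j.1 (e d0)} : Set (Set.Iic i))) := by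
        rw [hd1, ← hd0v]
      exact e1
    have key : ∀ d ∈ X0, d0 < d → ∀ j, j ≤ i → (h j (e d) ↔ h j (e d0)) := by
      intro d hd hlt
      obtain ⟨d1, ⟨hd1, hd1v⟩, hdd1⟩ := hunb d
      have hag := hagree d1 hd1v
      by_contra hcon
      push Not at hcon
      -- least disagreement
      have hne' : {j | j ≤ i ∧ ¬ (h j (e d) ↔ h j (e d0))}.Nonempty := by
        obtain ⟨j, hj, hj2⟩ := hcon
        refine ⟨j, hj, ?_⟩
        intro hiff
        rcases hj2 with ⟨h1, h2⟩ | ⟨h1, h2⟩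
        · exact h2 (hiff.mp h1)
        · exact h1 (hiff.mpr h2)
      let j := (wellFounded_lt (α := κ.ord.ToType)).min _ hne'
      have hjmem : j ∈ {j | j ≤ i ∧ ¬ (h j (e d) ↔ h j (e d0))} := WellFounded.min_mem _ _ hne'
      have hjmin : ∀ k, k < j → (h k (e d) ↔ h k (e d0)) := by
        intro k hk
        by_contra hk2
        have hk' : k ∈ {j | j ≤ i ∧ ¬ (h j (e d) ↔ h j (e d0))} := ⟨hk.le.trans hjmem.1, hk2⟩
        exact WellFounded.not_lt_min (wellFounded_lt (α := κ.ord.ToType)) _ hk' hk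
      have hj1 := hag j hjmem.1
      have hjlow : ∀ k, k < j → (h k (e d1) ↔ h k (e d0)) := fun k hk => hag k (hk.le.trans hjmem.1)
      -- Lex holds or fails according to the disagreement at `j`
      have hL1 : Lex (e d0) (e d) ↔ (¬ h j (e d0) ∧ h j (e d)) := by
        constructor
        · rintro ⟨k, hk1, hk2, hk3⟩
          rcases lt_trichotomy k j with hkj | hkj | hkj
          · exact absurd ((hjmin k hkj).mp hk3) hk2
          · rw [← hkj]; exact ⟨hk2, hk3⟩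
          · exact absurd (hk1 j hkj).symm hjmem.2
        · rintro ⟨h1, h2⟩
          exact ⟨j, fun k hk => (hjmin k hk).symm, h1, h2⟩
      have hL2 : Lex (e d) (e d1) ↔ (¬ h j (e d) ∧ h j (e d1)) := by
        constructor
        · rintro ⟨k, hk1, hk2, hk3⟩
          rcases lt_trichotomy k j with hkj | hkj | hkj
          · exact absurd ((hjmin k hkj).mpr ((hjlow k hkj).mp hk3)) hk2
          · rw [← hkj]; exact ⟨hk2, hk3⟩
          · exact absurd ((hk1 j hkj).trans hj1) hjmem.2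
        · rintro ⟨h1, h2⟩
          exact ⟨j, fun k hk => (hjmin k hk).trans (hjlow k hk).symm, h1, h2⟩
      have hneq := hjmem.2
      rcases hhom with hh | hh
      · have a1 := hL1.mp (hh d0 hd0 d hd hlt)
        have a2 := hL2.mp (hh d hd d1 hd1 hdd1)
        exact a2.1 a1.2
      · have a1 := fun hx => hh d0 hd0 d hd hlt (hL1.mpr hx)
        have a2 := fun hx => hh d hd d1 hd1 hdd1 (hL2.mpr hx)
        by_cases c0 : h j (e d0)
        · have c1 : ¬ h j (e d) := fun h2 => hneq ⟨fun _ => c0, fun _ => h2⟩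
          exact a2 ⟨c1, hj1.mpr c0⟩
        · have c1 : h j (e d) := by
            by_contra h2
            exact hneq ⟨fun h3 => absurd h3 h2, fun h3 => absurd h3 c0⟩
          exact a1 ⟨c0, c1⟩
    refine ⟨e d0, ?_⟩
    rintro _ ⟨d, hd, rfl⟩ _ ⟨d', hd', rfl⟩ hlt hlt'
    rw [he1.lt_iff_lt] at hlt hlt'
    exact (key d hd hlt i le_rfl).trans (key d' hd' hlt' i le_rfl).symm

theorem ec' {κ : Cardinal.{u}} (hκ : WeaklyCompact κ) {Y : Set κ.ord.ToType}
    (hY : ∀ b, ∃ y ∈ Y, b < y) {T : Type u} (hT : #T ≤ κ) {Z : Type} [Finite Z]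
    (g : T → κ.ord.ToType → Z) :
    ∃ X : Set κ.ord.ToType, X ⊆ Y ∧ (∀ b, ∃ x ∈ X, b < x) ∧
      ∀ t, ∃ b z, ∀ d ∈ X, b < d → g t d = z := by
  classical
  have hreg : κ.IsRegular := hκ.1.isRegular
  have hne : Nonempty κ.ord.ToType := by
    rw [← Cardinal.mk_ne_zero_iff, Cardinal.mk_ord_toType]
    exact hreg.pos.ne'
  rcases isEmpty_or_nonempty T with hemp | hnT
  · exact ⟨Y, subset_rfl, hY, fun t => (hemp.false t).elim⟩
  rcases isEmpty_or_nonempty Z with hZ | hZ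
  · obtain ⟨t⟩ := hnT
    exact (hZ.false (g t (Classical.choice hne))).elim
  have hcard : #(T × Z) ≤ #κ.ord.ToType := by
    rw [Cardinal.mk_ord_toType, Cardinal.mk_prod, Cardinal.lift_id']
    refine Cardinal.mul_le_of_le hreg.aleph0_le (by simpa using hT) ?_
    have : Cardinal.lift.{u} #Z < ℵ₀ := Cardinal.lift_lt_aleph0.mpr (Cardinal.lt_aleph0_of_finite Z)
    simpa using this.le.trans hreg.aleph0_le
  obtain ⟨i⟩ := (Cardinal.le_def _ _).mp hcard
  obtain ⟨X, h1, h2, h3⟩ := ec hκ hY (fun k d => g (Function.invFun i k).1 d = (Function.invFun i k).2)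
  refine ⟨X, h1, h2, fun t => ?_⟩
  have h4 : ∀ z, ∃ b, ∀ d ∈ X, ∀ d' ∈ X, b < d → b < d' → (g t d = z ↔ g t d' = z) := by
    intro z
    obtain ⟨b, hb⟩ := h3 (i (t, z))
    refine ⟨b, fun d hd d' hd' hbd hbd' => ?_⟩
    have := hb d hd d' hd' hbd hbd'
    rwa [Function.leftInverse_invFun i.injective (t, z)] at this
  choose b hb using h4
  -- a common bound
  obtain ⟨B, hB⟩ : ∃ B, ∀ z, b z ≤ B := by
    obtain ⟨B, hB⟩ := (Set.finite_range b).bddAbove
    exact ⟨B, fun z => hB ⟨z, rfl⟩⟩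
  obtain ⟨x0, hx0, hBx0⟩ := h2 B
  refine ⟨B, g t x0, fun d hd hd2 => ?_⟩
  exact (hb (g t x0) d hd x0 hx0 ((hB _).trans_lt hd2) ((hB _).trans_lt hBx0)).mpr rfl

theorem ram4_wc {κ : Cardinal.{u}} (hκ : WeaklyCompact κ) : Ram4 κ.ord.ToType := by
  classical
  intro Z _ f
  have hreg : κ.IsRegular := hκ.1.isRegular
  have hKK : ∀ {S T : Type u}, #S ≤ κ → #T ≤ κ → #(S × T) ≤ κ := by
    intro S T hS hT
    rw [Cardinal.mk_prod, Cardinal.lift_id, Cardinal.lift_id]
    exact Cardinal.mul_le_of_le hreg.aleph0_le hS hT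
  have hK1 : #κ.ord.ToType ≤ κ := (Cardinal.mk_ord_toType κ).le
  obtain ⟨X3, -, hX3, h3⟩ := ec' hκ (Y := Set.univ)
    (fun b => by
      obtain ⟨h, -, hb⟩ := unbdd_of_card hreg.aleph0_le (S := (Set.univ : Set κ.ord.ToType))
        (by rw [Cardinal.mk_univ, Cardinal.mk_ord_toType]) b
      exact ⟨h, trivial, hb⟩) (hKK hK1 (hKK hK1 hK1))
    (fun t d => f t.1 t.2.1 t.2.2 d)
  choose b3 f3 hf3 using h3
  obtain ⟨X2, hX23, hX2, h2⟩ := ec' hκ hX3 (hKK hK1 hK1) (fun t d => f3 (t.1, t.2, d))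
  choose b2 f2 hf2 using h2
  obtain ⟨X1, hX12, hX1, h1⟩ := ec' hκ hX2 hK1 (fun t d => f2 (t, d))
  choose b1 f1 hf1 using h1
  obtain ⟨X0, hX01, hX0, h0⟩ := ec' hκ hX1 (T := PUnit.{u + 1}) (by
    rw [Cardinal.mk_punit]
    exact Cardinal.one_lt_aleph0.le.trans hreg.aleph0_le) (fun _ d => f1 d)
  obtain ⟨b0, z, hz⟩ := h0 PUnit.unit
  let OK : κ.ord.ToType → (κ.ord.ToType → κ.ord.ToType) → κ.ord.ToType → Prop := fun n D x =>
    x ∈ X0 ∧ f1 x = z ∧ (∀ i, i < n → D i < x ∧ f2 (D i, x) = z) ∧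
    (∀ i j, i < j → j < n → f3 (D i, D j, x) = z) ∧
    (∀ i j k, i < j → j < k → k < n → f (D i) (D j) (D k) x = z)
  have hOK : ∀ n (D D' : κ.ord.ToType → κ.ord.ToType) x, (∀ j, j < n → D j = D' j) →
      OK n D x → OK n D' x := by
    rintro n D D' x h ⟨h0, h1, h2, h3, h4⟩
    refine ⟨h0, h1, fun i hi => ?_, fun i j hij hj => ?_, fun i j k hij hjk hk => ?_⟩
    · rw [← h i hi]; exact h2 i hi
    · rw [← h i (hij.trans hj), ← h j hj]; exact h3 i j hij hj
    · rw [← h i (hij.trans (hjk.trans hk)), ← h j (hjk.trans hk), ← h k hk]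
      exact h4 i j k hij hjk hk
  haveI : Inhabited κ.ord.ToType := ⟨b0⟩
  obtain ⟨D, hD⟩ := exists_rec (I := κ.ord.ToType) (X := κ.ord.ToType)
    (fun n D x => (∀ j, j < n → OK j D (D j)) → OK n D x)
    (by
      intro n D D' x h hx hD'
      refine hOK n D D' x h (hx (fun j hj => ?_))
      rw [h j hj]
      exact hOK j D' D (D' j) (fun i hi => (h i (hi.trans hj)).symm) (hD' j hj))
    (by
      intro n D
      by_cases hD : ∀ j, j < n → OK j D (D j)
      · have hn : #(Set.Iio n) < κ := by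
          have := Cardinal.mk_Iio_lt n (by simp)
          rwa [Cardinal.mk_ord_toType] at this
        have hnn : ∀ {S T : Type u}, #S < κ → #T < κ → #(S × T) < κ := by
          intro S T hS hT
          rw [Cardinal.mk_prod, Cardinal.lift_id, Cardinal.lift_id]
          exact Cardinal.mul_lt_of_lt hreg.aleph0_le hS hT
        obtain ⟨e1, he1⟩ := bdd_reg hreg hn (fun i => D i.1)
        obtain ⟨e2, he2⟩ := bdd_reg hreg hn (fun i => b1 (D i.1))
        obtain ⟨e3, he3⟩ := bdd_reg hreg (hnn hn hn) (fun i => b2 (D i.1.1, D i.2.1))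
        obtain ⟨e4, he4⟩ := bdd_reg hreg (hnn hn (hnn hn hn))
          (fun i => b3 (D i.1.1, D i.2.1.1, D i.2.2.1))
        obtain ⟨x, hx, hxb⟩ := hX0 (max b0 (max e1 (max e2 (max e3 e4))))
        have x0 : b0 < x := (le_max_left _ _).trans_lt hxb
        have x1 : e1 < x := ((le_max_left _ _).trans (le_max_right _ _)).trans_lt hxb
        have x2 : e2 < x := (((le_max_left _ _).trans (le_max_right _ _)).trans
          (le_max_right _ _)).trans_lt hxb
        have x3 : e3 < x := ((((le_max_left _ _).trans (le_max_right _ _)).trans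
          (le_max_right _ _)).trans (le_max_right _ _)).trans_lt hxb
        have x4 : e4 < x := ((((le_max_right _ _).trans (le_max_right _ _)).trans
          (le_max_right _ _)).trans (le_max_right _ _)).trans_lt hxb
        refine ⟨x, fun _ => ⟨hx, hz x hx x0, fun i hi => ⟨(he1 ⟨i, hi⟩).trans x1, ?_⟩,
          fun i j hij hj => ?_, fun i j k hij hjk hk => ?_⟩⟩
        · rw [hf1 (D i) x (hX01 hx) ((he2 ⟨i, hi⟩).trans x2)]
          exact (hD i hi).2.1
        · rw [hf2 (D i, D j) x (hX12 (hX01 hx))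
            ((he3 (⟨i, hij.trans hj⟩, ⟨j, hj⟩)).trans x3)]
          exact ((hD j hj).2.2.1 i hij).2
        · rw [hf3 (D i, D j, D k) x (hX23 (hX12 (hX01 hx)))
            ((he4 (⟨i, hij.trans (hjk.trans hk)⟩, ⟨j, hjk.trans hk⟩, ⟨k, hk⟩)).trans x4)]
          exact (hD k hk).2.2.2.1 i j hij hjk
      · exact ⟨b0, fun h => absurd h hD⟩)
  have hDD : ∀ n, OK n D (D n) := by
    intro n
    induction n using WellFoundedLT.induction with
    | ind n ih => exact hD n ih
  have hmono : StrictMono D := fun i j hij => ((hDD j).2.2.1 i hij).1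
  refine ⟨Set.range D, fun b => ?_, z, ?_⟩
  · have hcard : κ ≤ #(Set.range D) := by
      rw [Cardinal.mk_range_eq _ hmono.injective, Cardinal.mk_ord_toType]
    exact unbdd_of_card hreg.aleph0_le hcard b
  · rintro _ ⟨i, rfl⟩ _ ⟨j, rfl⟩ _ ⟨k, rfl⟩ _ ⟨l, rfl⟩ hij hjk hkl
    rw [hmono.lt_iff_lt] at hij hjk hkl
    exact (hDD l).2.2.2.2 i j k hij hjk hkl

end Pool.Agent.Helper397.E11
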