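import Pool.Agent.Helper397.E10

set_option autoImplicit false

namespace Pool.Agent.Helper397.E12

open Cardinal
open Pool.Agent.Helper397.E1 Pool.Agent.Helper397.E2 Pool.Agent.Helper397.E3
open Pool.Agent.Helper397.E9
open Pool.Agent.Helper397.LamDefs

universe u

section

variable {I : Type u} [LinearOrder I]

/-- two points of the square which are neither in the same column nor joined -/
def Comp (N : I × I → Set (I × I)) (p q : I × I) : Prop :=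
  p.1 ≠ q.1 ∧ p ∉ N q ∧ q ∉ N p

theorem Comp.symm {N : I × I → Set (I × I)} {p q : I × I} (h : Comp N p q) : Comp N q p :=
  ⟨h.1.symm, h.2.2, h.2.1⟩

theorem comp_of_lt {N : I × I → Set (I × I)} (hN : Adm N) {p q : I × I} (hp : p.1 ≤ p.2)
    (hpq : p.2 < q.1) (hq : q.1 ≤ q.2) : Comp N p q := by
  refine ⟨(hp.trans_lt hpq).ne, fun h => ?_, fun h => ?_⟩
  · exact absurd (hN.pos _ _ h).1 (not_lt.mpr (hp.trans hpq.le))
  · exact absurd (hN.pos _ _ h).2.2 (not_lt.mpr (hpq.le.trans hq))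

theorem exists_bd {α : I} {T : Set I} (hT : T.Finite) (hlt : ∀ t ∈ T, t < α) {c : I} (hc : c < α) :
    ∃ b, b < α ∧ c ≤ b ∧ ∀ t ∈ T, t ≤ b := by
  classical
  induction T, hT using Set.Finite.induction_on with
  | empty => exact ⟨c, hc, le_rfl, by simp⟩
  | @insert a s _ _ ih =>
    obtain ⟨b, h1, h2, h3⟩ := ih (fun t ht => hlt t (Set.mem_insert_of_mem _ ht))
    refine ⟨max a b, max_lt (hlt a (Set.mem_insert _ _)) h1, h2.trans (le_max_right _ _), ?_⟩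
    rintro t (rfl | ht)
    · exact le_max_left _ _
    · exact (h3 t ht).trans (le_max_right _ _)

/-- richness -/
def Rich (A : I → Set (I × I)) (δ : I) : Prop :=
  ∀ η, η < δ → ∃ ζ, η < ζ ∧ ζ < δ ∧ ∀ b, b < δ → ∃ β, b < β ∧ β < δ ∧ (ζ, β) ∈ A δ

theorem sel_diamond [WellFoundedLT I] [Inhabited I] (R : Set I) (A : I → Set (I × I))
    (hA : ∀ δ, ∀ y ∈ A δ, y.1 ≤ y.2 ∧ y.2 < δ) (hR : ∀ δ ∈ R, Rich A δ)
    (hclub : ∀ α : I, (∀ b, b < α → ∃ δ ∈ R, b < δ ∧ δ < α) → ∃ C : Set I,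
      (∀ b, b < α → ∃ γ ∈ C, b < γ ∧ γ < α) ∧
      ∀ δ ∈ R, δ < α → ∀ c, c < δ → δ ∉ C ∧ ∃ b, b < δ ∧ ∀ γ ∈ C, γ < δ → γ ≤ b)
    (N : I × I → Set (I × I)) (hN : Adm N) (α : I) :
    ∀ (c : I) (E : Set (I × I)), E.Finite → ∃ y : I → I × I,
      (∀ δ ∈ R, c < δ → δ ≤ α → y δ ∈ A δ ∧ c < (y δ).1 ∧ ∀ e ∈ E, Comp N (y δ) e) ∧
      ∀ δ ∈ R, ∀ δ' ∈ R, c < δ → δ < δ' → δ' ≤ α → Comp N (y δ) (y δ') := by
  classical
  induction α using WellFoundedLT.induction with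
  | ind α IH =>
  -- Step A
  have stepA : ∀ (c : I) (E : Set (I × I)), E.Finite → ∃ y : I → I × I,
      (∀ δ ∈ R, c < δ → δ < α → y δ ∈ A δ ∧ c < (y δ).1 ∧ ∀ e ∈ E, Comp N (y δ) e) ∧
      ∀ δ ∈ R, ∀ δ' ∈ R, c < δ → δ < δ' → δ' < α → Comp N (y δ) (y δ') := by
    intro c E hE
    by_cases hbd : ∃ b, b < α ∧ ∀ δ ∈ R, δ < α → δ ≤ b
    · obtain ⟨b, hb, hb2⟩ := hbd
      obtain ⟨y, h1, h2⟩ := IH b hb c E hE
      exact ⟨y, fun δ hδ hc hδα => h1 δ hδ hc (hb2 δ hδ hδα),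
        fun δ hδ δ' hδ' hc hlt hδα => h2 δ hδ δ' hδ' hc hlt (hb2 δ' hδ' hδα)⟩
    push Not at hbd
    obtain ⟨C, hC1, hC2⟩ := hclub α (fun b hb => by
      obtain ⟨δ, h1, h2, h3⟩ := hbd b hb
      exact ⟨δ, h1, h3, h2⟩)
    -- lower bounds of gaps
    have hc' : ∀ d, ∃ u, (c ≤ u ∧ ∀ x ∈ C, x < d → x ≤ u) ∧
        ∀ v, (c ≤ v ∧ ∀ x ∈ C, x < d → x ≤ v) → u ≤ v := by
      intro d
      have hne : {u | c ≤ u ∧ ∀ x ∈ C, x < d → x ≤ u}.Nonempty :=
        ⟨max c d, le_max_left _ _, fun x _ hx => hx.le.trans (le_max_right _ _)⟩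
      refine ⟨(wellFounded_lt (α := I)).min _ hne, WellFounded.min_mem _ _ hne, fun v hv => ?_⟩
      have hv' : v ∈ {u | c ≤ u ∧ ∀ x ∈ C, x < d → x ≤ u} := hv
      exact not_lt.mp (WellFounded.not_lt_min (wellFounded_lt (α := I)) _ hv')
    choose c' hc'1 hc'2 using hc'
    have hy : ∀ d, ∃ y : I → I × I, d < α →
        (∀ δ ∈ R, c' d < δ → δ ≤ d → y δ ∈ A δ ∧ c' d < (y δ).1 ∧ ∀ e ∈ E, Comp N (y δ) e) ∧
        ∀ δ ∈ R, ∀ δ' ∈ R, c' d < δ → δ < δ' → δ' ≤ d → Comp N (y δ) (y δ') := by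
      intro d
      by_cases hd : d < α
      · obtain ⟨y, hy⟩ := IH d hd (c' d) E hE
        exact ⟨y, fun _ => hy⟩
      · exact ⟨fun _ => (default, default), fun h => absurd h hd⟩
    choose y hy using hy
    have hdp : ∀ δ, ∃ d, δ < α → ((d ∈ C ∧ δ < d ∧ d < α) ∧
        ∀ x, (x ∈ C ∧ δ < x ∧ x < α) → d ≤ x) := by
      intro δ
      by_cases hδ : δ < α
      · have hne : {x | x ∈ C ∧ δ < x ∧ x < α}.Nonempty := by
          obtain ⟨γ, h1, h2, h3⟩ := hC1 δ hδ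
          exact ⟨γ, h1, h2, h3⟩
        refine ⟨(wellFounded_lt (α := I)).min _ hne, fun _ => ⟨WellFounded.min_mem _ _ hne,
          fun v hv => ?_⟩⟩
        have hv' : v ∈ {x | x ∈ C ∧ δ < x ∧ x < α} := hv
        exact not_lt.mp (WellFounded.not_lt_min (wellFounded_lt (α := I)) _ hv')
      · exact ⟨δ, fun h => absurd h hδ⟩
    choose dp hdp using hdp
    have hlow : ∀ δ ∈ R, c < δ → δ < α → c' (dp δ) < δ := by
      intro δ hδ hc hδα
      obtain ⟨⟨h1, h2, h3⟩, h4⟩ := hdp δ hδα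
      obtain ⟨hn, b, hb, hb2⟩ := hC2 δ hδ hδα c hc
      refine (hc'2 (dp δ) (max c b) ⟨le_max_left _ _, fun x hx hxd => ?_⟩).trans_lt (max_lt hc hb)
      have hxδ : x < δ := by
        rcases lt_trichotomy x δ with h | h | h
        · exact h
        · rw [h] at hx; exact absurd hx hn
        · exact absurd (h4 x ⟨hx, h, hxd.trans h3⟩) (not_le.mpr hxd)
      exact (hb2 x hx hxδ).trans (le_max_right _ _)
    refine ⟨fun δ => y (dp δ) δ, fun δ hδ hc hδα => ?_, fun δ hδ δ' hδ' hc hlt hδα => ?_⟩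
    · obtain ⟨⟨h1, h2, h3⟩, h4⟩ := hdp δ hδα
      obtain ⟨e1, e2, e3⟩ := (hy (dp δ) h3).1 δ hδ (hlow δ hδ hc hδα) h2.le
      exact ⟨e1, (hc'1 (dp δ)).1.trans_lt e2, e3⟩
    · have hδα' : δ < α := hlt.trans hδα
      have hcc : c < δ' := hc.trans hlt
      obtain ⟨⟨h1, h2, h3⟩, h4⟩ := hdp δ hδα'
      obtain ⟨⟨g1, g2, g3⟩, g4⟩ := hdp δ' hδα
      rcases le_or_gt δ' (dp δ) with hle | hgt
      · have hne : δ' ≠ dp δ := by
          intro h
          exact (hC2 δ' hδ' hδα c hcc).1 (h ▸ h1)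
        have hlt' : δ' < dp δ := lt_of_le_of_ne hle hne
        have heq : dp δ = dp δ' :=
          le_antisymm (h4 _ ⟨g1, hlt.trans g2, g3⟩) (g4 _ ⟨h1, hlt', h3⟩)
        simp only
        rw [← heq]
        exact (hy (dp δ) h3).2 δ hδ δ' hδ' (hlow δ hδ hc hδα') hlt hle
      · obtain ⟨e1, e2, e3⟩ := (hy (dp δ) h3).1 δ hδ (hlow δ hδ hc hδα') h2.le
        obtain ⟨f1, f2, f3⟩ := (hy (dp δ') g3).1 δ' hδ' (hlow δ' hδ' hcc hδα) g2.le
        refine comp_of_lt hN (hA _ _ e1).1 ?_ (hA _ _ f1).1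
        calc (y (dp δ) δ).2 < δ := (hA _ _ e1).2
          _ < dp δ := h2
          _ ≤ c' (dp δ') := (hc'1 (dp δ')).2 _ h1 (hgt.trans g2)
          _ < _ := f2
  intro c E hE
  by_cases hα : α ∈ R ∧ c < α
  · obtain ⟨hαR, hcα⟩ := hα
    have hrich := hR α hαR
    -- choose the column
    have hT1 : ({t | t < α ∧ t ∈ Prod.fst '' E} : Set I).Finite :=
      (hE.image Prod.fst).subset (fun t ht => ht.2)
    obtain ⟨b1, hb1, hb2, hb3⟩ := exists_bd hT1 (fun t ht => ht.1) hcα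
    obtain ⟨ζ, hζ1, hζ2, hζ3⟩ := hrich b1 hb1
    -- choose the height
    have hT2 : ({t | t < α ∧ ∃ e ∈ E, (ζ, t) ∈ N e} : Set I).Finite := by
      have hsub : ({t | t < α ∧ ∃ e ∈ E, (ζ, t) ∈ N e} : Set I) ⊆
          (fun e => if h : ∃ t, (ζ, t) ∈ N e then Classical.choose h else default) '' E := by
        rintro t ⟨-, e, he, ht⟩
        refine ⟨e, he, ?_⟩
        have hex : ∃ t, (ζ, t) ∈ N e := ⟨t, ht⟩
        simp only [hex, dif_pos]
        exact congrArg Prod.snd (hN.uniq e _ _ (Classical.choose_spec hex) ht rfl)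
      exact (hE.image _).subset hsub
    obtain ⟨b2, hb4, hb5, hb6⟩ := exists_bd hT2 (fun t ht => ht.1) hζ2
    obtain ⟨β, hβ1, hβ2, hβ3⟩ := hζ3 b2 hb4
    have hcompE : ∀ e ∈ E, Comp N (ζ, β) e := by
      intro e he
      refine ⟨?_, ?_, ?_⟩
      · intro h
        have : e.1 ≤ b1 := hb3 _ ⟨by rw [← h]; exact hζ2, ⟨e, he, rfl⟩⟩
        rw [← h] at this
        exact absurd hζ1 (not_lt.mpr this)
      · intro h
        have : β ≤ b2 := hb6 _ ⟨hβ2, e, he, h⟩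
        exact absurd hβ1 (not_lt.mpr this)
      · intro h
        obtain ⟨p1, p2, p3⟩ := hN.pos _ _ h
        have : e.1 ≤ b1 := hb3 _ ⟨(p2.trans_lt p3).trans hβ2, ⟨e, he, rfl⟩⟩
        exact absurd (hζ1.trans p1) (not_lt.mpr this)
    obtain ⟨y, h1, h2⟩ := stepA c (insert (ζ, β) E) (hE.insert _)
    refine ⟨fun δ => if δ = α then (ζ, β) else y δ, fun δ hδ hc hδα => ?_,
      fun δ hδ δ' hδ' hc hlt hδα => ?_⟩
    · by_cases h : δ = α
      · simp only [h, if_true]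
        exact ⟨hβ3, hb2.trans_lt hζ1, hcompE⟩
      · simp only [h, if_false]
        obtain ⟨e1, e2, e3⟩ := h1 δ hδ hc (lt_of_le_of_ne hδα h)
        exact ⟨e1, e2, fun e he => e3 e (Set.mem_insert_of_mem _ he)⟩
    · have hne : δ ≠ α := (hlt.trans_le hδα).ne
      by_cases h : δ' = α
      · simp only [h, hne, if_true, if_false]
        exact (h1 δ hδ hc (hlt.trans_le hδα)).2.2 _ (Set.mem_insert _ _)
      · simp only [h, hne, if_false]
        exact h2 δ hδ δ' hδ' hc hlt (lt_of_le_of_ne hδα h)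
  · obtain ⟨y, h1, h2⟩ := stepA c E hE
    have hne : ∀ δ ∈ R, c < δ → δ ≤ α → δ < α := by
      intro δ hδ hc hle
      refine lt_of_le_of_ne hle (fun h => hα ?_)
      rw [← h]
      exact ⟨hδ, hc⟩
    exact ⟨y, fun δ hδ hc hδα => h1 δ hδ hc (hne δ hδ hc hδα),
      fun δ hδ δ' hδ' hc hlt hδα => h2 δ hδ δ' hδ' hc hlt (hne δ' hδ' (hc.trans hlt) hδα)⟩

end

/-- closure points -/
theorem exists_closed {κ : Cardinal.{u}} (hreg : κ.IsRegular) (hunc : ℵ₀ < κ)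
    (G : κ.ord.ToType → κ.ord.ToType → κ.ord.ToType) (b : κ.ord.ToType) :
    ∃ δ, b < δ ∧ ∀ x, x < δ → ∀ y, y < δ → G x y < δ := by
  classical
  have hstep : ∀ a : κ.ord.ToType, ∃ a', a < a' ∧ ∀ x, x ≤ a → ∀ y, y ≤ a → G x y < a' := by
    intro a
    have h1 : #(Set.Iic a) < κ := Pool.Agent.Helper397.E5.card_Iic_lt hreg.aleph0_le a
    have h2 : #(Set.Iic a × Set.Iic a) < κ := by
      rw [Cardinal.mk_prod, Cardinal.lift_id]
      exact Cardinal.mul_lt_of_lt hreg.aleph0_le h1 h1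
    obtain ⟨e, he⟩ := bdd_reg hreg h2 (fun p => G p.1.1 p.2.1)
    have h3 : #(PUnit.{u + 1}) < κ := by
      rw [Cardinal.mk_punit]
      exact Cardinal.one_lt_aleph0.trans_le hreg.aleph0_le
    obtain ⟨e', he'⟩ := bdd_reg hreg h3 (fun _ => a)
    refine ⟨max e e', (he' PUnit.unit).trans_le (le_max_right _ _), fun x hx y hy => ?_⟩
    exact (he (⟨x, hx⟩, ⟨y, hy⟩)).trans_le (le_max_left _ _)
  choose f hf1 hf2 using hstep
  let a : ℕ → κ.ord.ToType := fun n => Nat.rec b (fun _ x => f x) n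
  have ha : ∀ n, a (n + 1) = f (a n) := fun n => rfl
  have hM : #(ULift.{u} ℕ) < κ := by simpa using hunc
  obtain ⟨e, he⟩ := bdd_reg hreg hM (fun n => a n.down)
  have hne : {u | ∀ n, a n < u}.Nonempty := ⟨e, fun n => he ⟨n⟩⟩
  let δ := (wellFounded_lt (α := κ.ord.ToType)).min _ hne
  have hδ1 : ∀ n, a n < δ := WellFounded.min_mem (wellFounded_lt (α := κ.ord.ToType)) _ hne
  have hδ2 : ∀ x, x < δ → ∃ n, x ≤ a n := by
    intro x hx
    by_contra hcon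
    push Not at hcon
    have hx' : x ∈ {u | ∀ n, a n < u} := hcon
    exact WellFounded.not_lt_min (wellFounded_lt (α := κ.ord.ToType)) _ hx' hx
  refine ⟨δ, hδ1 0, fun x hx y hy => ?_⟩
  obtain ⟨n, hn⟩ := hδ2 (max x y) (max_lt hx hy)
  calc G x y < f (a n) := hf2 _ x ((le_max_left _ _).trans hn) y ((le_max_right _ _).trans hn)
    _ = a (n + 1) := (ha n).symm
    _ < δ := hδ1 (n + 1)

/-- a club avoiding the limit points of `S` -/
theorem exists_club {κ : Cardinal.{u}} {S : Set Ordinal.{u}}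
    (hS : ∀ α, α < κ.ord → Cardinal.aleph0 < α.cof → ¬ StatIn α S) {α : Ordinal.{u}}
    (hα : α < κ.ord) (hlim : Order.IsSuccLimit α) :
    ∃ C : Set Ordinal.{u}, ClubIn α C ∧ ∀ δ ∈ C, δ ∈ S → δ < α → ¬ Order.IsSuccLimit δ := by
  classical
  rcases lt_or_ge Cardinal.aleph0 α.cof with h | h
  · have := hS α hα h
    unfold StatIn at this
    push Not at this
    obtain ⟨C, hC, hC2⟩ := this
    exact ⟨C, hC, fun δ hδ hδS hlt => absurd hδ (hC2 δ hδS hlt)⟩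
  · obtain ⟨s, hs, hsc⟩ := Order.exists_cof_eq (α := α.ToType)
    rw [Ordinal.cof_toType] at hsc
    have hcount : s.Countable := by
      rw [← Cardinal.le_aleph0_iff_set_countable, hsc]
      exact h
    have hα0 : (0 : Ordinal.{u}) < α := hlim.bot_lt
    have hsne : s.Nonempty := by
      obtain ⟨b, hb, -⟩ := hs (Ordinal.ToType.mk ⟨0, hα0⟩)
      exact ⟨b, hb⟩
    obtain ⟨t, ht⟩ := hcount.exists_eq_range hsne
    let tO : ℕ → Ordinal.{u} := fun n => ofI (t n)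
    have htO : ∀ n, tO n < α := fun n => ofI_lt _
    have hcof : ∀ a, a < α → ∃ n, a ≤ tO n := by
      intro a ha
      obtain ⟨b, hb, hab⟩ := hs (Ordinal.ToType.mk ⟨a, ha⟩)
      rw [ht] at hb
      obtain ⟨n, rfl⟩ := hb
      refine ⟨n, ?_⟩
      have h1 := (Ordinal.ToType.mk (o := α)).symm.monotone hab
      rw [OrderIso.symm_apply_apply] at h1
      exact h1
    obtain ⟨a, ha0, ha⟩ : ∃ a : ℕ → Ordinal.{u}, a 0 = Order.succ 0 ∧
        ∀ n, a (n + 1) = Order.succ (max (a n) (tO n)) :=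
      ⟨fun n => Nat.rec (Order.succ 0) (fun n x => Order.succ (max x (tO n))) n, rfl, fun n => rfl⟩
    have halt : ∀ n, a n < α := by
      intro n
      induction n with
      | zero => rw [ha0]; exact hlim.succ_lt hα0
      | succ n ih => rw [ha]; exact hlim.succ_lt (max_lt ih (htO n))
    have hmono : StrictMono a := by
      refine strictMono_nat_of_lt_succ (fun n => ?_)
      rw [ha]
      exact Order.lt_succ_of_le (le_max_left _ _)
    refine ⟨Set.range a, ⟨fun β hβ => ?_, fun δ hδ hδ0 hδl => ?_⟩, ?_⟩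
    · obtain ⟨n, hn⟩ := hcof β hβ
      refine ⟨a (n + 1), ⟨n + 1, rfl⟩, ?_, halt (n + 1)⟩
      rw [ha]
      exact Order.lt_succ_of_le (hn.trans (le_max_right _ _))
    · exfalso
      obtain ⟨n, hn⟩ := hcof δ hδ
      have hex : ∃ m, δ ≤ a m := ⟨n + 1, by
        rw [ha]
        exact (hn.trans (le_max_right _ _)).trans (Order.le_succ _)⟩
      have hm := Nat.find_spec hex
      rcases Nat.eq_zero_or_pos (Nat.find hex) with h0 | h0
      · obtain ⟨γ, ⟨k, rfl⟩, -, h2⟩ := hδl 0 (pos_iff_ne_zero.mpr hδ0)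
        rw [h0] at hm
        exact absurd (hm.trans (hmono.monotone (Nat.zero_le k))) (not_le.mpr h2)
      · have hlt : a (Nat.find hex - 1) < δ := by
          have := Nat.find_min hex (Nat.sub_lt h0 one_pos)
          exact not_le.mp this
        obtain ⟨γ, ⟨k, rfl⟩, h1, h2⟩ := hδl _ hlt
        have hk : Nat.find hex - 1 < k := hmono.lt_iff_lt.mp h1
        have hk2 : Nat.find hex ≤ k := by omega
        exact absurd (hm.trans (hmono.monotone hk2)) (not_le.mpr h2)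
    · rintro _ ⟨n, rfl⟩ - - hl
      cases n with
      | zero => exact absurd hl (by rw [ha0]; exact Order.not_isSuccLimit_succ _)
      | succ n => exact absurd hl (by rw [ha]; exact Order.not_isSuccLimit_succ _)

theorem badGraph_diamond {κ : Cardinal.{u}} (hreg : κ.IsRegular) (hunc : ℵ₀ < κ)
    (hd : NonreflectingDiamond κ) : BadGraph κ.ord.ToType := by
  classical
  obtain ⟨S, A, hS, hdia⟩ := hd
  haveI : Nonempty κ.ord.ToType := by
    rw [← Cardinal.mk_ne_zero_iff, Cardinal.mk_ord_toType]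
    exact hreg.pos.ne'
  haveI : Inhabited κ.ord.ToType := ⟨Classical.arbitrary _⟩
  have hprod : #(κ.ord.ToType) = #(κ.ord.ToType × κ.ord.ToType) := by
    rw [Cardinal.mk_prod, Cardinal.lift_id, Cardinal.mk_ord_toType,
      Cardinal.mul_eq_self hreg.aleph0_le]
  obtain ⟨c⟩ := Cardinal.eq.mp hprod
  have hinj : ∀ a b : κ.ord.ToType, ofI a = ofI b → a = b := by
    intro a b h
    rcases lt_trichotomy a b with h' | h' | h'
    · exact absurd h (ofI_lt_ofI.mpr h').ne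
    · exact h'
    · exact absurd h (ofI_lt_ofI.mpr h').ne'
  let A' : κ.ord.ToType → Set (κ.ord.ToType × κ.ord.ToType) := fun δ =>
    {y | y.1 ≤ y.2 ∧ y.2 < δ ∧ ofI (c.symm y) ∈ A (ofI δ)}
  let R : Set κ.ord.ToType := {δ | ofI δ ∈ S ∧ Rich A' δ}
  have hA' : ∀ δ, ∀ y ∈ A' δ, y.1 ≤ y.2 ∧ y.2 < δ := fun δ y hy => ⟨hy.1, hy.2.1⟩
  have hR : ∀ δ ∈ R, Rich A' δ := fun δ h => h.2
  -- rich points are limits
  have hRlim : ∀ δ ∈ R, ∀ b, b < δ → ∃ b', b < b' ∧ b' < δ := by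
    intro δ hδ b hb
    obtain ⟨ζ, h1, h2, h3⟩ := hR δ hδ b hb
    exact ⟨ζ, h1, h2⟩
  have hlimO : ∀ δ : κ.ord.ToType, (∀ b, b < δ → ∃ b', b < b' ∧ b' < δ) → (∃ b, b < δ) →
      Order.IsSuccLimit (ofI δ) := by
    intro δ h1 ⟨b0, hb0⟩
    refine ⟨?_, ?_⟩
    · intro h
      have := h.eq_bot
      have h3 := ofI_lt_ofI.mpr hb0
      rw [this] at h3
      exact not_lt_bot h3
    · refine Order.isSuccPrelimit_of_succ_lt (fun a ha => ?_)
      obtain ⟨i, hi⟩ := exists_ofI (ha.trans (ofI_lt δ))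
      have hiδ : i < δ := by rw [← ofI_lt_ofI, hi]; exact ha
      obtain ⟨b', h2, h3⟩ := h1 i hiδ
      have h4 := ofI_lt_ofI.mpr h2
      rw [hi] at h4
      exact (Order.succ_le_of_lt h4).trans_lt (ofI_lt_ofI.mpr h3)
  have hclub : ∀ α : κ.ord.ToType, (∀ b, b < α → ∃ δ ∈ R, b < δ ∧ δ < α) →
      ∃ C : Set κ.ord.ToType, (∀ b, b < α → ∃ γ ∈ C, b < γ ∧ γ < α) ∧
      ∀ δ ∈ R, δ < α → ∀ c, c < δ → δ ∉ C ∧ ∃ b, b < δ ∧ ∀ γ ∈ C, γ < δ → γ ≤ b := by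
    intro α hα
    by_cases hne : ∃ b, b < α
    · have hlim := hlimO α (fun b hb => by
        obtain ⟨δ, -, h1, h2⟩ := hα b hb
        exact ⟨δ, h1, h2⟩) hne
      obtain ⟨C, hC1, hC2⟩ := exists_club hS (ofI_lt α) hlim
      refine ⟨{i | ofI i ∈ C}, fun b hb => ?_, fun δ hδ hδα c0 hc0 => ?_⟩
      · obtain ⟨γ, h1, h2, h3⟩ := hC1.1 (ofI b) (ofI_lt_ofI.mpr hb)
        obtain ⟨i, hi⟩ := exists_ofI (h3.trans (ofI_lt α))
        refine ⟨i, by simpa [hi] using h1, ?_, ?_⟩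
        · rw [← ofI_lt_ofI, hi]; exact h2
        · rw [← ofI_lt_ofI, hi]; exact h3
      · have hl : Order.IsSuccLimit (ofI δ) := hlimO δ (hRlim δ hδ) ⟨c0, hc0⟩
        have hn : ofI δ ∉ C := fun h => hC2 _ h hδ.1 (ofI_lt_ofI.mpr hδα) hl
        refine ⟨hn, ?_⟩
        by_contra hcon
        push Not at hcon
        apply hn
        refine hC1.2 (ofI δ) (ofI_lt_ofI.mpr hδα) (fun h0 => ?_) (fun β hβ => ?_)
        · have h3 := ofI_lt_ofI.mpr hc0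
          rw [h0] at h3
          exact not_lt_bot h3
        · obtain ⟨i, hi⟩ := exists_ofI (hβ.trans (ofI_lt δ))
          have hiδ : i < δ := by rw [← ofI_lt_ofI, hi]; exact hβ
          obtain ⟨γ, h1, h2, h3⟩ := hcon i hiδ
          refine ⟨ofI γ, h1, ?_, ofI_lt_ofI.mpr h2⟩
          rw [← hi]
          exact ofI_lt_ofI.mpr h3
    · push Not at hne
      refine ⟨∅, fun b hb => absurd hb (not_lt.mpr (hne b)), fun δ _ hδα => ?_⟩
      exact absurd hδα (not_lt.mpr (hne δ))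
  obtain ⟨N, hN1, hN2, hN3⟩ := build (I := κ.ord.ToType)
    (fun ξ α => {B | ∃ δ ∈ R, ξ < δ ∧ δ ≤ α ∧ B = A' δ})
    (by
      intro N hN ξ α
      obtain ⟨y, h1, h2⟩ := sel_diamond R A' hA' hR hclub N hN α ξ ∅ Set.finite_empty
      have hcomp : ∀ δ ∈ R, ∀ δ' ∈ R, ξ < δ → ξ < δ' → δ ≤ α → δ' ≤ α → δ ≠ δ' →
          Comp N (y δ) (y δ') := by
        intro δ hδ δ' hδ' e1 e2 e3 e4 hne
        rcases lt_or_gt_of_ne hne with h | h
        · exact h2 δ hδ δ' hδ' e1 h e4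
        · exact (h2 δ' hδ' δ hδ e2 h e3).symm
      refine ⟨{p | ∃ δ ∈ R, ξ < δ ∧ δ ≤ α ∧ p = y δ}, ⟨?_, ?_, ?_⟩, ?_⟩
      · rintro _ ⟨δ, hδ, e1, e2, rfl⟩
        obtain ⟨f1, f2, f3⟩ := h1 δ hδ e1 e2
        exact ⟨f2, f1.1, f1.2.1.trans_le e2⟩
      · rintro _ ⟨δ, hδ, e1, e2, rfl⟩ _ ⟨δ', hδ', e1', e2', rfl⟩ heq
        by_contra hne
        have hne' : δ ≠ δ' := fun h => hne (by rw [h])
        exact (hcomp δ hδ δ' hδ' e1 e1' e2 e2' hne').1 heq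
      · rintro _ ⟨δ, hδ, e1, e2, rfl⟩ _ ⟨δ', hδ', e1', e2', rfl⟩ hmem
        by_cases hne : δ = δ'
        · rw [hne] at hmem
          exact lt_irrefl _ (hN.pos _ _ hmem).1
        · exact (hcomp δ hδ δ' hδ' e1 e1' e2 e2' hne).2.2 hmem
      · rintro B ⟨δ, hδ, e1, e2, rfl⟩
        exact ⟨y δ, ⟨δ, hδ, e1, e2, rfl⟩, (h1 δ hδ e1 e2).1⟩)
  refine badGraph_of hN1 hN2 ?_
  intro X hX
  obtain ⟨ξ0, -, hξ0⟩ := hX default
  have hncol : ∀ b, ∃ ζ, b < ζ ∧ ∀ b', ∃ β, b' < β ∧ (ζ, β) ∈ X := hX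
  choose ncol hncol1 hncol2 using hncol
  have hnxt : ∀ ζ b, ∃ β, (∀ b', ∃ β, b' < β ∧ (ζ, β) ∈ X) → b < β ∧ (ζ, β) ∈ X := by
    intro ζ b
    by_cases h : ∀ b', ∃ β, b' < β ∧ (ζ, β) ∈ X
    · obtain ⟨β, hβ⟩ := h b
      exact ⟨β, fun _ => hβ⟩
    · exact ⟨b, fun h' => absurd h' h⟩
  choose nxt hnxt using hnxt
  let G : κ.ord.ToType → κ.ord.ToType → κ.ord.ToType := fun x y =>
    max (ncol x) (max (nxt x y) (c.symm (x, y)))
  let C0 : Set Ordinal.{u} := {o | ∃ δ : κ.ord.ToType, ofI δ = o ∧ ξ0 < δ ∧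
    ∀ x, x < δ → ∀ y, y < δ → G x y < δ}
  have hC0 : ClubIn κ.ord C0 := by
    refine ⟨fun β hβ => ?_, fun o ho ho0 hlim => ?_⟩
    · obtain ⟨i, hi⟩ := exists_ofI hβ
      obtain ⟨δ, h1, h2⟩ := exists_closed hreg hunc G (max i ξ0)
      refine ⟨ofI δ, ⟨δ, rfl, (le_max_right _ _).trans_lt h1, h2⟩, ?_, ofI_lt δ⟩
      rw [← hi]
      exact ofI_lt_ofI.mpr ((le_max_left _ _).trans_lt h1)
    · obtain ⟨δ, hδ⟩ := exists_ofI ho
      refine ⟨δ, hδ, ?_, fun x hx y hy => ?_⟩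
      · obtain ⟨γ, ⟨δ', h1, h2, h3⟩, -, h5⟩ := hlim 0 (pos_iff_ne_zero.mpr ho0)
        refine h2.trans ?_
        rw [← ofI_lt_ofI, h1, hδ]
        exact h5
      · obtain ⟨γ, ⟨δ', h1, h2, h3⟩, h4, h5⟩ := hlim (ofI (max x y)) (by
          rw [← hδ]
          exact ofI_lt_ofI.mpr (max_lt hx hy))
        rw [← h1, ofI_lt_ofI] at h4
        refine (h3 x ((le_max_left _ _).trans_lt h4) y ((le_max_right _ _).trans_lt h4)).trans ?_
        rw [← ofI_lt_ofI, h1, hδ]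
        exact h5
  obtain ⟨o, ⟨hoS, hoA⟩, ho, δ, hδo, hξδ, hG⟩ := hdia {o | ∃ z : κ.ord.ToType, ofI z = o ∧ c z ∈ X} C0 hC0
  subst hδo
  have hmem : ∀ y : κ.ord.ToType × κ.ord.ToType, y ∈ X → c.symm y < δ →
      ofI (c.symm y) ∈ A (ofI δ) := by
    intro y hy hlt
    rw [← hoA]
    exact ⟨⟨c.symm y, rfl, by simpa using hy⟩, ofI_lt_ofI.mpr hlt⟩
  have hrich : Rich A' δ := by
    intro η hη
    have h1 : ncol η < δ := (le_max_left _ _).trans_lt (hG η hη η hη)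
    refine ⟨ncol η, hncol1 η, h1, fun b hb => ?_⟩
    have h2 : max b (ncol η) < δ := max_lt hb h1
    have h3 := hnxt (ncol η) (max b (ncol η)) (hncol2 η)
    have h4 : nxt (ncol η) (max b (ncol η)) < δ :=
      ((le_max_left _ _).trans (le_max_right _ _)).trans_lt (hG _ h1 _ h2)
    refine ⟨_, (le_max_left _ _).trans_lt h3.1, h4, ?_, h4, ?_⟩
    · exact ((le_max_right _ _).trans_lt h3.1).le
    · exact hmem _ h3.2 (((le_max_right _ _).trans (le_max_right _ _)).trans_lt (hG _ h1 _ h4))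
  obtain ⟨α, hα, hαX⟩ := hξ0 δ
  obtain ⟨y, hy1, hy2⟩ := hN3 (ξ0, α) (A' δ) ⟨δ, ⟨hoS, hrich⟩, hξδ, hα.le, rfl⟩
  refine ⟨(ξ0, α), hαX, y, ?_, hy1⟩
  have h5 : ofI (c.symm y) ∈ A (ofI δ) := hy2.2.2
  rw [← hoA] at h5
  obtain ⟨⟨z, hz1, hz2⟩, -⟩ := h5
  rw [hinj _ _ hz1] at hz2
  simpa using hz2

end Pool.Agent.Helper397.E12
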