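import Pool.Agent.Helper397.E11
import Pool.Agent.Helper397.E12

set_option autoImplicit false

namespace Pool.Agent.Helper397.E13

open Cardinal
open Pool.Agent.Helper397.E1 Pool.Agent.Helper397.E2 Pool.Agent.Helper397.E3
open Pool.Agent.Helper397.E5 Pool.Agent.Helper397.E9 Pool.Agent.Helper397.E10
open Pool.Agent.Helper397.E11 Pool.Agent.Helper397.E12
open Pool.Agent.Helper397.LamDefs

universe u

theorem not_arrow_of_diamond {l : Cardinal.{u}} (hl : ℵ₀ ≤ l) (hunc : ℵ₀ < l.ord.cof)
    (hd : NonreflectingDiamond l.ord.cof) : ¬ ArrowSelfThree (l.ord * l.ord) :=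
  transfer hl (badGraph_diamond (Cardinal.isRegular_cof (Cardinal.isSuccLimit_ord hl)) hunc hd)

/-- Classification under GCH and nonreflecting diamonds at the inaccessible cardinals which are not
weakly compact. -/
theorem classification
    (gch : ∀ μ : Cardinal.{u}, ℵ₀ ≤ μ → (2 : Cardinal.{u}) ^ μ = Order.succ μ)
    (hd : ∀ κ : Cardinal.{u}, κ.IsInaccessible → ¬ WeaklyCompact κ → NonreflectingDiamond κ)
    (l : Cardinal.{u}) (hl : ℵ₀ ≤ l) :
    ArrowSelfThree (l.ord * l.ord) ↔ (l.ord.cof = ℵ₀ ∨ WeaklyCompact l.ord.cof) := by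
  have hreg : (l.ord.cof).IsRegular := Cardinal.isRegular_cof (Cardinal.isSuccLimit_ord hl)
  constructor
  · intro harr
    by_contra hcon
    push Not at hcon
    obtain ⟨hcof, hwc⟩ := hcon
    by_cases hs : ∃ μ, ℵ₀ ≤ μ ∧ l.ord.cof = Order.succ μ
    · obtain ⟨μ, hμ, h⟩ := hs
      exact not_arrow_of_succ gch hl hμ h harr
    · push Not at hs
      have hin : (l.ord.cof).IsInaccessible := by
        refine ⟨lt_of_le_of_ne hreg.aleph0_le (Ne.symm hcof), hreg.le_cof_ord, ?_⟩
        have h1 := strong_limit_of_gch gch hreg.aleph0_le (l := l.ord.cof) (fun μ hμ h => by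
          rw [hreg.cof_ord] at h
          exact hs μ hμ h)
        exact fun x hx => h1 x hx
      exact not_arrow_of_diamond hl hin.aleph0_lt (hd _ hin hwc) harr
  · rintro (h | h)
    · exact arrow_of_omega gch hl h
    · refine arrow_of_cof hl (strong_limit_of_gch gch hl (fun μ hμ h2 => ?_)) (ram4_wc h)
      have h3 := h.1.isStrongPrelimit (x := μ)
      rw [h2] at h3
      have h4 := h3 (Order.lt_succ μ)
      rw [gch μ hμ] at h4
      exact lt_irrefl _ h4

end Pool.Agent.Helper397.E13
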