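import Pool.Agent.Helper397.E13

set_option autoImplicit false

namespace Pool.Agent.Helper397.E14

open Cardinal
open Pool.Agent.Helper397.E1 Pool.Agent.Helper397.E2 Pool.Agent.Helper397.E3
open Pool.Agent.Helper397.E5 Pool.Agent.Helper397.E9 Pool.Agent.Helper397.E10
open Pool.Agent.Helper397.E11 Pool.Agent.Helper397.E12 Pool.Agent.Helper397.E13
open Pool.Agent.Helper397.LamDefs

universe u

theorem badGraph_of_not_arrow {κ : Cardinal.{u}} (hreg : κ.IsRegular)
    (hno : ¬ ArrowSelfThree (κ.ord * κ.ord)) : BadGraph κ.ord.ToType := by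
  by_contra hbad
  apply hno
  refine arrow_of_pos hreg.aleph0_le (fun G hsymm htri => ?_)
  by_contra hcon
  apply hbad
  refine ⟨G, hsymm, htri, fun X hX => ?_⟩
  by_contra hind
  push Not at hind
  have hne : Nonempty κ.ord.ToType := by
    rw [← Cardinal.mk_ne_zero_iff, Cardinal.mk_ord_toType]
    exact hreg.pos.ne'
  apply hcon
  refine ⟨{ξ | ∀ b', ∃ α, b' < α ∧ (ξ, α) ∈ X}, fun ξ => {α | (ξ, α) ∈ X}, ?_, fun ξ hξ => ?_,
    fun a _ b hb a' _ b' hb' => hind _ hb _ hb'⟩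
  · refine (card_unbdd hreg (S := {ξ | ∀ b', ∃ α, b' < α ∧ (ξ, α) ∈ X}) (fun b => ?_)
      (Classical.choice hne)).trans (Cardinal.mk_le_mk_of_subset (fun x hx => hx.1))
    obtain ⟨ξ, h1, h2⟩ := hX b
    exact ⟨ξ, h2, h1⟩
  · refine (card_unbdd hreg (S := {α | (ξ, α) ∈ X}) (fun b => ?_)
      (Classical.choice hne)).trans (Cardinal.mk_le_mk_of_subset (fun x hx => hx.1))
    obtain ⟨α, h1, h2⟩ := hξ b
    exact ⟨α, h2, h1⟩

theorem arrow_cof {l : Cardinal.{u}} (hl : ℵ₀ ≤ l) (h : ArrowSelfThree (l.ord * l.ord)) :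
    ArrowSelfThree (l.ord.cof.ord * l.ord.cof.ord) := by
  by_contra hno
  exact transfer hl (badGraph_of_not_arrow
    (Cardinal.isRegular_cof (Cardinal.isSuccLimit_ord hl)) hno) h

end Pool.Agent.Helper397.E14
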