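import Pool.Agent.Helper397.E1

set_option autoImplicit false

namespace Pool.Agent.Helper397.E2

open Cardinal
open Pool.Agent.Helper397.E1

universe u

theorem bdd_reg {c : Cardinal.{u}} (hc : c.IsRegular) {M : Type u} (hM : #M < c)
    (f : M → c.ord.ToType) : ∃ e, ∀ m, f m < e := by
  let g : M → Ordinal.{u} := fun m => ((Ordinal.ToType.mk.symm (f m) : Set.Iio c.ord) : Ordinal.{u})
  have hg : ∀ m, g m < c.ord := fun m => (Ordinal.ToType.mk.symm (f m) : Set.Iio c.ord).2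
  have hlim := Cardinal.isSuccLimit_ord hc.aleph0_le
  have hsup : (⨆ m, Order.succ (g m)) < c.ord := by
    refine Ordinal.iSup_lt_of_lt_cof ?_ (fun m => hlim.succ_lt (hg m))
    rw [hc.cof_ord]; exact hM
  refine ⟨Ordinal.ToType.mk ⟨_, hsup⟩, fun m => ?_⟩
  rw [← OrderIso.symm_apply_apply (Ordinal.ToType.mk (o := c.ord)).symm (f m)]
  simp only [OrderIso.symm_symm]
  rw [OrderIso.lt_iff_lt, ← Subtype.coe_lt_coe]
  exact lt_of_lt_of_le (Order.lt_succ (g m)) (Ordinal.le_iSup (fun m => Order.succ (g m)) m)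

theorem bdd_set {c : Cardinal.{u}} (hc : c.IsRegular) (S : Set c.ord.ToType) (hS : #S < c) :
    ∃ e, ∀ x ∈ S, x < e := by
  obtain ⟨e, he⟩ := bdd_reg hc hS (fun x : S => x.1)
  exact ⟨e, fun x hx => he ⟨x, hx⟩⟩

/-- Unbounded sets have full size above every point. -/
theorem card_unbdd {c : Cardinal.{u}} (hc : c.IsRegular) {S : Set c.ord.ToType}
    (hS : ∀ b, ∃ a ∈ S, b < a) (b : c.ord.ToType) : c ≤ #{a | a ∈ S ∧ b < a} := by
  by_contra hcon
  obtain ⟨e, he⟩ := bdd_set hc _ (not_le.mp hcon)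
  obtain ⟨a, ha, hab⟩ := hS (max b e)
  exact absurd (he a ⟨ha, (le_max_left _ _).trans_lt hab⟩) (not_lt.mpr ((le_max_right b e).trans hab.le))

theorem badGraph_succ {μ : Cardinal.{u}} (hμ : ℵ₀ ≤ μ) (h2 : (2 : Cardinal.{u}) ^ μ = Order.succ μ) :
    BadGraph (Order.succ μ).ord.ToType := by
  classical
  have hsμ : ℵ₀ ≤ Order.succ μ := hμ.trans (Order.le_succ μ)
  have hreg : (Order.succ μ).IsRegular := Cardinal.isRegular_succ hμ
  let I := (Order.succ μ).ord.ToType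
  let J := μ.ord.ToType
  have hIc : #I = Order.succ μ := Cardinal.mk_ord_toType _
  have hJc : #J = μ := Cardinal.mk_ord_toType _
  haveI : Nonempty J := by
    rw [← Cardinal.mk_ne_zero_iff, hJc]
    exact (Cardinal.aleph0_pos.trans_le hμ).ne'
  haveI : Nonempty I := by
    rw [← Cardinal.mk_ne_zero_iff, hIc]
    exact (Cardinal.aleph0_pos.trans_le hsμ).ne'
  haveI : Inhabited I := ⟨Classical.arbitrary I⟩
  have hJlt : ∀ j : J, #(Set.Iio j) < #J := by
    intro j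
    exact Cardinal.mk_Iio_lt j (by simp [J])
  have hIlt : ∀ i : I, #(Set.Iio i) ≤ μ := by
    intro i
    have h := Cardinal.mk_Iio_lt i (by simp [I])
    rw [Cardinal.mk_ord_toType, Order.lt_succ_iff] at h
    exact h
  -- enumeration of the data
  let Dt := (J → I) × (J → J → I)
  have hDt : #Dt ≤ #I := by
    have h1 : (Order.succ μ) ^ μ = Order.succ μ := by
      rw [← h2, ← Cardinal.power_mul, Cardinal.mul_eq_self hμ]
    have h3 : #(J → I) = Order.succ μ := by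
      rw [← Cardinal.power_def, hIc, hJc, h1]
    have h4 : #(J → J → I) = Order.succ μ := by
      rw [← Cardinal.power_def, h3, hJc, h1]
    rw [Cardinal.mk_prod, Cardinal.lift_id, Cardinal.lift_id, h3, h4, hIc, Cardinal.mul_eq_self hsμ]
  haveI : Nonempty Dt := ⟨(fun _ => default, fun _ _ => default)⟩
  obtain ⟨s, hs⟩ : ∃ s : I → Dt, Function.Surjective s := by
    obtain ⟨i⟩ := (Cardinal.le_def _ _).mp hDt
    exact ⟨Function.invFun i, Function.invFun_surjective i.injective⟩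
  let VD : I → I → Dt → Prop := fun ξ α d =>
    (∀ ν, ξ < d.1 ν) ∧ (∀ ν j, d.1 ν ≤ d.2 ν j ∧ d.2 ν j < α) ∧
      (∀ ν ν', ν < ν' → ∀ j, d.2 ν j < d.1 ν') ∧ ∀ ν, Function.Injective (d.2 ν)
  let pts : Dt → Set (I × I) := fun d => {p | ∃ ν j, p = (d.1 ν, d.2 ν j)}
  obtain ⟨N, hN1, hN2, hN3⟩ := build (I := I)
    (fun ξ α => {A | ∃ γ, γ < α ∧ VD ξ α (s γ) ∧ A = pts (s γ)})
    (by
      intro N hN ξ α
      by_cases hne : ∃ γ, γ < α ∧ VD ξ α (s γ)
      · obtain ⟨γ0, hγ0⟩ := hne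
        let Γ := {γ // γ < α ∧ VD ξ α (s γ)}
        haveI : Nonempty Γ := ⟨⟨γ0, hγ0⟩⟩
        have hΓ : #Γ ≤ #J := by
          rw [hJc]
          refine le_trans ?_ (hIlt α)
          exact Cardinal.mk_le_of_injective (f := fun γ : Γ => (⟨γ.1, γ.2.1⟩ : Set.Iio α))
            (fun a b h => Subtype.ext (congrArg (fun z : Set.Iio α => z.1) h))
        obtain ⟨t, ht⟩ : ∃ t : J → Γ, Function.Surjective t := by
          obtain ⟨i⟩ := (Cardinal.le_def _ _).mp hΓ
          exact ⟨Function.invFun i, Function.invFun_surjective i.injective⟩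
        obtain ⟨y, hy1, hy2⟩ := sel_succ hJlt N hN ξ α
          (fun γ ν => (s (t γ).1).1 ν) (fun γ ν => Set.range ((s (t γ).1).2 ν))
          (fun γ ν => (t γ).2.2.1 ν)
          (by
            rintro γ ν _ ⟨j, rfl⟩
            exact (t γ).2.2.2.1 ν j)
          (by
            rintro γ ν ν' h _ ⟨j, rfl⟩
            exact (t γ).2.2.2.2.1 ν ν' h j)
          (by
            intro γ ν
            rw [Cardinal.mk_range_eq _ ((t γ).2.2.2.2.2 ν)])
        refine ⟨Set.range y, hy2, ?_⟩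
        rintro A ⟨γ, h1, h2, rfl⟩
        obtain ⟨j, hj⟩ := ht ⟨γ, h1, h2⟩
        obtain ⟨ν, e1, ⟨j', e2⟩⟩ := hy1 j
        refine ⟨y j, ⟨j, rfl⟩, ν, j', ?_⟩
        have hj' : (t j).1 = γ := congrArg Subtype.val hj
        rw [← hj', ← e1, e2]
      · refine ⟨∅, ⟨by simp, by simp, by simp⟩, ?_⟩
        rintro A ⟨γ, h1, h2, rfl⟩
        exact absurd ⟨γ, h1, h2⟩ hne)
  refine badGraph_of hN1 hN2 ?_
  intro X hX
  obtain ⟨ξ, -, hξ⟩ := hX default
  obtain ⟨D, hD⟩ := exists_rec (I := J) (X := I × (J → I))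
    (fun ν D d => (∀ ν', ν' < ν → ∀ j, (D ν').2 j < d.1) ∧ ξ < d.1 ∧ (∀ j, d.1 ≤ d.2 j) ∧
      Function.Injective d.2 ∧ ∀ j, (d.1, d.2 j) ∈ X)
    (by
      rintro ν D D' d h ⟨h1, h2⟩
      refine ⟨fun ν' hν' => ?_, h2⟩
      rw [← h ν' hν']
      exact h1 ν' hν')
    (by
      intro ν D
      have hM : #(J × J) < Order.succ μ := by
        rw [Cardinal.mk_prod, Cardinal.lift_id, hJc, Cardinal.mul_eq_self hμ]
        exact Order.lt_succ μ
      obtain ⟨b, hb⟩ := bdd_reg hreg hM (fun p => (D p.1).2 p.2)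
      obtain ⟨η, hη, hη2⟩ := hX (max b ξ)
      have hcard := card_unbdd hreg (S := {α | (η, α) ∈ X})
        (fun b' => by
          obtain ⟨α, h1, h2⟩ := hη2 b'
          exact ⟨α, h2, h1⟩) η
      have hle : #J ≤ #{a | a ∈ {α | (η, α) ∈ X} ∧ η < a} := by
        rw [hJc]
        exact (Order.le_succ μ).trans hcard
      obtain ⟨i⟩ := (Cardinal.le_def _ _).mp hle
      refine ⟨(η, fun j => (i j).1), fun ν' _ j => ?_, ?_, fun j => ?_, ?_, fun j => ?_⟩
      · exact (hb (ν', j)).trans ((le_max_left _ _).trans_lt hη)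
      · exact (le_max_right _ _).trans_lt hη
      · exact (i j).2.2.le
      · exact fun a b h => i.injective (Subtype.ext h)
      · exact (i j).2.1)
  obtain ⟨γ, hγ⟩ := hs (fun ν => (D ν).1, fun ν j => (D ν).2 j)
  have hM : #(J × J) < Order.succ μ := by
    rw [Cardinal.mk_prod, Cardinal.lift_id, hJc, Cardinal.mul_eq_self hμ]
    exact Order.lt_succ μ
  obtain ⟨b, hb⟩ := bdd_reg hreg hM (fun p => (D p.1).2 p.2)
  obtain ⟨α, hα, hαX⟩ := hξ (max b γ)
  have hVD : VD ξ α (s γ) := by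
    rw [hγ]
    refine ⟨fun ν => (hD ν).2.1, fun ν j => ⟨(hD ν).2.2.1 j, ?_⟩, fun ν ν' h j => (hD ν').1 ν h j,
      fun ν => (hD ν).2.2.2.1⟩
    exact (hb (ν, j)).trans ((le_max_left _ _).trans_lt hα)
  obtain ⟨y, hy1, hy2⟩ := hN3 (ξ, α) (pts (s γ)) ⟨γ, (le_max_right _ _).trans_lt hα, hVD, rfl⟩
  refine ⟨(ξ, α), hαX, y, ?_, hy1⟩
  obtain ⟨ν, j, rfl⟩ := hy2
  rw [hγ]
  exact (hD ν).2.2.2.2 j

end Pool.Agent.Helper397.E2
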