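import Mathlib

set_option autoImplicit false

namespace Pool.Agent.Helper397.LamDefs

universe u

/-- The partition relation `α → (α, 3)²`: for every colouring of the pairs `x < y` of ordinals
below `α` (`R x y` means colour one) there is a subset of `α` of order type `α` all of whose pairs
have colour zero, or there are three elements all of whose pairs have colour one. -/
def ArrowSelfThree (α : Ordinal.{u}) : Prop :=
  ∀ R : Ordinal.{u} → Ordinal.{u} → Prop,
    (∃ f : Ordinal.{u} → Ordinal.{u}, StrictMonoOn f (Set.Iio α) ∧ (∀ x, x < α → f x < α) ∧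
      ∀ x y, x < y → y < α → ¬ R (f x) (f y)) ∨
    ∃ a b c, a < b ∧ b < c ∧ c < α ∧ R a b ∧ R b c ∧ R a c

/-- `C` is closed and unbounded in the ordinal `α`. -/
def ClubIn (α : Ordinal.{u}) (C : Set Ordinal.{u}) : Prop :=
  (∀ β, β < α → ∃ γ ∈ C, β < γ ∧ γ < α) ∧
    ∀ δ, δ < α → δ ≠ 0 → (∀ β, β < δ → ∃ γ ∈ C, β < γ ∧ γ < δ) → δ ∈ C

/-- `S` is stationary in the ordinal `α`: it meets every closed unbounded subset of `α`. -/
def StatIn (α : Ordinal.{u}) (S : Set Ordinal.{u}) : Prop :=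
  ∀ C, ClubIn α C → ∃ δ ∈ S, δ < α ∧ δ ∈ C

/-- There is a subset `S` of the cardinal `κ` which reflects at no ordinal below `κ` of
uncountable cofinality, and for which the diamond principle `◇(S)` holds. -/
def NonreflectingDiamond (κ : Cardinal.{u}) : Prop :=
  ∃ (S : Set Ordinal.{u}) (A : Ordinal.{u} → Set Ordinal.{u}),
    (∀ α, α < κ.ord → Cardinal.aleph0 < α.cof → ¬ StatIn α S) ∧
    ∀ X : Set Ordinal.{u}, StatIn κ.ord {δ | δ ∈ S ∧ X ∩ Set.Iio δ = A δ}

/-- Weakly compact cardinals: inaccessible cardinals `κ` with `κ → (κ)²₂`. -/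
def WeaklyCompact (κ : Cardinal.{u}) : Prop :=
  κ.IsInaccessible ∧ ∀ R : Ordinal.{u} → Ordinal.{u} → Prop,
    ∃ f : Ordinal.{u} → Ordinal.{u}, StrictMonoOn f (Set.Iio κ.ord) ∧
      (∀ x, x < κ.ord → f x < κ.ord) ∧
      ((∀ x y, x < y → y < κ.ord → R (f x) (f y)) ∨ ∀ x y, x < y → y < κ.ord → ¬ R (f x) (f y))

end Pool.Agent.Helper397.LamDefs
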