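import Pool.Agent.Helper397.E2
import Pool.Agent.Helper397.LamDefs

set_option autoImplicit false

namespace Pool.Agent.Helper397.E3

open Cardinal
open Pool.Agent.Helper397.E1 Pool.Agent.Helper397.E2 Pool.Agent.Helper397.LamDefs

universe u

theorem le_apply_of_strictMonoOn {α : Ordinal.{u}} {f : Ordinal.{u} → Ordinal.{u}}
    (hf : StrictMonoOn f (Set.Iio α)) {z : Ordinal.{u}} (hz : z < α) (hlt : ∀ x, x < α → f x < α) :
    z ≤ f z := by
  classical
  have hmono : StrictMono (fun x => if x < α then f x else x) := by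
    intro x y hxy
    by_cases hy : y < α
    · have hx : x < α := hxy.trans hy
      simp only [hx, hy, if_true]
      exact hf hx hy hxy
    · by_cases hx : x < α
      · simp only [hx, hy, if_true, if_false]
        exact (hlt x hx).trans_le (not_lt.mp hy)
      · simp only [hx, hy, if_false]
        exact hxy
  have := hmono.le_apply (x := z)
  simpa [hz] using this

theorem exists_idx {o : Ordinal.{u}} (hlim : Order.IsSuccLimit o) :
    ∃ idx : Ordinal.{u} → o.cof.ord.ToType,
      (∀ a b, a ≤ b → b < o → idx a ≤ idx b) ∧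
      ∀ i, ∃ b, b < o ∧ ∀ a, a < o → idx a ≤ i → a ≤ b := by
  classical
  obtain ⟨s, hs, hsc⟩ := Order.exists_cof_eq (α := o.ToType)
  rw [Ordinal.cof_toType] at hsc
  have hsI : #(o.cof.ord.ToType) = #s := by rw [hsc, Cardinal.mk_ord_toType]
  obtain ⟨eq⟩ := Cardinal.eq.mp hsI
  let gO : o.cof.ord.ToType → Ordinal.{u} := fun i =>
    ((Ordinal.ToType.mk.symm (eq i).1 : Set.Iio o) : Ordinal.{u})
  have hgO : ∀ i, gO i < o := fun i => (Ordinal.ToType.mk.symm (eq i).1 : Set.Iio o).2
  have hcof : ∀ a, a < o → ∃ i, a ≤ gO i := by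
    intro a ha
    obtain ⟨b, hb, hab⟩ := hs (Ordinal.ToType.mk ⟨a, ha⟩)
    refine ⟨eq.symm ⟨b, hb⟩, ?_⟩
    simp only [gO, Equiv.apply_symm_apply]
    have h1 := (Ordinal.ToType.mk (o := o)).symm.monotone hab
    rw [OrderIso.symm_apply_apply] at h1
    exact h1
  have hne : Nonempty o.cof.ord.ToType := by
    obtain ⟨i, -⟩ := hcof 0 (Order.IsSuccLimit.bot_lt hlim)
    exact ⟨i⟩
  let idx : Ordinal.{u} → o.cof.ord.ToType := fun a =>
    if h : ∃ i, a ≤ gO i then (wellFounded_lt).min {i | a ≤ gO i} h else Classical.choice hne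
  have hidx1 : ∀ a, a < o → a ≤ gO (idx a) := by
    intro a ha
    simp only [idx, hcof a ha, dif_pos]
    exact WellFounded.min_mem (wellFounded_lt) {i | a ≤ gO i} (hcof a ha)
  have hidx2 : ∀ a i, a < o → a ≤ gO i → idx a ≤ i := by
    intro a i ha hi
    simp only [idx, hcof a ha, dif_pos]
    exact not_lt.mp (WellFounded.not_lt_min (wellFounded_lt) {i | a ≤ gO i} hi)
  refine ⟨idx, fun a b hab hb => hidx2 a _ (hab.trans_lt hb) (hab.trans (hidx1 b hb)), fun i => ?_⟩
  have hreg : (o.cof).IsRegular := Cardinal.isRegular_cof hlim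
  have hcard : #(Set.Iic i) < o.cof := by
    have h1 : #(Set.Iio i) < o.cof := by
      have := Cardinal.mk_Iio_lt i (by simp)
      rwa [Cardinal.mk_ord_toType] at this
    rw [← Set.Iio_union_right]
    refine (Cardinal.mk_union_le _ _).trans_lt ?_
    exact Cardinal.add_lt_of_lt hreg.aleph0_le h1 (by
      rw [Cardinal.mk_singleton]
      exact Cardinal.one_lt_aleph0.trans_le hreg.aleph0_le)
  have hsup : (⨆ j : Set.Iic i, gO j.1) < o :=
    Ordinal.iSup_lt_of_lt_cof hcard (fun j => hgO j.1)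
  refine ⟨_, hsup, fun a ha hai => (hidx1 a ha).trans ?_⟩
  exact Ordinal.le_iSup (fun j : Set.Iic i => gO j.1) ⟨idx a, hai⟩

theorem transfer_aux {l : Cardinal.{u}} (hl : ℵ₀ ≤ l) {o : Ordinal.{u}} (hodef : o = l.ord)
    (hbad : BadGraph o.cof.ord.ToType) : ¬ ArrowSelfThree (o * o) := by
  classical
  intro harr
  obtain ⟨G, hsymm, htri, hhit⟩ := hbad
  have hirr : ∀ x, ¬ G x x := fun x h => htri x x x h h h
  have hlim : Order.IsSuccLimit o := by
    rw [hodef]
    exact Cardinal.isSuccLimit_ord hl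
  have hreg : (o.cof).IsRegular := Cardinal.isRegular_cof hlim
  have ho : o ≠ 0 := hlim.ne_bot
  obtain ⟨idx, hmono, hbd⟩ := exists_idx hlim
  let pr : Ordinal.{u} → o.cof.ord.ToType × o.cof.ord.ToType := fun z => (idx (z / o), idx (z % o))
  rcases harr (fun z w => G (pr z) (pr w)) with ⟨f, hf1, hf2, hf3⟩ | ⟨a, b, c, -, -, -, h1, h2, h3⟩
  · obtain ⟨x, hx, y, hy, hxy⟩ := hhit {p | ∃ z, z < o * o ∧ p = pr (f z)} (by
      intro b
      obtain ⟨ζ, hζ, hζ2⟩ := hbd b
      have hζ1 : ζ + 1 < o := by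
        rw [← Order.succ_eq_add_one]
        exact hlim.succ_lt hζ
      have hζ11 : ζ + 1 + 1 < o := by
        rw [← Order.succ_eq_add_one (ζ + 1)]
        exact hlim.succ_lt hζ1
      have hend : o * (ζ + 1 + 1) < o * o := mul_lt_mul_of_pos_left hζ11 (pos_iff_ne_zero.mpr ho)
      set η := f (o * (ζ + 1 + 1)) / o with hη
      have hηlt : η < o := (Ordinal.lt_mul_iff_div_lt ho).mp (hf2 _ hend)
      have hseg : ∀ γ, γ < o → o * (ζ + 1) + γ < o * (ζ + 1 + 1) := by
        intro γ hγ
        rw [mul_add o (ζ + 1) 1, mul_one]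
        exact (add_lt_add_iff_left _).mpr hγ
      have hlow : ∀ γ, γ < o → ζ + 1 ≤ f (o * (ζ + 1) + γ) / o := by
        intro γ hγ
        rw [← Ordinal.mul_le_iff_le_div ho]
        exact le_self_add.trans (le_apply_of_strictMonoOn hf1 ((hseg γ hγ).trans hend) hf2)
      have hhigh : ∀ γ, γ < o → f (o * (ζ + 1) + γ) / o ≤ η := by
        intro γ hγ
        exact Ordinal.div_le_left (hf1 ((hseg γ hγ).trans hend) hend (hseg γ hγ)).le o
      by_contra hcon
      push Not at hcon
      haveI : Nonempty o.cof.ord.ToType := ⟨b⟩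
      choose! b' hb' using hcon
      -- bound all columns up to `idx η`
      have hcard : #(Set.Iic (idx η)) < o.cof := by
        have h1 : #(Set.Iio (idx η)) < o.cof := by
          have := Cardinal.mk_Iio_lt (idx η) (by simp)
          rwa [Cardinal.mk_ord_toType] at this
        rw [← Set.Iio_union_right]
        refine (Cardinal.mk_union_le _ _).trans_lt ?_
        exact Cardinal.add_lt_of_lt hreg.aleph0_le h1 (by
          rw [Cardinal.mk_singleton]
          exact Cardinal.one_lt_aleph0.trans_le hreg.aleph0_le)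
      obtain ⟨e, he⟩ := bdd_reg hreg hcard (fun j => b' j.1)
      obtain ⟨θ, hθ, hθ2⟩ := hbd e
      have hrow : ∀ γ, γ < o → f (o * (ζ + 1) + γ) % o ≤ θ := by
        intro γ hγ
        have hz : o * (ζ + 1) + γ < o * o := (hseg γ hγ).trans hend
        refine hθ2 _ (Ordinal.mod_lt _ ho) ?_
        have hcolgt : b < idx (f (o * (ζ + 1) + γ) / o) := by
          by_contra hle
          have h1 := hζ2 _ ((hhigh γ hγ).trans_lt hηlt) (not_lt.mp hle)
          have h2 := (hlow γ hγ).trans h1
          exact absurd h2 (not_le.mpr (lt_add_one ζ))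
        have hcolle : idx (f (o * (ζ + 1) + γ) / o) ≤ idx η := hmono _ _ (hhigh γ hγ) hηlt
        by_contra hgt
        have h3 := he ⟨_, hcolle⟩
        have h4 := hb' _ hcolgt (idx (f (o * (ζ + 1) + γ) % o)) (h3.trans (not_le.mp hgt))
        exact h4 ⟨_, hz, rfl⟩
      -- cardinality contradiction
      let F : Set.Iio o → Set.Iic η × Set.Iic θ := fun γ =>
        (⟨f (o * (ζ + 1) + γ.1) / o, hhigh γ.1 γ.2⟩, ⟨f (o * (ζ + 1) + γ.1) % o, hrow γ.1 γ.2⟩)
      have hF : Function.Injective F := by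
        rintro ⟨γ, hγ⟩ ⟨γ', hγ'⟩ h
        have h1 : f (o * (ζ + 1) + γ) / o = f (o * (ζ + 1) + γ') / o :=
          congrArg (fun p => (p.1 : Ordinal.{u})) h
        have h2 : f (o * (ζ + 1) + γ) % o = f (o * (ζ + 1) + γ') % o :=
          congrArg (fun p => (p.2 : Ordinal.{u})) h
        have h3 : f (o * (ζ + 1) + γ) = f (o * (ζ + 1) + γ') := by
          rw [← Ordinal.div_add_mod (f (o * (ζ + 1) + γ)) o, h1, h2, Ordinal.div_add_mod]
        have h4 := hf1.injOn ((hseg γ hγ).trans hend) ((hseg γ' hγ').trans hend) h3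
        exact Subtype.ext ((add_right_inj _).mp h4)
      have h1 := Cardinal.mk_le_of_injective hF
      rw [Cardinal.mk_prod, Cardinal.lift_id, Cardinal.lift_id] at h1
      have hIic : ∀ x : Ordinal.{u}, x < o → #(Set.Iic x) < Cardinal.lift.{u + 1} l := by
        intro x hx
        have hx1 : x + 1 < o := by
          rw [← Order.succ_eq_add_one]
          exact hlim.succ_lt hx
        rw [← Order.Iio_succ, Cardinal.mk_Iio_ordinal, Order.succ_eq_add_one, Cardinal.lift_lt]
        exact (Cardinal.lt_ord).mp (hx1.trans_eq hodef)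
      rw [Cardinal.mk_Iio_ordinal, hodef, Cardinal.card_ord] at h1
      have h2 : #(Set.Iic η) * #(Set.Iic θ) < Cardinal.lift.{u + 1} l :=
        Cardinal.mul_lt_of_lt (by rw [← Cardinal.lift_aleph0.{u+1, u}, Cardinal.lift_le]; exact hl)
          (hIic η hηlt) (hIic θ hθ)
      exact absurd h1 (not_le.mpr h2))
    obtain ⟨z, hz, rfl⟩ := hx
    obtain ⟨w, hw, rfl⟩ := hy
    rcases lt_trichotomy z w with h | h | h
    · exact hf3 z w h hw hxy
    · rw [h] at hxy
      exact hirr _ hxy
    · exact hf3 w z h hz (hsymm _ _ hxy)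
  · exact htri _ _ _ h1 h2 h3

theorem transfer {l : Cardinal.{u}} (hl : ℵ₀ ≤ l) (hbad : BadGraph l.ord.cof.ord.ToType) :
    ¬ ArrowSelfThree (l.ord * l.ord) := transfer_aux hl rfl hbad

end Pool.Agent.Helper397.E3
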