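import Pool.Agent.Helper397.E3

set_option autoImplicit false

namespace Pool.Agent.Helper397.E4

open Cardinal
open Pool.Agent.Helper397.E1 Pool.Agent.Helper397.E2

universe u

/-- Pigeonhole principle for regular cardinals. -/
theorem ph {X Z : Type u} {m : Cardinal.{u}} (hm : m.IsRegular) (S : Set X) (hS : m ≤ #S)
    (col : X → Z) (hZ : #Z < m) : ∃ z, m ≤ #{x | x ∈ S ∧ col x = z} := by
  by_contra hcon
  push Not at hcon
  have h1 : S ⊆ ⋃ z, {x | x ∈ S ∧ col x = z} := fun x hx => Set.mem_iUnion.mpr ⟨col x, hx, rfl⟩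
  have h2 : #S ≤ Cardinal.sum (fun z => #{x | x ∈ S ∧ col x = z}) :=
    (Cardinal.mk_le_mk_of_subset h1).trans Cardinal.mk_iUnion_le_sum_mk
  have h3 : Cardinal.sum (fun z => #{x | x ∈ S ∧ col x = z}) < m :=
    Cardinal.sum_lt_of_isRegular hm hZ hcon
  exact absurd (hS.trans h2) (not_le.mpr h3)

/-- Triangle-free graphs have independent subsets of full regular size. -/
theorem indep {X : Type u} {m : Cardinal.{u}} (hm : m.IsRegular) (S : Set X) (hS : m ≤ #S)
    (G : X → X → Prop) (hsymm : ∀ x y, G x y → G y x)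
    (htri : ∀ x y z, G x y → G y z → G x z → False) :
    ∃ B, B ⊆ S ∧ m ≤ #B ∧ ∀ x ∈ B, ∀ y ∈ B, ¬ G x y := by
  classical
  by_cases hbig : ∃ x, m ≤ #{y | y ∈ S ∧ G x y}
  · obtain ⟨x, hx⟩ := hbig
    exact ⟨_, fun y hy => hy.1, hx, fun y hy z hz h => htri x y z hy.2 h hz.2⟩
  · push Not at hbig
    have hSne : S.Nonempty := by
      rw [Set.nonempty_iff_ne_empty]
      rintro rfl
      rw [Cardinal.mk_eq_zero] at hS
      exact absurd hS (not_le.mpr hm.pos)
    haveI : Inhabited X := ⟨hSne.some⟩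
    obtain ⟨v, hv⟩ := exists_rec (I := m.ord.ToType) (X := X)
      (fun i D x => x ∈ S ∧ ∀ j, j < i → x ≠ D j ∧ ¬ G (D j) x)
      (by
        rintro i D D' x h ⟨h1, h2⟩
        refine ⟨h1, fun j hj => ?_⟩
        rw [← h j hj]
        exact h2 j hj)
      (by
        intro i D
        by_contra hcon
        push Not at hcon
        have hsub : S ⊆ ⋃ j : Set.Iio i, ({y | y ∈ S ∧ G (D j.1) y} ∪ {D j.1}) := by
          intro x hx
          obtain ⟨j, hj, hjx⟩ := hcon x hx
          refine Set.mem_iUnion.mpr ⟨⟨j, hj⟩, ?_⟩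
          by_cases h : x = D j
          · exact Or.inr h
          · exact Or.inl ⟨hx, hjx h⟩
        have h2 : #S ≤ Cardinal.sum (fun j : Set.Iio i =>
            #(({y | y ∈ S ∧ G (D j.1) y} ∪ {D j.1} : Set X))) :=
          (Cardinal.mk_le_mk_of_subset hsub).trans Cardinal.mk_iUnion_le_sum_mk
        have hi : #(Set.Iio i) < m := by
          have := Cardinal.mk_Iio_lt i (by simp)
          rwa [Cardinal.mk_ord_toType] at this
        have h3 := Cardinal.sum_lt_of_isRegular hm hi (f := fun j : Set.Iio i =>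
            #(({y | y ∈ S ∧ G (D j.1) y} ∪ {D j.1} : Set X))) (fun j => by
          refine (Cardinal.mk_union_le _ _).trans_lt ?_
          refine Cardinal.add_lt_of_lt hm.aleph0_le (hbig _) ?_
          rw [Cardinal.mk_singleton]
          exact Cardinal.one_lt_aleph0.trans_le hm.aleph0_le)
        exact absurd (hS.trans h2) (not_le.mpr h3))
    have hinj : Function.Injective v := by
      intro i j hij
      rcases lt_trichotomy i j with h | h | h
      · exact absurd hij.symm ((hv j).2 i h).1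
      · exact h
      · exact absurd hij ((hv i).2 j h).1
    refine ⟨Set.range v, ?_, ?_, ?_⟩
    · rintro _ ⟨i, rfl⟩
      exact (hv i).1
    · rw [Cardinal.mk_range_eq _ hinj, Cardinal.mk_ord_toType]
    · rintro _ ⟨i, rfl⟩ _ ⟨j, rfl⟩ h
      rcases lt_trichotomy i j with hij | hij | hij
      · exact ((hv j).2 i hij).2 h
      · rw [hij] at h
        exact htri _ _ _ h h h
      · exact ((hv i).2 j hij).2 (hsymm _ _ h)

/-- The theorem of Erdos and Rado for pairs. -/
theorem erdos_rado {U : Type u} [LinearOrder U] [WellFoundedLT U] {μ : Cardinal.{u}}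
    (hμ : ℵ₀ ≤ μ) (hU : (2 : Cardinal.{u}) ^ μ < #U) {Z : Type u} (hZ : #Z ≤ μ) (g : U → U → Z) :
    ∃ H : Set U, Order.succ μ ≤ #H ∧ ∃ z, ∀ a ∈ H, ∀ b ∈ H, a < b → g a b = z := by
  classical
  let g' : U → U → Z := fun a b => if a < b then g a b else g b a
  have hsymm : ∀ a b, a ≠ b → g' a b = g' b a := by
    intro a b hab
    rcases lt_or_gt_of_ne hab with h | h
    · simp [g', h, not_lt.mpr h.le]
    · simp [g', h, not_lt.mpr h.le]
  haveI : Nonempty U := by
    rw [← Cardinal.mk_ne_zero_iff]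
    exact (bot_le.trans_lt hU).ne'
  haveI : Inhabited U := ⟨Classical.arbitrary U⟩
  let J := (Order.succ μ).ord.ToType
  have hreg : (Order.succ μ).IsRegular := Cardinal.isRegular_succ hμ
  have hJc : #J = Order.succ μ := Cardinal.mk_ord_toType _
  have hJlt : ∀ i : J, #(Set.Iio i) ≤ μ := by
    intro i
    have h := Cardinal.mk_Iio_lt i (by simp [J])
    rw [Cardinal.mk_ord_toType, Order.lt_succ_iff] at h
    exact h
  have hseq : ∀ u : U, ∃ v : J → U, ∀ ν, (∀ ν', ν' < ν → v ν' ≠ u) →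
      (∀ ν', ν' < ν → v ν ≠ v ν' ∧ g' (v ν') (v ν) = g' (v ν') u) ∧
      ∀ y, (∀ ν', ν' < ν → y ≠ v ν' ∧ g' (v ν') y = g' (v ν') u) → v ν ≤ y := by
    intro u
    obtain ⟨v, hv⟩ := exists_rec (I := J) (X := U)
      (fun ν D x => (∀ ν', ν' < ν → D ν' ≠ u) →
        (∀ ν', ν' < ν → x ≠ D ν' ∧ g' (D ν') x = g' (D ν') u) ∧
        ∀ y, (∀ ν', ν' < ν → y ≠ D ν' ∧ g' (D ν') y = g' (D ν') u) → x ≤ y)
      (by
        intro ν D D' x h hx hD'
        obtain ⟨h1, h2⟩ := hx (fun ν' hν' => by rw [h ν' hν']; exact hD' ν' hν')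
        refine ⟨fun ν' hν' => ?_, fun y hy => h2 y (fun ν' hν' => ?_)⟩
        · rw [← h ν' hν']
          exact h1 ν' hν'
        · rw [h ν' hν']
          exact hy ν' hν')
      (by
        intro ν D
        by_cases hD : ∀ ν', ν' < ν → D ν' ≠ u
        · have hne : {y | ∀ ν', ν' < ν → y ≠ D ν' ∧ g' (D ν') y = g' (D ν') u}.Nonempty :=
            ⟨u, fun ν' hν' => ⟨(hD ν' hν').symm, rfl⟩⟩
          refine ⟨(wellFounded_lt (α := U)).min _ hne, fun _ => ⟨?_, fun y hy => ?_⟩⟩
          · exact WellFounded.min_mem _ _ hne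
          · have hy' : y ∈ {y | ∀ ν', ν' < ν → y ≠ D ν' ∧ g' (D ν') y = g' (D ν') u} := hy
            exact not_lt.mp (WellFounded.not_lt_min (wellFounded_lt (α := U)) _ hy')
        · exact ⟨u, fun h => absurd h hD⟩)
    exact ⟨v, hv⟩
  choose v hv using hseq
  -- some `u` is never reached
  obtain ⟨u, hu⟩ : ∃ u, ∀ ν, v u ν ≠ u := by
    by_contra hcon
    push Not at hcon
    have hmin : ∀ u, ∃ ν, v u ν = u ∧ ∀ ν', ν' < ν → v u ν' ≠ u := by
      intro u
      have hne : {ν | v u ν = u}.Nonempty := hcon u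
      refine ⟨(wellFounded_lt (α := J)).min _ hne, WellFounded.min_mem _ _ hne, fun ν' hν' h => ?_⟩
      have h' : ν' ∈ {ν | v u ν = u} := h
      exact WellFounded.not_lt_min (wellFounded_lt (α := J)) _ h' hν'
    choose n hn1 hn2 using hmin
    let F : U → Σ ν : J, (Set.Iio ν → Z) := fun u => ⟨n u, fun ν' => g' (v u ν'.1) u⟩
    have hF : Function.Injective F := by
      intro u u' h
      have h1 : n u = n u' := congrArg Sigma.fst h
      have h2 : ∀ ν', ν' < n u → g' (v u ν') u = g' (v u' ν') u' := by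
        intro ν' hν'
        have hν'' : ν' < n u' := h1 ▸ hν'
        have key : ∀ (a b : Σ ν : J, (Set.Iio ν → Z)), a = b → ∀ (ha : ν' < a.1) (hb : ν' < b.1),
            a.2 ⟨ν', ha⟩ = b.2 ⟨ν', hb⟩ := by
          rintro a b rfl ha hb
          rfl
        exact key (F u) (F u') h hν' hν''
      have h3 : ∀ ν', ν' ≤ n u → v u ν' = v u' ν' := by
        intro ν'
        induction ν' using WellFoundedLT.induction with
        | ind ν' ih =>
          intro hν'
          have p1 := hv u ν' (fun ν'' h'' => hn2 u ν'' (h''.trans_le hν'))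
          have p2 := hv u' ν' (fun ν'' h'' => hn2 u' ν'' (h''.trans_le (h1 ▸ hν')))
          have e : ∀ ν'', ν'' < ν' → v u ν'' = v u' ν'' := fun ν'' h'' => ih ν'' h'' (h''.le.trans hν')
          apply le_antisymm
          · refine p1.2 _ (fun ν'' h'' => ?_)
            rw [h2 ν'' (h''.trans_le hν'), e ν'' h'']
            exact p2.1 ν'' h''
          · refine p2.2 _ (fun ν'' h'' => ?_)
            rw [← h2 ν'' (h''.trans_le hν'), ← e ν'' h'']
            exact p1.1 ν'' h''
      calc u = v u (n u) := (hn1 u).symm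
        _ = v u' (n u) := h3 _ le_rfl
        _ = v u' (n u') := by rw [h1]
        _ = u' := hn1 u'
    have h1 := Cardinal.mk_le_of_injective hF
    have h2 : #(Σ ν : J, (Set.Iio ν → Z)) ≤ (2 : Cardinal.{u}) ^ μ := by
      rw [Cardinal.mk_sigma]
      have h3 : ∀ ν : J, #(Set.Iio ν → Z) ≤ (2 : Cardinal.{u}) ^ μ := by
        intro ν
        rw [← Cardinal.power_def]
        calc #Z ^ #(Set.Iio ν) ≤ μ ^ #(Set.Iio ν) := Cardinal.power_le_power_right hZ
          _ ≤ μ ^ μ := Cardinal.power_le_power_left (Cardinal.aleph0_pos.trans_le hμ).ne' (hJlt ν)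
          _ = 2 ^ μ := Cardinal.power_self_eq hμ
      calc Cardinal.sum (fun ν : J => #(Set.Iio ν → Z))
          ≤ Cardinal.sum (fun _ : J => (2 : Cardinal.{u}) ^ μ) := Cardinal.sum_le_sum _ _ h3
        _ = #J * 2 ^ μ := by simp
        _ ≤ 2 ^ μ * 2 ^ μ := by
            rw [hJc]
            gcongr
            exact Order.succ_le_of_lt (Cardinal.cantor μ)
        _ = 2 ^ μ := Cardinal.mul_eq_self (hμ.trans (Cardinal.cantor μ).le)
    exact absurd (h1.trans h2) (not_le.mpr hU)
  have hvu := fun ν => hv u ν (fun ν' _ => hu ν')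
  have hinj : Function.Injective (v u) := by
    intro i j hij
    rcases lt_trichotomy i j with h | h | h
    · exact absurd hij.symm ((hvu j).1 i h).1
    · exact h
    · exact absurd hij ((hvu i).1 j h).1
  obtain ⟨z, hz⟩ := ph hreg (Set.univ : Set J) (by rw [Cardinal.mk_univ, hJc])
    (fun ν => g' (v u ν) u) (hZ.trans_lt (Order.lt_succ μ))
  refine ⟨(v u) '' {x | x ∈ Set.univ ∧ g' (v u x) u = z}, ?_, z, ?_⟩
  · rw [Cardinal.mk_image_eq hinj]
    exact hz
  · rintro _ ⟨ν1, ⟨-, h1⟩, rfl⟩ _ ⟨ν2, ⟨-, h2⟩, rfl⟩ hlt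
    have hg : g (v u ν1) (v u ν2) = g' (v u ν1) (v u ν2) := by simp [g', hlt]
    rw [hg]
    rcases lt_trichotomy ν1 ν2 with h | h | h
    · rw [((hvu ν2).1 ν1 h).2, h1]
    · rw [h] at hlt
      exact absurd hlt (lt_irrefl _)
    · rw [hsymm _ _ hlt.ne, ((hvu ν1).1 ν2 h).2, h2]

end Pool.Agent.Helper397.E4
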