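import Pool.Agent.Helper397.E4

set_option autoImplicit false

namespace Pool.Agent.Helper397.E5

open Cardinal
open Pool.Agent.Helper397.E1 Pool.Agent.Helper397.E2 Pool.Agent.Helper397.E4

universe u

/-- The Ramsey property for quadruples and finitely many colours. -/
def Ram4 (K : Type u) [LinearOrder K] : Prop :=
  ∀ (Z : Type) [Finite Z] (f : K → K → K → K → Z), ∃ H : Set K, (∀ b, ∃ h ∈ H, b < h) ∧
    ∃ z, ∀ a ∈ H, ∀ b ∈ H, ∀ c ∈ H, ∀ d ∈ H, a < b → b < c → c < d → f a b c d = z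

theorem ulim {K : Type u} {Z : Type} [Finite Z] (U : Ultrafilter K) (φ : K → Z) :
    ∃ z, ∀ᶠ x in (U : Filter K), φ x = z := by
  by_contra hcon
  push Not at hcon
  have h2 : ∀ᶠ x in (U : Filter K), ∀ z, φ x ≠ z := by
    rw [Filter.eventually_all]
    exact hcon
  obtain ⟨x, hx⟩ := h2.exists
  exact hx (φ x) rfl

theorem ram4_of_finite {K : Type u} [LinearOrder K] [Nonempty K] [NoMaxOrder K]
    (hfin : ∀ b : K, (Set.Iic b).Finite) : Ram4 K := by
  classical
  intro Z _ f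
  haveI : Infinite K := inferInstance
  let U : Ultrafilter K := Filter.hyperfilter K
  have htail : ∀ b : K, ∀ᶠ x in (U : Filter K), b < x := by
    intro b
    have h1 : (Set.Iic b)ᶜ ∈ (U : Filter K) := Filter.mem_hyperfilter_of_finite_compl (by
      rw [compl_compl]
      exact hfin b)
    filter_upwards [h1] with x hx
    exact not_le.mp hx
  choose f3 hf3 using fun a b c => ulim U (fun d => f a b c d)
  choose f2 hf2 using fun a b => ulim U (fun c => f3 a b c)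
  choose f1 hf1 using fun a => ulim U (fun b => f2 a b)
  obtain ⟨z, hz⟩ := ulim U f1
  let OK : ℕ → (ℕ → K) → K → Prop := fun n D x => f1 x = z ∧ (∀ i, i < n → D i < x ∧ f2 (D i) x = z) ∧
    (∀ i j, i < j → j < n → f3 (D i) (D j) x = z) ∧
    (∀ i j k, i < j → j < k → k < n → f (D i) (D j) (D k) x = z)
  have hOK : ∀ n (D D' : ℕ → K) x, (∀ j, j < n → D j = D' j) → OK n D x → OK n D' x := by
    rintro n D D' x h ⟨h1, h2, h3, h4⟩
    refine ⟨h1, fun i hi => ?_, fun i j hij hj => ?_, fun i j k hij hjk hk => ?_⟩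
    · rw [← h i hi]; exact h2 i hi
    · rw [← h i (hij.trans hj), ← h j hj]; exact h3 i j hij hj
    · rw [← h i (hij.trans (hjk.trans hk)), ← h j (hjk.trans hk), ← h k hk]
      exact h4 i j k hij hjk hk
  haveI : Inhabited K := ⟨Classical.arbitrary K⟩
  obtain ⟨D, hD⟩ := exists_rec (I := ℕ) (X := K)
    (fun n D x => (∀ j, j < n → OK j D (D j)) → OK n D x)
    (by
      intro n D D' x h hx hD'
      refine hOK n D D' x h (hx (fun j hj => ?_))
      rw [h j hj]
      exact hOK j D' D (D' j) (fun i hi => (h i (hi.trans hj)).symm) (hD' j hj))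
    (by
      intro n D
      by_cases hD : ∀ j, j < n → OK j D (D j)
      · have e2 : ∀ᶠ x in (U : Filter K), ∀ i ∈ Finset.range n, D i < x ∧ f2 (D i) x = z := by
          rw [Filter.eventually_all_finset]
          intro i hi
          rw [Finset.mem_range] at hi
          filter_upwards [htail (D i), hf1 (D i)] with x h1 h2
          exact ⟨h1, h2.trans (hD i hi).1⟩
        have e3 : ∀ᶠ x in (U : Filter K), ∀ j ∈ Finset.range n, ∀ i ∈ Finset.range j,
            f3 (D i) (D j) x = z := by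
          rw [Filter.eventually_all_finset]
          intro j hj
          rw [Filter.eventually_all_finset]
          intro i hi
          rw [Finset.mem_range] at hi hj
          filter_upwards [hf2 (D i) (D j)] with x h2
          exact h2.trans ((hD j hj).2.1 i hi).2
        have e4 : ∀ᶠ x in (U : Filter K), ∀ k ∈ Finset.range n, ∀ j ∈ Finset.range k,
            ∀ i ∈ Finset.range j, f (D i) (D j) (D k) x = z := by
          rw [Filter.eventually_all_finset]
          intro k hk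
          rw [Filter.eventually_all_finset]
          intro j hj
          rw [Filter.eventually_all_finset]
          intro i hi
          rw [Finset.mem_range] at hi hj hk
          filter_upwards [hf3 (D i) (D j) (D k)] with x h2
          exact h2.trans ((hD k hk).2.2.1 i j hi hj)
        obtain ⟨x, h1, h2, h3, h4⟩ := (hz.and (e2.and (e3.and e4))).exists
        refine ⟨x, fun _ => ⟨h1, fun i hi => h2 i (Finset.mem_range.mpr hi),
          fun i j hij hj => h3 j (Finset.mem_range.mpr hj) i (Finset.mem_range.mpr hij),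
          fun i j k hij hjk hk => h4 k (Finset.mem_range.mpr hk) j (Finset.mem_range.mpr hjk) i
            (Finset.mem_range.mpr hij)⟩⟩
      · exact ⟨default, fun h => absurd h hD⟩)
  have hDD : ∀ n, OK n D (D n) := by
    intro n
    induction n using Nat.strong_induction_on with
    | _ n ih => exact hD n ih
  have hmono : StrictMono D := fun i j hij => ((hDD j).2.1 i hij).1
  refine ⟨Set.range D, fun b => ?_, z, ?_⟩
  · by_contra hcon
    push Not at hcon
    have h1 : Set.range D ⊆ Set.Iic b := fun x hx => hcon x hx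
    exact (Set.infinite_range_of_injective hmono.injective) ((hfin b).subset h1)
  · rintro _ ⟨i, rfl⟩ _ ⟨j, rfl⟩ _ ⟨k, rfl⟩ _ ⟨l, rfl⟩ hij hjk hkl
    rw [hmono.lt_iff_lt] at hij hjk hkl
    exact (hDD l).2.2.2 i j k hij hjk hkl

theorem card_Iic_lt {c : Cardinal.{u}} (hc : ℵ₀ ≤ c) (i : c.ord.ToType) : #(Set.Iic i) < c := by
  have h1 : #(Set.Iio i) < c := by
    have := Cardinal.mk_Iio_lt i (by simp)
    rwa [Cardinal.mk_ord_toType] at this
  rw [← Set.Iio_union_right]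
  refine (Cardinal.mk_union_le _ _).trans_lt ?_
  exact Cardinal.add_lt_of_lt hc h1 (by
    rw [Cardinal.mk_singleton]
    exact Cardinal.one_lt_aleph0.trans_le hc)

theorem unbdd_of_card {c : Cardinal.{u}} (hc : ℵ₀ ≤ c) {S : Set c.ord.ToType} (hS : c ≤ #S) :
    ∀ b, ∃ h ∈ S, b < h := by
  intro b
  by_contra hcon
  push Not at hcon
  have h1 : S ⊆ Set.Iic b := fun x hx => hcon x hx
  exact absurd (hS.trans (Cardinal.mk_le_mk_of_subset h1)) (not_le.mpr (card_Iic_lt hc b))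

theorem split {c : Cardinal.{u}} (hc : c.IsRegular) {H : Set c.ord.ToType}
    (hH : ∀ b, ∃ h ∈ H, b < h) :
    ∃ τ : c.ord.ToType → Option c.ord.ToType, ∀ o b, ∃ h ∈ H, τ h = o ∧ b < h := by
  classical
  have hne : Nonempty c.ord.ToType := by
    rw [← Cardinal.mk_ne_zero_iff, Cardinal.mk_ord_toType]
    exact hc.pos.ne'
  have hHc : #H = c := by
    apply le_antisymm
    · have := Cardinal.mk_set_le H
      rwa [Cardinal.mk_ord_toType] at this
    · refine (card_unbdd hc hH (Classical.choice hne)).trans ?_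
      exact Cardinal.mk_le_mk_of_subset (fun x hx => hx.1)
  have h1 : #(Option c.ord.ToType × c.ord.ToType) = c := by
    rw [Cardinal.mk_prod, Cardinal.lift_id, Cardinal.lift_id, Cardinal.mk_option,
      Cardinal.mk_ord_toType, Cardinal.add_one_eq hc.aleph0_le, Cardinal.mul_eq_self hc.aleph0_le]
  obtain ⟨ψ⟩ := Cardinal.eq.mp (hHc.trans h1.symm)
  refine ⟨fun h => if hh : h ∈ H then (ψ ⟨h, hh⟩).1 else none, fun o b => ?_⟩
  have hinj : Function.Injective (fun k : c.ord.ToType => (ψ.symm (o, k)).1) := by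
    intro k k' h
    have h2 := ψ.symm.injective (Subtype.ext h)
    exact congrArg Prod.snd h2
  have hcard : c ≤ #(Set.range (fun k : c.ord.ToType => (ψ.symm (o, k)).1)) := by
    rw [Cardinal.mk_range_eq _ hinj, Cardinal.mk_ord_toType]
  obtain ⟨h, ⟨k, rfl⟩, hb⟩ := unbdd_of_card hc.aleph0_le hcard b
  refine ⟨_, (ψ.symm (o, k)).2, ?_, hb⟩
  simp

theorem index_lemma {c : Cardinal.{u}} (hc : c.IsRegular) (hR : Ram4 c.ord.ToType)
    (T1 : c.ord.ToType → c.ord.ToType → c.ord.ToType → c.ord.ToType → Prop)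
    (T2 T3 T4 : c.ord.ToType → c.ord.ToType → c.ord.ToType → Prop)
    (h1 : ∀ i1 i2 i3 l1 l2 l3, i1 ≠ i2 → i2 ≠ i3 → i1 ≠ i3 → l1 < l2 → l2 < l3 → i1 < l1 → i2 < l2 →
      i3 < l3 → T1 i1 l1 i2 l2 → T1 i2 l2 i3 l3 → T1 i1 l1 i3 l3 → False)
    (h2 : ∀ i l1 l2 l3, i < l1 → l1 < l2 → l2 < l3 → T2 i l1 l2 → T2 i l2 l3 → T2 i l1 l3 → False)
    (h3 : ∀ i l1 l2 l3, i < l1 → l1 < l2 → l2 < l3 → T3 i l1 l2 → T3 i l2 l3 → T3 i l1 l3 → False)
    (h4 : ∀ i l1 l2 l3, i < l1 → l1 < l2 → l2 < l3 → T4 i l1 l2 → T4 i l2 l3 → T4 i l1 l3 → False) :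
    ∃ (I : Set c.ord.ToType) (L : c.ord.ToType → Set c.ord.ToType),
      (∀ b, ∃ i ∈ I, b < i) ∧ (∀ i b, ∃ l ∈ L i, b < l) ∧ (∀ i, ∀ l ∈ L i, i < l) ∧
      (∀ i i', i ≠ i' → ∀ l ∈ L i, l ∉ L i') ∧
      (∀ i ∈ I, ∀ i' ∈ I, i ≠ i' → ∀ l ∈ L i, ∀ l' ∈ L i', l < l' → ¬ T1 i l i' l') ∧
      (∀ i ∈ I, ∀ l ∈ L i, ∀ l' ∈ L i, l < l' → ¬ T2 i l l' ∧ ¬ T3 i l l' ∧ ¬ T4 i l l') := by
  classical
  obtain ⟨H, hH, z, hz⟩ := hR (Prop × Prop × Prop × Prop × Prop × Prop)
    (fun a b c d => (T1 a c b d, T1 b c a d, T1 a b c d, T2 a b c, T3 a b c, T4 a b c))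
  have hz' : ∀ a ∈ H, ∀ b ∈ H, ∀ c ∈ H, ∀ d ∈ H, a < b → b < c → c < d →
      (T1 a c b d = z.1 ∧ T1 b c a d = z.2.1 ∧ T1 a b c d = z.2.2.1 ∧ T2 a b c = z.2.2.2.1 ∧
        T3 a b c = z.2.2.2.2.1 ∧ T4 a b c = z.2.2.2.2.2) := by
    intro a ha b hb c hc d hd hab hbc hcd
    have := hz a ha b hb c hc d hd hab hbc hcd
    rw [← this]
    exact ⟨rfl, rfl, rfl, rfl, rfl, rfl⟩
  haveI : Nonempty c.ord.ToType := by
    rw [← Cardinal.mk_ne_zero_iff, Cardinal.mk_ord_toType]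
    exact hc.pos.ne'
  obtain ⟨x1, m1, -⟩ := hH (Classical.arbitrary _)
  obtain ⟨x2, m2, l12⟩ := hH x1
  obtain ⟨x3, m3, l23⟩ := hH x2
  obtain ⟨x4, m4, l34⟩ := hH x3
  obtain ⟨x5, m5, l45⟩ := hH x4
  obtain ⟨x6, m6, l56⟩ := hH x5
  have nz1 : ¬ z.1 := by
    intro hcon
    have a1 := (hz' x1 m1 x2 m2 x4 m4 x5 m5 l12 (l23.trans l34) l45).1
    have a2 := (hz' x2 m2 x3 m3 x5 m5 x6 m6 l23 (l34.trans l45) l56).1
    have a3 := (hz' x1 m1 x3 m3 x4 m4 x6 m6 (l12.trans l23) l34 (l45.trans l56)).1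
    rw [eq_true hcon] at a1 a2 a3
    exact h1 x1 x2 x3 x4 x5 x6 l12.ne l23.ne (l12.trans l23).ne l45 l56
      (l12.trans (l23.trans l34)) (l23.trans (l34.trans l45)) (l34.trans (l45.trans l56))
      (of_eq_true a1) (of_eq_true a2) (of_eq_true a3)
  have nz2 : ¬ z.2.1 := by
    intro hcon
    have a1 := (hz' x2 m2 x3 m3 x4 m4 x5 m5 l23 l34 l45).2.1
    have a2 := (hz' x1 m1 x2 m2 x5 m5 x6 m6 l12 (l23.trans (l34.trans l45)) l56).2.1
    have a3 := (hz' x1 m1 x3 m3 x4 m4 x6 m6 (l12.trans l23) l34 (l45.trans l56)).2.1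
    rw [eq_true hcon] at a1 a2 a3
    exact h1 x3 x2 x1 x4 x5 x6 l23.ne' l12.ne' (l12.trans l23).ne' l45 l56
      l34 (l23.trans (l34.trans l45)) (l12.trans (l23.trans (l34.trans (l45.trans l56))))
      (of_eq_true a1) (of_eq_true a2) (of_eq_true a3)
  have nz3 : ¬ z.2.2.1 := by
    intro hcon
    have a1 := (hz' x1 m1 x2 m2 x3 m3 x4 m4 l12 l23 l34).2.2.1
    have a2 := (hz' x3 m3 x4 m4 x5 m5 x6 m6 l34 l45 l56).2.2.1
    have a3 := (hz' x1 m1 x2 m2 x5 m5 x6 m6 l12 (l23.trans (l34.trans l45)) l56).2.2.1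
    rw [eq_true hcon] at a1 a2 a3
    exact h1 x1 x3 x5 x2 x4 x6 (l12.trans l23).ne (l34.trans l45).ne
      (l12.trans (l23.trans (l34.trans l45))).ne (l23.trans l34) (l45.trans l56) l12 l34 l56
      (of_eq_true a1) (of_eq_true a2) (of_eq_true a3)
  have nz4 : ¬ z.2.2.2.1 := by
    intro hcon
    have a1 := (hz' x1 m1 x2 m2 x3 m3 x4 m4 l12 l23 l34).2.2.2.1
    have a2 := (hz' x1 m1 x3 m3 x4 m4 x5 m5 (l12.trans l23) l34 l45).2.2.2.1
    have a3 := (hz' x1 m1 x2 m2 x4 m4 x5 m5 l12 (l23.trans l34) l45).2.2.2.1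
    rw [eq_true hcon] at a1 a2 a3
    exact h2 x1 x2 x3 x4 l12 l23 l34 (of_eq_true a1) (of_eq_true a2) (of_eq_true a3)
  have nz5 : ¬ z.2.2.2.2.1 := by
    intro hcon
    have a1 := (hz' x1 m1 x2 m2 x3 m3 x4 m4 l12 l23 l34).2.2.2.2.1
    have a2 := (hz' x1 m1 x3 m3 x4 m4 x5 m5 (l12.trans l23) l34 l45).2.2.2.2.1
    have a3 := (hz' x1 m1 x2 m2 x4 m4 x5 m5 l12 (l23.trans l34) l45).2.2.2.2.1
    rw [eq_true hcon] at a1 a2 a3
    exact h3 x1 x2 x3 x4 l12 l23 l34 (of_eq_true a1) (of_eq_true a2) (of_eq_true a3)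
  have nz6 : ¬ z.2.2.2.2.2 := by
    intro hcon
    have a1 := (hz' x1 m1 x2 m2 x3 m3 x4 m4 l12 l23 l34).2.2.2.2.2
    have a2 := (hz' x1 m1 x3 m3 x4 m4 x5 m5 (l12.trans l23) l34 l45).2.2.2.2.2
    have a3 := (hz' x1 m1 x2 m2 x4 m4 x5 m5 l12 (l23.trans l34) l45).2.2.2.2.2
    rw [eq_true hcon] at a1 a2 a3
    exact h4 x1 x2 x3 x4 l12 l23 l34 (of_eq_true a1) (of_eq_true a2) (of_eq_true a3)
  obtain ⟨τ, hτ⟩ := split hc hH
  refine ⟨{i | i ∈ H ∧ τ i = none}, fun i => {l | l ∈ H ∧ τ l = some i ∧ i < l}, ?_, ?_, ?_, ?_, ?_, ?_⟩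
  · intro b
    obtain ⟨h, hh, h1, h2⟩ := hτ none b
    exact ⟨h, ⟨hh, h1⟩, h2⟩
  · intro i b
    obtain ⟨h, hh, h1, h2⟩ := hτ (some i) (max b i)
    exact ⟨h, ⟨hh, h1, (le_max_right _ _).trans_lt h2⟩, (le_max_left _ _).trans_lt h2⟩
  · exact fun i l hl => hl.2.2
  · intro i i' hii l hl hl'
    apply hii
    have := hl.2.1.symm.trans hl'.2.1
    exact Option.some_injective _ this
  · rintro i ⟨hi, hi0⟩ i' ⟨hi', hi'0⟩ hii l ⟨hl, hl0, hil⟩ l' ⟨hl', hl'0, hil'⟩ hll hT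
    obtain ⟨t, ht, hlt⟩ := hH l'
    have hne : l ≠ i' := by
      rintro rfl
      rw [hl0] at hi'0
      exact absurd hi'0 (by simp)
    rcases lt_or_gt_of_ne hii with h | h
    · rcases lt_or_gt_of_ne hne with h' | h'
      · have := (hz' i hi l hl i' hi' l' hl' hil h' hil').2.2.1
        rw [eq_false nz3] at this
        exact of_eq_false this hT
      · have := (hz' i hi i' hi' l hl l' hl' h h' hll).1
        rw [eq_false nz1] at this
        exact of_eq_false this hT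
    · have := (hz' i' hi' i hi l hl l' hl' h hil hll).2.1
      rw [eq_false nz2] at this
      exact of_eq_false this hT
  · rintro i ⟨hi, hi0⟩ l ⟨hl, hl0, hil⟩ l' ⟨hl', hl'0, hil'⟩ hll
    obtain ⟨t, ht, hlt⟩ := hH l'
    have := hz' i hi l hl l' hl' t ht hil hll hlt
    refine ⟨?_, ?_, ?_⟩
    · have := this.2.2.2.1
      rw [eq_false nz4] at this
      exact of_eq_false this
    · have := this.2.2.2.2.1
      rw [eq_false nz5] at this
      exact of_eq_false this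
    · have := this.2.2.2.2.2
      rw [eq_false nz6] at this
      exact of_eq_false this

end Pool.Agent.Helper397.E5
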