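import Pool.Agent.Helper397.E5

set_option autoImplicit false

namespace Pool.Agent.Helper397.E6

open Cardinal
open Pool.Agent.Helper397.E1 Pool.Agent.Helper397.E2 Pool.Agent.Helper397.E4
open Pool.Agent.Helper397.E5

universe u

theorem iUnion_le {ι α : Type u} {m : Cardinal.{u}} (hm : ℵ₀ ≤ m) (hι : #ι ≤ m) (f : ι → Set α)
    (hf : ∀ i, #(f i) ≤ m) : #(⋃ i, f i) ≤ m := by
  refine Cardinal.mk_iUnion_le_sum_mk.trans ?_
  refine (Cardinal.sum_le_sum _ (fun _ => m) hf).trans ?_
  rw [Cardinal.sum_const']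
  exact (mul_le_mul' hι le_rfl).trans (Cardinal.mul_eq_self hm).le

/-- Cardinal data for the canonisation. -/
structure CD {K W : Type u} [LinearOrder K] (p c s r : K → Cardinal.{u}) (blk : W → K) : Prop where
  p0 : ∀ i, ℵ₀ ≤ p i
  pK : ∀ i, #K ≤ p i
  creg : ∀ i, (c i).IsRegular
  sreg : ∀ i, (s i).IsRegular
  rreg : ∀ i, (r i).IsRegular
  pc : ∀ i, (2 : Cardinal.{u}) ^ ((2 : Cardinal.{u}) ^ p i) < c i
  cs : ∀ i, (2 : Cardinal.{u}) ^ c i < s i
  sr : ∀ i, (2 : Cardinal.{u}) ^ s i < r i
  rp : ∀ j i, j < i → r j ≤ p i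
  rW : ∀ i, r i ≤ #W
  blkc : ∀ i, #{a | blk a = i} = c i

section

variable {K W : Type u} [LinearOrder K] [LinearOrder W]
  {p c s r : K → Cardinal.{u}} {blk : W → K}

theorem CD.p_lt (h : CD p c s r blk) (i : K) : p i < 2 ^ p i := Cardinal.cantor _

theorem CD.pc' (h : CD p c s r blk) (i : K) : (2 : Cardinal.{u}) ^ p i < c i :=
  (Cardinal.cantor _).trans (h.pc i)

theorem CD.p_lt_c (h : CD p c s r blk) (i : K) : p i < c i := (h.p_lt i).trans (h.pc' i)

theorem CD.c_lt_s (h : CD p c s r blk) (i : K) : c i < s i := (Cardinal.cantor _).trans (h.cs i)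

theorem CD.s_lt_r (h : CD p c s r blk) (i : K) : s i < r i := (Cardinal.cantor _).trans (h.sr i)

theorem CD.low_card (h : CD p c s r blk) (i : K) : #{a | blk a < i} ≤ p i := by
  have h1 : {a | blk a < i} = ⋃ j : Set.Iio i, {a | blk a = j.1} := by
    ext a
    constructor
    · intro ha
      exact Set.mem_iUnion.mpr ⟨⟨blk a, ha⟩, rfl⟩
    · intro ha
      obtain ⟨j, hj⟩ := Set.mem_iUnion.mp ha
      have hj' : blk a = j.1 := hj
      show blk a < i
      rw [hj']
      exact j.2
  rw [h1]
  refine iUnion_le (h.p0 i) ((Cardinal.mk_set_le _).trans (h.pK i)) _ (fun j => ?_)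
  rw [h.blkc]
  exact (((h.c_lt_s _).trans (h.s_lt_r _)).le).trans (h.rp j.1 i j.2)

theorem CD.act_card (h : CD p c s r blk) (i : K) : #{a | blk a ≤ i} ≤ c i := by
  have h1 : {a | blk a ≤ i} = {a | blk a < i} ∪ {a | blk a = i} := by
    ext a
    exact le_iff_lt_or_eq
  rw [h1]
  refine (Cardinal.mk_union_le _ _).trans ?_
  rw [h.blkc]
  exact Cardinal.add_le_of_le (h.creg i).aleph0_le ((h.low_card i).trans (h.p_lt_c i).le) le_rfl

/-- lexicographic order of positions -/
def Lt (l : K) (a : W) (l' : K) (a' : W) : Prop := l < l' ∨ (l = l' ∧ a < a')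

variable [WellFoundedLT K] [WellFoundedLT W]

theorem exists_A (h : CD p c s r blk) (G : W × W → W × W → Prop) :
    ∃ A : K → W → Set W, (∀ l a, #(A l a) = s l) ∧
      ∀ l a l' a', Lt l a l' a' → blk a ≤ l → ∀ b ∈ A l a,
        (∀ b' ∈ A l' a', G (a, b) (a', b')) ∨ (∀ b' ∈ A l' a', ¬ G (a, b) (a', b')) := by
  classical
  haveI : Inhabited (Set W) := ⟨∅⟩
  let E : (K ×ₗ W) → (K ×ₗ W → Set W) → Set (W × W) := fun q D =>
    {x | ∃ q', q' < q ∧ blk (ofLex q').2 ≤ (ofLex q').1 ∧ x.1 = (ofLex q').2 ∧ x.2 ∈ D q'}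
  obtain ⟨A, hA⟩ := exists_rec (I := K ×ₗ W) (X := Set W)
    (fun q D B => (∀ q', q' < q → #(D q') = s (ofLex q').1) → #B = s (ofLex q).1 ∧
      ∀ x ∈ E q D, (∀ b ∈ B, G x ((ofLex q).2, b)) ∨ (∀ b ∈ B, ¬ G x ((ofLex q).2, b)))
    (by
      intro q D D' B hDD hB hD'
      obtain ⟨h1, h2⟩ := hB (fun q' hq' => by rw [hDD q' hq']; exact hD' q' hq')
      refine ⟨h1, fun x hx => h2 x ?_⟩
      obtain ⟨q', hq', h3, h4, h5⟩ := hx
      exact ⟨q', hq', h3, h4, by rw [hDD q' hq']; exact h5⟩)
    (by
      intro q D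
      by_cases hD : ∀ q', q' < q → #(D q') = s (ofLex q').1
      · -- the number of earlier points
        have hmono : ∀ l l' : K, l ≤ l' → s l ≤ s l' := by
          intro l l' hl
          rcases hl.lt_or_eq with hlt | heq
          · exact (((h.s_lt_r l).le.trans (h.rp l l' hlt)).trans (h.p_lt_c l').le).trans (h.c_lt_s l').le
          · rw [heq]
        have hE : #(E q D) ≤ s (ofLex q).1 := by
          have hsub : E q D ⊆ ⋃ t : K × {a | blk a ≤ (ofLex q).1},
              (if toLex (t.1, t.2.1) < q then (fun b => (t.2.1, b)) '' D (toLex (t.1, t.2.1)) else ∅) := by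
            rintro ⟨x1, x2⟩ ⟨q', hq', h3, h4, h5⟩
            have hle : (ofLex q').1 ≤ (ofLex q).1 := by
              have := Prod.Lex.toLex_lt_toLex.mp (show toLex (ofLex q') < toLex (ofLex q) from hq')
              rcases this with h | ⟨h, -⟩
              · exact h.le
              · exact h.le
            refine Set.mem_iUnion.mpr ⟨((ofLex q').1, ⟨(ofLex q').2, h3.trans hle⟩), ?_⟩
            have e : (toLex ((ofLex q').1, (ofLex q').2) : K ×ₗ W) = q' := rfl
            rw [e, if_pos hq']
            refine ⟨x2, h5, ?_⟩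
            exact Prod.ext h4.symm rfl
          refine (Cardinal.mk_le_mk_of_subset hsub).trans ?_
          refine iUnion_le (h.sreg _).aleph0_le ?_ _ (fun t => ?_)
          · rw [Cardinal.mk_prod, Cardinal.lift_id, Cardinal.lift_id]
            refine Cardinal.mul_le_of_le (h.sreg _).aleph0_le ?_ ?_
            · exact (h.pK _).trans ((h.p_lt_c _).trans (h.c_lt_s _)).le
            · exact (h.act_card _).trans (h.c_lt_s _).le
          · split_ifs with ht
            · refine Cardinal.mk_image_le.trans ?_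
              rw [hD _ ht]
              have := Prod.Lex.toLex_lt_toLex.mp (show toLex (t.1, t.2.1) < toLex (ofLex q) from ht)
              apply hmono
              rcases this with h | ⟨h, -⟩
              · exact h.le
              · exact h.le
            · rw [Cardinal.mk_eq_zero]
              exact bot_le
        obtain ⟨z, hz⟩ := ph (h.rreg (ofLex q).1) (Set.univ : Set W)
          (by rw [Cardinal.mk_univ]; exact h.rW _)
          (fun b => ({x | G x.1 ((ofLex q).2, b)} : Set (E q D)))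
          (by
            rw [Cardinal.mk_set]
            exact (Cardinal.power_le_power_left two_ne_zero hE).trans_lt (h.sr _))
        obtain ⟨B, hB1, hB2⟩ := Cardinal.le_mk_iff_exists_subset.mp ((h.s_lt_r _).le.trans hz)
        refine ⟨B, fun _ => ⟨hB2, fun x hx => ?_⟩⟩
        by_cases hxz : (⟨x, hx⟩ : E q D) ∈ z
        · left
          intro b hb
          have := (hB1 hb).2
          rw [← this] at hxz
          exact hxz
        · right
          intro b hb hG
          apply hxz
          rw [← (hB1 hb).2]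
          exact hG
      · exact ⟨∅, fun h' => absurd h' hD⟩)
  have hcard : ∀ q, #(A q) = s (ofLex q).1 := by
    intro q
    induction q using WellFoundedLT.induction with
    | ind q ih => exact (hA q ih).1
  refine ⟨fun l a => A (toLex (l, a)), fun l a => hcard _, ?_⟩
  intro l a l' a' hlt hact b hb
  have hq : (toLex (l, a) : K ×ₗ W) < toLex (l', a') := by
    rw [Prod.Lex.toLex_lt_toLex]
    rcases hlt with h1 | ⟨h1, h2⟩
    · exact Or.inl h1
    · exact Or.inr ⟨h1, h2⟩
  exact (hA (toLex (l', a')) (fun q' _ => hcard q')).2 (a, b) ⟨toLex (l, a), hq, hact, rfl, hb⟩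

end

end Pool.Agent.Helper397.E6
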