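import Pool.Agent.Helper397.E6

set_option autoImplicit false

namespace Pool.Agent.Helper397.E7

open Cardinal
open Pool.Agent.Helper397.E1 Pool.Agent.Helper397.E2 Pool.Agent.Helper397.E4
open Pool.Agent.Helper397.E5 Pool.Agent.Helper397.E6

universe u

theorem two_power_mul_lt {m n k : Cardinal.{u}} (hm : ℵ₀ ≤ m) (h1 : n ≤ m) (h2 : k ≤ m) :
    (2 : Cardinal.{u}) ^ (n * k) ≤ 2 ^ m :=
  Cardinal.power_le_power_left two_ne_zero (Cardinal.mul_le_of_le hm h1 h2)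

theorem two_power_mul_self {m : Cardinal.{u}} (hm : ℵ₀ ≤ m) :
    (2 : Cardinal.{u}) ^ m * 2 ^ m = 2 ^ m :=
  Cardinal.mul_eq_self (hm.trans (Cardinal.cantor m).le)

theorem nonempty_of_card {α : Type u} {S : Set α} {m : Cardinal.{u}} (hm : m.IsRegular)
    (hS : m ≤ #S) : S.Nonempty := by
  rw [Set.nonempty_iff_ne_empty]
  rintro rfl
  rw [Cardinal.mk_eq_zero] at hS
  exact absurd hS (not_le.mpr hm.pos)

section

variable {K W : Type u} [LinearOrder K] [LinearOrder W] [WellFoundedLT K] [WellFoundedLT W]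
  {p c s r : K → Cardinal.{u}} {blk : W → K}

theorem exists_R (h : CD p c s r blk) (G : W × W → W × W → Prop)
    (hsymm : ∀ x y, G x y → G y x) (htri : ∀ x y z, G x y → G y z → G x z → False) :
    ∃ (U : K → Set W) (B : K → W → Set W) (R : K → W → K → W → Prop),
      (∀ i, ∀ a ∈ U i, blk a = i) ∧ (∀ i, c i ≤ #(U i)) ∧ (∀ l a, s l ≤ #(B l a)) ∧
      (∀ l a, ∀ b ∈ B l a, ∀ b' ∈ B l a, ¬ G (a, b) (a, b')) ∧
      (∀ l a l' a', Lt l a l' a' → blk a ≤ l → a' ∈ U (blk a') → ∀ b ∈ B l a, ∀ b' ∈ B l' a',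
        (G (a, b) (a', b') ↔ R l a l' a')) := by
  classical
  obtain ⟨A, hA1, hA2⟩ := exists_A h G
  let P : K → W → W × W → Prop := fun l' a' x => ∀ b' ∈ A l' a', G x (a', b')
  -- step 2
  let Low : K → Set (W × W) := fun i => {x | ∃ l', l' < i ∧ blk x.1 ≤ l' ∧ x.2 ∈ A l' x.1}
  have hLow : ∀ i, #(Low i) ≤ p i := by
    intro i
    have hsub : Low i ⊆ ⋃ t : (Set.Iio i) × {a | blk a < i},
        (fun b => (t.2.1, b)) '' A t.1.1 t.2.1 := by
      rintro ⟨x1, x2⟩ ⟨l', h1, h2, h3⟩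
      exact Set.mem_iUnion.mpr ⟨(⟨l', h1⟩, ⟨x1, lt_of_le_of_lt h2 h1⟩), x2, h3, rfl⟩
    refine (Cardinal.mk_le_mk_of_subset hsub).trans ?_
    refine iUnion_le (h.p0 i) ?_ _ (fun t => ?_)
    · rw [Cardinal.mk_prod, Cardinal.lift_id, Cardinal.lift_id]
      exact Cardinal.mul_le_of_le (h.p0 i) ((Cardinal.mk_set_le _).trans (h.pK i)) (h.low_card i)
    · refine Cardinal.mk_image_le.trans ?_
      rw [hA1]
      exact (h.s_lt_r _).le.trans (h.rp _ _ t.1.2)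
  have hU1 : ∀ i, ∃ U : Set W, (∀ a ∈ U, blk a = i) ∧ c i ≤ #U ∧
      ∀ a ∈ U, ∀ a' ∈ U, ∀ x ∈ Low i, ∀ j, (P j a x ↔ P j a' x) := by
    intro i
    obtain ⟨z, hz⟩ := ph (h.creg i) {a | blk a = i} (h.blkc i).ge
      (fun a => ({t | P t.2 a t.1.1} : Set (Low i × K)))
      (by
        rw [Cardinal.mk_set, Cardinal.mk_prod, Cardinal.lift_id, Cardinal.lift_id]
        exact (two_power_mul_lt (h.p0 i) (hLow i) (h.pK i)).trans_lt (h.pc' i))
    refine ⟨_, fun a ha => ha.1, hz, fun a ha a' ha' x hx j => ?_⟩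
    have h1 := ha.2.trans ha'.2.symm
    have h2 : ((⟨x, hx⟩, j) : Low i × K) ∈ ({t | P t.2 a t.1.1} : Set (Low i × K)) ↔
        ((⟨x, hx⟩, j) : Low i × K) ∈ ({t | P t.2 a' t.1.1} : Set (Low i × K)) := by rw [h1]
    exact h2
  choose U hUb hUc hUP using hU1
  choose rep hrep using fun i => nonempty_of_card (h.creg i) (hUc i)
  -- step 3
  have hB : ∀ l a, ∃ B : Set W, B ⊆ A l a ∧ s l ≤ #B ∧
      (∀ b ∈ B, ∀ b' ∈ B, ¬ G (a, b) (a, b')) ∧
      (∀ b ∈ B, ∀ b' ∈ B, ∀ a', blk a' ≤ l → ∀ j, (P j a' (a, b) ↔ P j a' (a, b'))) ∧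
      (∀ b ∈ B, ∀ b' ∈ B, ∀ i' j, (P j (rep i') (a, b) ↔ P j (rep i') (a, b'))) := by
    intro l a
    obtain ⟨z, hz⟩ := ph (h.sreg l) (A l a) (hA1 l a).ge
      (fun b => (({t | P t.2 t.1.1 (a, b)} : Set ({a' | blk a' ≤ l} × K)),
        ({t | P t.2 (rep t.1) (a, b)} : Set (K × K))))
      (by
        simp only [Cardinal.mk_prod, Cardinal.lift_id, Cardinal.mk_set]
        have hKc : #K ≤ c l := (h.pK l).trans (h.p_lt_c l).le
        refine (mul_le_mul' (two_power_mul_lt (h.creg l).aleph0_le (h.act_card l) hKc)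
          (two_power_mul_lt (h.creg l).aleph0_le hKc hKc)).trans_lt ?_
        rw [two_power_mul_self (h.creg l).aleph0_le]
        exact h.cs l)
    obtain ⟨B, hB1, hB2, hB3⟩ := indep (h.sreg l) _ hz (fun b b' => G (a, b) (a, b'))
      (fun x y => hsymm _ _) (fun x y z => htri _ _ _)
    refine ⟨B, fun b hb => (hB1 hb).1, hB2, hB3, fun b hb b' hb' a' ha' j => ?_,
      fun b hb b' hb' i' j => ?_⟩
    · have h1 := congrArg Prod.fst ((hB1 hb).2.trans (hB1 hb').2.symm)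
      have h2 : ((⟨a', ha'⟩, j) : {a' | blk a' ≤ l} × K) ∈
          ({t | P t.2 t.1.1 (a, b)} : Set ({a' | blk a' ≤ l} × K)) ↔
          ((⟨a', ha'⟩, j) : {a' | blk a' ≤ l} × K) ∈
          ({t | P t.2 t.1.1 (a, b')} : Set ({a' | blk a' ≤ l} × K)) := by
        change _ ∈ _ ↔ _ ∈ _
        rw [show ({t | P t.2 t.1.1 (a, b)} : Set ({a' | blk a' ≤ l} × K)) =
          ({t | P t.2 t.1.1 (a, b')} : Set ({a' | blk a' ≤ l} × K)) from h1]
      exact h2
    · have h1 := congrArg Prod.snd ((hB1 hb).2.trans (hB1 hb').2.symm)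
      have h2 : ((i', j) : K × K) ∈ ({t | P t.2 (rep t.1) (a, b)} : Set (K × K)) ↔
          ((i', j) : K × K) ∈ ({t | P t.2 (rep t.1) (a, b')} : Set (K × K)) := by
        rw [show ({t | P t.2 (rep t.1) (a, b)} : Set (K × K)) =
          ({t | P t.2 (rep t.1) (a, b')} : Set (K × K)) from h1]
      exact h2
  choose B hB1 hB2 hB3 hB4 hB5 using hB
  refine ⟨U, B, fun l a l' a' => ∃ b ∈ B l a, P l' a' (a, b), hUb, hUc, hB2, hB3, ?_⟩
  intro l a l' a' hlt hact ha' b hb b' hb'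
  -- `P` is constant on `B l a`
  have hconst : ∀ b1 ∈ B l a, ∀ b2 ∈ B l a, (P l' a' (a, b1) ↔ P l' a' (a, b2)) := by
    intro b1 hb1 b2 hb2
    by_cases hcase : blk a' ≤ l
    · exact hB4 l a b1 hb1 b2 hb2 a' hcase l'
    · have hlow : ∀ b ∈ B l a, (a, b) ∈ Low (blk a') := fun b hb =>
        ⟨l, not_le.mp hcase, hact, hB1 l a hb⟩
      rw [hUP (blk a') a' ha' (rep (blk a')) (hrep _) _ (hlow b1 hb1) l',
        hUP (blk a') a' ha' (rep (blk a')) (hrep _) _ (hlow b2 hb2) l']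
      exact hB5 l a b1 hb1 b2 hb2 (blk a') l'
  have htr := hA2 l a l' a' hlt hact b (hB1 l a hb)
  constructor
  · intro hG
    refine ⟨b, hb, ?_⟩
    rcases htr with h1 | h1
    · exact h1
    · exact absurd hG (h1 b' (hB1 l' a' hb'))
  · rintro ⟨b0, hb0, hP⟩
    exact (hconst b0 hb0 b hb).mp hP b' (hB1 l' a' hb')

theorem exists_T (h : CD p c s r blk) (U : K → Set W) (R : K → W → K → W → Prop)
    (hUb : ∀ i, ∀ a ∈ U i, blk a = i) (hUc : ∀ i, c i ≤ #(U i)) :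
    ∃ (U' : K → Set W) (T1 : K → K → K → K → Prop) (T2 T3 T4 : K → K → K → Prop)
      (T5 : K → K → Prop), (∀ i, U' i ⊆ U i) ∧ (∀ i, Order.succ (p i) ≤ #(U' i)) ∧
      (∀ i i' l l', i ≠ i' → ∀ a ∈ U' i, ∀ a' ∈ U' i', (R l a l' a' ↔ T1 i l i' l')) ∧
      (∀ i l l', ∀ a ∈ U' i, (R l a l' a ↔ T2 i l l')) ∧
      (∀ i l l', ∀ a ∈ U' i, ∀ a' ∈ U' i, a < a' → (R l a l' a' ↔ T3 i l l')) ∧
      (∀ i l l', ∀ a ∈ U' i, ∀ a' ∈ U' i, a < a' → (R l a' l' a ↔ T4 i l l')) ∧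
      (∀ i l, ∀ a ∈ U' i, ∀ a' ∈ U' i, a < a' → (R l a l a' ↔ T5 i l)) := by
  classical
  -- step 5 : lower profile
  have hU2 : ∀ i, ∃ V : Set W, V ⊆ U i ∧ c i ≤ #V ∧ ∀ a ∈ V, ∀ a' ∈ V, ∀ a0, blk a0 < i →
      ∀ l l', (R l a0 l' a ↔ R l a0 l' a') ∧ (R l a l' a0 ↔ R l a' l' a0) := by
    intro i
    obtain ⟨z, hz⟩ := ph (h.creg i) (U i) (hUc i)
      (fun a => (({t | R t.2.1 t.1.1 t.2.2 a} : Set ({a0 | blk a0 < i} × (K × K))),
        ({t | R t.2.1 a t.2.2 t.1.1} : Set ({a0 | blk a0 < i} × (K × K)))))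
      (by
        simp only [Cardinal.mk_prod, Cardinal.lift_id, Cardinal.mk_set]
        have h1 : #K * #K ≤ p i := Cardinal.mul_le_of_le (h.p0 i) (h.pK i) (h.pK i)
        refine (mul_le_mul' (two_power_mul_lt (h.p0 i) (h.low_card i) h1)
          (two_power_mul_lt (h.p0 i) (h.low_card i) h1)).trans_lt ?_
        rw [two_power_mul_self (h.p0 i)]
        exact h.pc' i)
    refine ⟨_, fun a ha => ha.1, hz, fun a ha a' ha' a0 ha0 l l' => ?_⟩
    have h1 := ha.2.trans ha'.2.symm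
    constructor
    · have h2 : ({t | R t.2.1 t.1.1 t.2.2 a} : Set ({a0 | blk a0 < i} × (K × K))) =
        ({t | R t.2.1 t.1.1 t.2.2 a'} : Set ({a0 | blk a0 < i} × (K × K))) := congrArg Prod.fst h1
      have h3 : ((⟨a0, ha0⟩, (l, l')) : {a0 | blk a0 < i} × (K × K)) ∈
          ({t | R t.2.1 t.1.1 t.2.2 a} : Set ({a0 | blk a0 < i} × (K × K))) ↔
          ((⟨a0, ha0⟩, (l, l')) : {a0 | blk a0 < i} × (K × K)) ∈
          ({t | R t.2.1 t.1.1 t.2.2 a'} : Set ({a0 | blk a0 < i} × (K × K))) := by rw [h2]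
      exact h3
    · have h2 : ({t | R t.2.1 a t.2.2 t.1.1} : Set ({a0 | blk a0 < i} × (K × K))) =
        ({t | R t.2.1 a' t.2.2 t.1.1} : Set ({a0 | blk a0 < i} × (K × K))) := congrArg Prod.snd h1
      have h3 : ((⟨a0, ha0⟩, (l, l')) : {a0 | blk a0 < i} × (K × K)) ∈
          ({t | R t.2.1 a t.2.2 t.1.1} : Set ({a0 | blk a0 < i} × (K × K))) ↔
          ((⟨a0, ha0⟩, (l, l')) : {a0 | blk a0 < i} × (K × K)) ∈
          ({t | R t.2.1 a' t.2.2 t.1.1} : Set ({a0 | blk a0 < i} × (K × K))) := by rw [h2]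
      exact h3
  choose V hVU hVc hVP using hU2
  choose rep hrep using fun i => nonempty_of_card (h.creg i) (hVc i)
  -- step 6 : upper profile and own profile
  have hU3 : ∀ i, ∃ V' : Set W, V' ⊆ V i ∧ c i ≤ #V' ∧ ∀ a ∈ V', ∀ a' ∈ V',
      (∀ i' l l', (R l a l' (rep i') ↔ R l a' l' (rep i')) ∧
        (R l (rep i') l' a ↔ R l (rep i') l' a')) ∧ ∀ l l', (R l a l' a ↔ R l a' l' a') := by
    intro i
    obtain ⟨z, hz⟩ := ph (h.creg i) (V i) (hVc i)
      (fun a => (({t | R t.2.1 a t.2.2 (rep t.1)} : Set (K × (K × K))),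
        ({t | R t.2.1 (rep t.1) t.2.2 a} : Set (K × (K × K))),
        ({t | R t.1 a t.2 a} : Set (K × K))))
      (by
        simp only [Cardinal.mk_prod, Cardinal.lift_id, Cardinal.mk_set]
        have h1 : #K * #K ≤ p i := Cardinal.mul_le_of_le (h.p0 i) (h.pK i) (h.pK i)
        refine (mul_le_mul' (two_power_mul_lt (h.p0 i) (h.pK i) h1)
          (mul_le_mul' (two_power_mul_lt (h.p0 i) (h.pK i) h1)
            (two_power_mul_lt (h.p0 i) (h.pK i) (h.pK i)))).trans_lt ?_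
        rw [two_power_mul_self (h.p0 i), two_power_mul_self (h.p0 i)]
        exact h.pc' i)
    refine ⟨_, fun a ha => ha.1, hz, fun a ha a' ha' => ⟨fun i' l l' => ⟨?_, ?_⟩, fun l l' => ?_⟩⟩
    · have h2 : ({t | R t.2.1 a t.2.2 (rep t.1)} : Set (K × (K × K))) =
        ({t | R t.2.1 a' t.2.2 (rep t.1)} : Set (K × (K × K))) :=
        congrArg Prod.fst (ha.2.trans ha'.2.symm)
      have h3 : ((i', (l, l')) : K × (K × K)) ∈ ({t | R t.2.1 a t.2.2 (rep t.1)} : Set (K × (K × K))) ↔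
        ((i', (l, l')) : K × (K × K)) ∈ ({t | R t.2.1 a' t.2.2 (rep t.1)} : Set (K × (K × K))) := by
        rw [h2]
      exact h3
    · have h2 : ({t | R t.2.1 (rep t.1) t.2.2 a} : Set (K × (K × K))) =
        ({t | R t.2.1 (rep t.1) t.2.2 a'} : Set (K × (K × K))) :=
        congrArg (fun x => x.2.1) (ha.2.trans ha'.2.symm)
      have h3 : ((i', (l, l')) : K × (K × K)) ∈ ({t | R t.2.1 (rep t.1) t.2.2 a} : Set (K × (K × K))) ↔
        ((i', (l, l')) : K × (K × K)) ∈ ({t | R t.2.1 (rep t.1) t.2.2 a'} : Set (K × (K × K))) := by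
        rw [h2]
      exact h3
    · have h2 : ({t | R t.1 a t.2 a} : Set (K × K)) = ({t | R t.1 a' t.2 a'} : Set (K × K)) :=
        congrArg (fun x => x.2.2) (ha.2.trans ha'.2.symm)
      have h3 : ((l, l') : K × K) ∈ ({t | R t.1 a t.2 a} : Set (K × K)) ↔
        ((l, l') : K × K) ∈ ({t | R t.1 a' t.2 a'} : Set (K × K)) := by rw [h2]
      exact h3
  choose V' hV'V hV'c hV'P using hU3
  -- step 7 : pairs in a block
  have hU4 : ∀ i, ∃ V'' : Set W, V'' ⊆ V' i ∧ Order.succ (p i) ≤ #V'' ∧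
      ∃ z : Set (K × K) × Set (K × K), ∀ a ∈ V'', ∀ a' ∈ V'', a < a' → ∀ l l',
        (R l a l' a' ↔ (l, l') ∈ z.1) ∧ (R l a' l' a ↔ (l, l') ∈ z.2) := by
    intro i
    have hp2 : ℵ₀ ≤ (2 : Cardinal.{u}) ^ p i := (h.p0 i).trans (h.p_lt i).le
    obtain ⟨H, hH1, z, hz⟩ := erdos_rado (U := V' i) hp2
      ((h.pc i).trans_le (hV'c i))
      (Z := Set (K × K) × Set (K × K))
      (by
        simp only [Cardinal.mk_prod, Cardinal.lift_id, Cardinal.mk_set]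
        refine (mul_le_mul' (two_power_mul_lt (h.p0 i) (h.pK i) (h.pK i))
          (two_power_mul_lt (h.p0 i) (h.pK i) (h.pK i))).trans ?_
        rw [two_power_mul_self (h.p0 i)])
      (fun a a' => (({t | R t.1 a.1 t.2 a'.1} : Set (K × K)), ({t | R t.1 a'.1 t.2 a.1} : Set (K × K))))
    refine ⟨Subtype.val '' H, ?_, ?_, z, ?_⟩
    · rintro _ ⟨a, -, rfl⟩
      exact a.2
    · rw [Cardinal.mk_image_eq Subtype.val_injective]
      exact (Order.succ_le_succ (h.p_lt i).le).trans hH1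
    · rintro _ ⟨a, ha, rfl⟩ _ ⟨a', ha', rfl⟩ hlt l l'
      have h1 := hz a ha a' ha' hlt
      rw [← h1]
      exact ⟨Iff.rfl, Iff.rfl⟩
  choose V'' hV''V hV''c z hz using hU4
  have hne : ∀ i, (V'' i).Nonempty := by
    intro i
    rw [Set.nonempty_iff_ne_empty]
    intro he
    have h1 := hV''c i
    rw [he, Cardinal.mk_eq_zero] at h1
    exact absurd ((Order.lt_succ (p i)).trans_le h1) (not_lt.mpr bot_le)
  choose ρ hρ using hne
  have hblkV : ∀ i, ∀ a ∈ V i, blk a = i := fun i a ha => hUb i a (hVU i ha)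
  refine ⟨V'', fun i l i' l' => R l (ρ i) l' (ρ i'), fun i l l' => R l (ρ i) l' (ρ i),
    fun i l l' => (l, l') ∈ (z i).1, fun i l l' => (l, l') ∈ (z i).2,
    fun i l => (l, l) ∈ (z i).1, fun i => ((hV''V i).trans (hV'V i)).trans (hVU i), hV''c,
    ?_, ?_, ?_, ?_, ?_⟩
  · intro i i' l l' hii a ha a' ha'
    have ha1 := hV''V i ha
    have ha1' := hV''V i' ha'
    have hρ1 := hV''V i (hρ i)
    have hρ1' := hV''V i' (hρ i')
    have ha2 := hV'V i ha1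
    have ha2' := hV'V i' ha1'
    have hρ2 := hV'V i hρ1
    have hρ2' := hV'V i' hρ1'
    rcases lt_or_gt_of_ne hii with hlt | hlt
    · -- i < i'
      have hb : ∀ x ∈ V i, blk x < i' := fun x hx => by rw [hblkV i x hx]; exact hlt
      rw [(hVP i' a' ha2' (rep i') (hrep i') a (hb a ha2) l l').1,
        ((hV'P i a ha1 (ρ i) hρ1).1 i' l l').1,
        ← (hVP i' (ρ i') hρ2' (rep i') (hrep i') (ρ i) (hb _ hρ2) l l').1]
    · have hb : ∀ x ∈ V i', blk x < i := fun x hx => by rw [hblkV i' x hx]; exact hlt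
      rw [(hVP i a ha2 (rep i) (hrep i) a' (hb a' ha2') l l').2,
        ((hV'P i' a' ha1' (ρ i') hρ1').1 i l l').2,
        ← (hVP i (ρ i) hρ2 (rep i) (hrep i) (ρ i') (hb _ hρ2') l l').2]
  · intro i l l' a ha
    exact (hV'P i a (hV''V i ha) (ρ i) (hV''V i (hρ i))).2 l l'
  · intro i l l' a ha a' ha' hlt
    exact (hz i a ha a' ha' hlt l l').1
  · intro i l l' a ha a' ha' hlt
    exact (hz i a ha a' ha' hlt l l').2
  · intro i l a ha a' ha' hlt
    exact (hz i a ha a' ha' hlt l l).1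

end

end Pool.Agent.Helper397.E7
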