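import Pool.Agent.Helper397.E7

set_option autoImplicit false

namespace Pool.Agent.Helper397.E8

open Cardinal
open Pool.Agent.Helper397.E1 Pool.Agent.Helper397.E2 Pool.Agent.Helper397.E3
open Pool.Agent.Helper397.E4 Pool.Agent.Helper397.E5 Pool.Agent.Helper397.E6
open Pool.Agent.Helper397.E7

universe u

/-- `c`, `s`, `r` as functions of `p`. -/
noncomputable def fc (p : Cardinal.{u}) : Cardinal.{u} := Order.succ ((2 : Cardinal.{u}) ^ ((2 : Cardinal.{u}) ^ p))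
noncomputable def fs (p : Cardinal.{u}) : Cardinal.{u} := Order.succ ((2 : Cardinal.{u}) ^ fc p)
noncomputable def fr (p : Cardinal.{u}) : Cardinal.{u} := Order.succ ((2 : Cardinal.{u}) ^ fs p)

theorem le_fc (p : Cardinal.{u}) : p < fc p :=
  ((Cardinal.cantor p).trans (Cardinal.cantor _)).trans (Order.lt_succ _)
theorem le_fs (p : Cardinal.{u}) : fc p < fs p := (Cardinal.cantor _).trans (Order.lt_succ _)
theorem le_fr (p : Cardinal.{u}) : fs p < fr p := (Cardinal.cantor _).trans (Order.lt_succ _)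

theorem fr_lt {l : Cardinal.{u}} (hsl : ∀ x, x < l → (2 : Cardinal.{u}) ^ x < l) {p : Cardinal.{u}}
    (hp : p < l) : fr p < l := by
  have hsucc : ∀ x, x < l → Order.succ x < l := fun x hx =>
    (Order.succ_le_of_lt (Cardinal.cantor x)).trans_lt (hsl x hx)
  exact hsucc _ (hsl _ (hsucc _ (hsl _ (hsucc _ (hsl _ (hsl _ hp))))))

theorem exists_CD {l : Cardinal.{u}} (hl : ℵ₀ ≤ l) (hsl : ∀ x, x < l → (2 : Cardinal.{u}) ^ x < l)
    (hcof : l.ord.cof < l) :
    ∃ (p c s r : l.ord.cof.ord.ToType → Cardinal.{u}) (blk : l.ord.ToType → l.ord.cof.ord.ToType),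
      CD p c s r blk ∧ ∀ ν, ν < l → ∃ i, ν ≤ p i := by
  classical
  have hlim : Order.IsSuccLimit l.ord := Cardinal.isSuccLimit_ord hl
  have hreg : (l.ord.cof).IsRegular := Cardinal.isRegular_cof hlim
  -- cofinal sequence
  obtain ⟨S, hS, hSc⟩ := Order.exists_cof_eq (α := l.ord.ToType)
  rw [Ordinal.cof_toType] at hSc
  have hSI : #(l.ord.cof.ord.ToType) = #S := by rw [hSc, Cardinal.mk_ord_toType]
  obtain ⟨eq⟩ := Cardinal.eq.mp hSI
  let q : l.ord.cof.ord.ToType → Cardinal.{u} := fun i =>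
    ((Ordinal.ToType.mk.symm (eq i).1 : Set.Iio l.ord) : Ordinal.{u}).card
  have hq : ∀ i, q i < l := fun i =>
    Cardinal.lt_ord.mp (Ordinal.ToType.mk.symm (eq i).1 : Set.Iio l.ord).2
  have hqcof : ∀ ν, ν < l → ∃ i, ν ≤ q i := by
    intro ν hν
    obtain ⟨b, hb, hab⟩ := hS (Ordinal.ToType.mk ⟨ν.ord, Cardinal.ord_lt_ord.mpr hν⟩)
    refine ⟨eq.symm ⟨b, hb⟩, ?_⟩
    simp only [q, Equiv.apply_symm_apply]
    have h1 := (Ordinal.ToType.mk (o := l.ord)).symm.monotone hab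
    rw [OrderIso.symm_apply_apply] at h1
    have h2 : ν.ord ≤ ((Ordinal.ToType.mk.symm b : Set.Iio l.ord) : Ordinal.{u}) := h1
    have h3 := Ordinal.card_le_card h2
    rwa [Cardinal.card_ord] at h3
  obtain ⟨p, hp⟩ := exists_rec (I := l.ord.cof.ord.ToType) (X := Cardinal.{u})
    (fun i D x => (∀ j, j < i → D j < l) → x < l ∧ l.ord.cof ≤ x ∧ q i ≤ x ∧ ∀ j, j < i → fr (D j) ≤ x)
    (by
      intro i D D' x h hx hD'
      obtain ⟨h1, h2, h3, h4⟩ := hx (fun j hj => by rw [h j hj]; exact hD' j hj)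
      refine ⟨h1, h2, h3, fun j hj => ?_⟩
      rw [← h j hj]
      exact h4 j hj)
    (by
      intro i D
      by_cases hD : ∀ j, j < i → D j < l
      · have hi : #(Set.Iio i) < l.ord.cof := by
          have := Cardinal.mk_Iio_lt i (by simp)
          rwa [Cardinal.mk_ord_toType] at this
        have hsup : (⨆ j : Set.Iio i, fr (D j.1)) < l :=
          Cardinal.iSup_lt_of_lt_cof_ord hi (fun j => fr_lt hsl (hD j.1 j.2))
        refine ⟨max (max l.ord.cof (q i)) (⨆ j : Set.Iio i, fr (D j.1)), fun _ => ⟨?_, ?_, ?_, ?_⟩⟩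
        · exact max_lt (max_lt hcof (hq i)) hsup
        · exact (le_max_left _ _).trans (le_max_left _ _)
        · exact (le_max_right _ _).trans (le_max_left _ _)
        · intro j hj
          refine le_trans ?_ (le_max_right _ _)
          exact le_ciSup (Cardinal.bddAbove_range (fun j : Set.Iio i => fr (D j.1))) ⟨j, hj⟩
      · exact ⟨0, fun h => absurd h hD⟩)
  have hpl : ∀ i, p i < l := by
    intro i
    induction i using WellFoundedLT.induction with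
    | ind i ih => exact (hp i ih).1
  have hp' := fun i => hp i (fun j _ => hpl j)
  -- blocks
  have hcl : ∀ i, fc (p i) < l := fun i => ((le_fs _).trans (le_fr _)).trans (fr_lt hsl (hpl i))
  have hsum : Cardinal.sum (fun i : l.ord.cof.ord.ToType => fc (p i)) = l := by
    apply le_antisymm
    · refine (Cardinal.sum_le_sum _ (fun _ => l) (fun i => (hcl i).le)).trans ?_
      rw [Cardinal.sum_const', Cardinal.mk_ord_toType]
      exact (mul_le_mul' hcof.le le_rfl).trans (Cardinal.mul_eq_self hl).le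
    · by_contra hcon
      obtain ⟨i, hi⟩ := hqcof _ (not_le.mp hcon)
      have h1 := hi.trans ((hp' i).2.2.1)
      have h2 : fc (p i) ≤ Cardinal.sum (fun i : l.ord.cof.ord.ToType => fc (p i)) :=
        Cardinal.le_sum _ i
      exact absurd (h2.trans h1) (not_le.mpr (le_fc (p i)))
  have hW : #(l.ord.ToType) = #(Σ i : l.ord.cof.ord.ToType, (fc (p i)).ord.ToType) := by
    rw [Cardinal.mk_ord_toType, Cardinal.mk_sigma]
    simp only [Cardinal.mk_ord_toType]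
    exact hsum.symm
  obtain ⟨e⟩ := Cardinal.eq.mp hW
  refine ⟨p, fun i => fc (p i), fun i => fs (p i), fun i => fr (p i), fun w => (e w).1, ?_, ?_⟩
  · have hp0 : ∀ i, ℵ₀ ≤ p i := fun i => hreg.aleph0_le.trans (hp' i).2.1
    have h0fc : ∀ i, ℵ₀ ≤ fc (p i) := fun i => (hp0 i).trans (le_fc _).le
    have h0fs : ∀ i, ℵ₀ ≤ fs (p i) := fun i => (h0fc i).trans (le_fs _).le
    refine ⟨hp0, fun i => ?_, fun i => ?_, fun i => ?_, fun i => ?_, fun i => Order.lt_succ _,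
      fun i => Order.lt_succ _, fun i => Order.lt_succ _, fun j i hji => (hp' i).2.2.2 j hji,
      fun i => ?_, fun i => ?_⟩
    · rw [Cardinal.mk_ord_toType]
      exact (hp' i).2.1
    · exact Cardinal.isRegular_succ ((hp0 i).trans ((Cardinal.cantor _).trans (Cardinal.cantor _)).le)
    · exact Cardinal.isRegular_succ ((h0fc i).trans (Cardinal.cantor _).le)
    · exact Cardinal.isRegular_succ ((h0fs i).trans (Cardinal.cantor _).le)
    · rw [Cardinal.mk_ord_toType]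
      exact (fr_lt hsl (hpl i)).le
    · have e1 : {w | (e w).1 = i} ≃ (fc (p i)).ord.ToType :=
        (e.subtypeEquiv (fun w => Iff.rfl)).trans (Equiv.sigmaSubtype i)
      rw [Cardinal.mk_congr e1, Cardinal.mk_ord_toType]
  · intro ν hν
    obtain ⟨i, hi⟩ := hqcof ν hν
    exact ⟨i, hi.trans (hp' i).2.2.1⟩

theorem exists_three {W : Type u} [LinearOrder W] [WellFoundedLT W] {S : Set W}
    (hS : ℵ₀ ≤ #S) : ∃ a ∈ S, ∃ b ∈ S, ∃ c ∈ S, a < b ∧ b < c := by
  classical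
  have hinf : S.Infinite := by
    rw [← Set.infinite_coe_iff, ← Cardinal.aleph0_le_mk_iff]
    exact hS
  have h1 := hinf.nonempty
  let a := (wellFounded_lt (α := W)).min S h1
  have ha : a ∈ S := WellFounded.min_mem _ _ h1
  have hinf2 : (S \ {a}).Infinite := hinf.diff (Set.finite_singleton a)
  have h2 := hinf2.nonempty
  let b := (wellFounded_lt (α := W)).min (S \ {a}) h2
  have hb : b ∈ S \ {a} := WellFounded.min_mem _ _ h2
  have hinf3 : ((S \ {a}) \ {b}).Infinite := hinf2.diff (Set.finite_singleton b)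
  obtain ⟨c, hc⟩ := hinf3.nonempty
  have hab : a < b := lt_of_le_of_ne (not_lt.mp (WellFounded.not_lt_min (wellFounded_lt (α := W)) S hb.1))
    (fun h => hb.2 h.symm)
  have hbc : b < c := lt_of_le_of_ne
    (not_lt.mp (WellFounded.not_lt_min (wellFounded_lt (α := W)) (S \ {a}) hc.1))
    (fun h => hc.2 h.symm)
  exact ⟨a, ha, b, hb.1, c, hc.1.1, hab, hbc⟩

theorem pos_singular {l : Cardinal.{u}} (hl : ℵ₀ ≤ l)
    (hsl : ∀ x, x < l → (2 : Cardinal.{u}) ^ x < l) (hcof : l.ord.cof < l)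
    (hR : Ram4 l.ord.cof.ord.ToType)
    (G : l.ord.ToType × l.ord.ToType → l.ord.ToType × l.ord.ToType → Prop)
    (hsymm : ∀ x y, G x y → G y x) (htri : ∀ x y z, G x y → G y z → G x z → False) :
    ∃ (C : Set l.ord.ToType) (X : l.ord.ToType → Set l.ord.ToType), l ≤ #C ∧
      (∀ a ∈ C, l ≤ #(X a)) ∧
      ∀ a ∈ C, ∀ b ∈ X a, ∀ a' ∈ C, ∀ b' ∈ X a', ¬ G (a, b) (a', b') := by
  classical
  have hlim : Order.IsSuccLimit l.ord := Cardinal.isSuccLimit_ord hl
  have hreg : (l.ord.cof).IsRegular := Cardinal.isRegular_cof hlim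
  obtain ⟨p, c, s, r, blk, hCD, hpc⟩ := exists_CD hl hsl hcof
  obtain ⟨U, B, R, hU1, hU2, hB1, hB2, hR1⟩ := exists_R hCD G hsymm htri
  obtain ⟨U', T1, T2, T3, T4, T5, hV1, hV2, hT1, hT2, hT3, hT4, hT5⟩ := exists_T hCD U R hU1 hU2
  have hBne : ∀ l a, (B l a).Nonempty := fun l a => nonempty_of_card (hCD.sreg l) (hB1 l a)
  choose β hβ using hBne
  have hblk : ∀ i, ∀ a ∈ U' i, blk a = i := fun i a ha => hU1 i a (hV1 i ha)
  have hUmem : ∀ i, ∀ a ∈ U' i, a ∈ U (blk a) := fun i a ha => by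
    rw [hblk i a ha]
    exact hV1 i ha
  have hGR : ∀ i i' l l' a a', a ∈ U' i → a' ∈ U' i' → i ≤ l → Lt l a l' a' →
      ∀ b ∈ B l a, ∀ b' ∈ B l' a', (G (a, b) (a', b') ↔ R l a l' a') := by
    intro i i' l l' a a' ha ha' hil hlt b hb b' hb'
    exact hR1 l a l' a' hlt (by rw [hblk i a ha]; exact hil) (hUmem i' a' ha') b hb b' hb'
  have h3 : ∀ i, ∃ a ∈ U' i, ∃ b ∈ U' i, ∃ c ∈ U' i, a < b ∧ b < c := fun i =>
    exists_three ((hCD.p0 i).trans ((Order.le_succ _).trans (hV2 i)))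
  have hUne : ∀ i, ∃ a, a ∈ U' i := fun i => by
    obtain ⟨a, ha, -⟩ := h3 i
    exact ⟨a, ha⟩
  choose α hα using hUne
  obtain ⟨I, L, hI, hL, hL2, hL3, hT, hT'⟩ := index_lemma hreg hR T1 T2 T3 T4
    (by
      intro i1 i2 i3 l1 l2 l3 n12 n23 n13 l12 l23 h1 h2 h3' t12 t23 t13
      have e12 := (hGR i1 i2 l1 l2 (α i1) (α i2) (hα i1) (hα i2) h1.le (Or.inl l12)
        (β l1 (α i1)) (hβ _ _) (β l2 (α i2)) (hβ _ _)).mpr
        ((hT1 i1 i2 l1 l2 n12 _ (hα i1) _ (hα i2)).mpr t12)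
      have e23 := (hGR i2 i3 l2 l3 (α i2) (α i3) (hα i2) (hα i3) h2.le (Or.inl l23)
        (β l2 (α i2)) (hβ _ _) (β l3 (α i3)) (hβ _ _)).mpr
        ((hT1 i2 i3 l2 l3 n23 _ (hα i2) _ (hα i3)).mpr t23)
      have e13 := (hGR i1 i3 l1 l3 (α i1) (α i3) (hα i1) (hα i3) h1.le (Or.inl (l12.trans l23))
        (β l1 (α i1)) (hβ _ _) (β l3 (α i3)) (hβ _ _)).mpr
        ((hT1 i1 i3 l1 l3 n13 _ (hα i1) _ (hα i3)).mpr t13)
      exact htri _ _ _ e12 e23 e13)
    (by
      intro i l1 l2 l3 h1 l12 l23 t12 t23 t13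
      have e12 := (hGR i i l1 l2 (α i) (α i) (hα i) (hα i) h1.le (Or.inl l12)
        (β l1 (α i)) (hβ _ _) (β l2 (α i)) (hβ _ _)).mpr ((hT2 i l1 l2 _ (hα i)).mpr t12)
      have e23 := (hGR i i l2 l3 (α i) (α i) (hα i) (hα i) (h1.trans l12).le (Or.inl l23)
        (β l2 (α i)) (hβ _ _) (β l3 (α i)) (hβ _ _)).mpr ((hT2 i l2 l3 _ (hα i)).mpr t23)
      have e13 := (hGR i i l1 l3 (α i) (α i) (hα i) (hα i) h1.le (Or.inl (l12.trans l23))
        (β l1 (α i)) (hβ _ _) (β l3 (α i)) (hβ _ _)).mpr ((hT2 i l1 l3 _ (hα i)).mpr t13)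
      exact htri _ _ _ e12 e23 e13)
    (by
      intro i l1 l2 l3 h1 l12 l23 t12 t23 t13
      obtain ⟨a, ha, b, hb, c', hc', hab, hbc⟩ := h3 i
      have e12 := (hGR i i l1 l2 a b ha hb h1.le (Or.inl l12)
        (β l1 a) (hβ _ _) (β l2 b) (hβ _ _)).mpr ((hT3 i l1 l2 a ha b hb hab).mpr t12)
      have e23 := (hGR i i l2 l3 b c' hb hc' (h1.trans l12).le (Or.inl l23)
        (β l2 b) (hβ _ _) (β l3 c') (hβ _ _)).mpr ((hT3 i l2 l3 b hb c' hc' hbc).mpr t23)
      have e13 := (hGR i i l1 l3 a c' ha hc' h1.le (Or.inl (l12.trans l23))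
        (β l1 a) (hβ _ _) (β l3 c') (hβ _ _)).mpr
        ((hT3 i l1 l3 a ha c' hc' (hab.trans hbc)).mpr t13)
      exact htri _ _ _ e12 e23 e13)
    (by
      intro i l1 l2 l3 h1 l12 l23 t12 t23 t13
      obtain ⟨a, ha, b, hb, c', hc', hab, hbc⟩ := h3 i
      have e12 := (hGR i i l1 l2 c' b hc' hb h1.le (Or.inl l12)
        (β l1 c') (hβ _ _) (β l2 b) (hβ _ _)).mpr ((hT4 i l1 l2 b hb c' hc' hbc).mpr t12)
      have e23 := (hGR i i l2 l3 b a hb ha (h1.trans l12).le (Or.inl l23)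
        (β l2 b) (hβ _ _) (β l3 a) (hβ _ _)).mpr ((hT4 i l2 l3 a ha b hb hab).mpr t23)
      have e13 := (hGR i i l1 l3 c' a hc' ha h1.le (Or.inl (l12.trans l23))
        (β l1 c') (hβ _ _) (β l3 a) (hβ _ _)).mpr
        ((hT4 i l1 l3 a ha c' hc' (hab.trans hbc)).mpr t13)
      exact htri _ _ _ e12 e23 e13)
  have hT5' : ∀ i l, i ≤ l → ¬ T5 i l := by
    intro i l hil ht
    obtain ⟨a, ha, b, hb, c', hc', hab, hbc⟩ := h3 i
    have e12 := (hGR i i l l a b ha hb hil (Or.inr ⟨rfl, hab⟩)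
      (β l a) (hβ _ _) (β l b) (hβ _ _)).mpr ((hT5 i l a ha b hb hab).mpr ht)
    have e23 := (hGR i i l l b c' hb hc' hil (Or.inr ⟨rfl, hbc⟩)
      (β l b) (hβ _ _) (β l c') (hβ _ _)).mpr ((hT5 i l b hb c' hc' hbc).mpr ht)
    have e13 := (hGR i i l l a c' ha hc' hil (Or.inr ⟨rfl, hab.trans hbc⟩)
      (β l a) (hβ _ _) (β l c') (hβ _ _)).mpr ((hT5 i l a ha c' hc' (hab.trans hbc)).mpr ht)
    exact htri _ _ _ e12 e23 e13
  refine ⟨{a | ∃ i ∈ I, a ∈ U' i}, fun a => {b | ∃ l ∈ L (blk a), b ∈ B l a}, ?_, ?_, ?_⟩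
  · by_contra hcon
    obtain ⟨i0, hi0⟩ := hpc _ (not_le.mp hcon)
    obtain ⟨i, hi, hii⟩ := hI i0
    have h1 : #(U' i) ≤ #{a | ∃ i ∈ I, a ∈ U' i} := Cardinal.mk_le_mk_of_subset (fun a ha => ⟨i, hi, ha⟩)
    have h2 : p i0 ≤ p i := ((hCD.p_lt_c i0).trans ((hCD.c_lt_s i0).trans (hCD.s_lt_r i0))).le.trans
      (hCD.rp i0 i hii)
    have h4 := ((Order.lt_succ (p i)).trans_le (hV2 i)).trans_le (h1.trans (hi0.trans h2))
    exact lt_irrefl _ h4
  · rintro a -
    by_contra hcon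
    obtain ⟨i0, hi0⟩ := hpc _ (not_le.mp hcon)
    obtain ⟨i, hi, hii⟩ := hL (blk a) i0
    have h1 : #(B i a) ≤ #{b | ∃ l ∈ L (blk a), b ∈ B l a} :=
      Cardinal.mk_le_mk_of_subset (fun b hb => ⟨i, hi, hb⟩)
    have h2 : p i0 ≤ p i := ((hCD.p_lt_c i0).trans ((hCD.c_lt_s i0).trans (hCD.s_lt_r i0))).le.trans
      (hCD.rp i0 i hii)
    have h5 : p i < s i := (hCD.p_lt_c i).trans (hCD.c_lt_s i)
    have h4 := (h5.trans_le (hB1 i a)).trans_le (h1.trans (hi0.trans h2))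
    exact lt_irrefl _ h4
  · -- independence
    have key : ∀ i ∈ I, ∀ i' ∈ I, ∀ a ∈ U' i, ∀ a' ∈ U' i', ∀ l ∈ L i, ∀ l' ∈ L i', ∀ b ∈ B l a,
        ∀ b' ∈ B l' a', l < l' → ¬ G (a, b) (a', b') := by
      intro i hi i' hi' a ha a' ha' l hl l' hl' b hb b' hb' hlt hG
      have hil := hL2 i l hl
      rw [hGR i i' l l' a a' ha ha' hil.le (Or.inl hlt) b hb b' hb'] at hG
      by_cases hii : i = i'
      · subst hii
        have hTT := hT' i hi l hl l' hl' hlt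
        rcases lt_trichotomy a a' with h | h | h
        · exact hTT.2.1 ((hT3 i l l' a ha a' ha' h).mp hG)
        · subst h
          exact hTT.1 ((hT2 i l l' a ha).mp hG)
        · exact hTT.2.2 ((hT4 i l l' a' ha' a ha h).mp hG)
      · exact hT i hi i' hi' hii l hl l' hl' hlt ((hT1 i i' l l' hii a ha a' ha').mp hG)
    have key2 : ∀ i, ∀ a ∈ U' i, ∀ a' ∈ U' i, ∀ l ∈ L i, ∀ b ∈ B l a,
        ∀ b' ∈ B l a', a < a' → ¬ G (a, b) (a', b') := by
      intro i a ha a' ha' l hl b hb b' hb' hlt hG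
      have hil := hL2 i l hl
      rw [hGR i i l l a a' ha ha' hil.le (Or.inr ⟨rfl, hlt⟩) b hb b' hb'] at hG
      exact hT5' i l hil.le ((hT5 i l a ha a' ha' hlt).mp hG)
    rintro a ⟨i, hi, ha⟩ b ⟨l, hl, hb⟩ a' ⟨i', hi', ha'⟩ b' ⟨l', hl', hb'⟩ hG
    rw [hblk i a ha] at hl
    rw [hblk i' a' ha'] at hl'
    rcases lt_trichotomy l l' with h | h | h
    · exact key i hi i' hi' a ha a' ha' l hl l' hl' b hb b' hb' h hG
    · subst h
      by_cases hii : i = i'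
      · subst hii
        rcases lt_trichotomy a a' with h' | h' | h'
        · exact key2 i a ha a' ha' l hl b hb b' hb' h' hG
        · subst h'
          exact hB2 l a b hb b' hb' hG
        · exact key2 i a' ha' a ha l hl b' hb' b hb h' (hsymm _ _ hG)
      · exact hL3 i i' hii l hl hl'
    · exact key i' hi' i hi a' ha' a ha l' hl' l hl b' hb' b hb h (hsymm _ _ hG)

theorem pos_regular {l : Cardinal.{u}} (hreg : l.IsRegular) (hR : Ram4 l.ord.ToType)
    (G : l.ord.ToType × l.ord.ToType → l.ord.ToType × l.ord.ToType → Prop)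
    (hsymm : ∀ x y, G x y → G y x) (htri : ∀ x y z, G x y → G y z → G x z → False) :
    ∃ (C : Set l.ord.ToType) (X : l.ord.ToType → Set l.ord.ToType), l ≤ #C ∧
      (∀ a ∈ C, l ≤ #(X a)) ∧
      ∀ a ∈ C, ∀ b ∈ X a, ∀ a' ∈ C, ∀ b' ∈ X a', ¬ G (a, b) (a', b') := by
  obtain ⟨I, L, hI, hL, hL2, hL3, hT, hT'⟩ := index_lemma hreg hR
    (fun i l i' l' => G (i, l) (i', l')) (fun i l l' => G (i, l) (i, l'))
    (fun _ _ _ => False) (fun _ _ _ => False)
    (fun i1 i2 i3 l1 l2 l3 _ _ _ _ _ _ _ _ t12 t23 t13 => htri _ _ _ t12 t23 t13)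
    (fun i l1 l2 l3 _ _ _ t12 t23 t13 => htri _ _ _ t12 t23 t13)
    (fun _ _ _ _ _ _ _ h _ _ => h) (fun _ _ _ _ _ _ _ h _ _ => h)
  have hne : Nonempty l.ord.ToType := by
    rw [← Cardinal.mk_ne_zero_iff, Cardinal.mk_ord_toType]
    exact hreg.pos.ne'
  have hcard : ∀ S : Set l.ord.ToType, (∀ b, ∃ h ∈ S, b < h) → l ≤ #S := fun S hS =>
    (card_unbdd hreg hS (Classical.choice hne)).trans (Cardinal.mk_le_mk_of_subset (fun x hx => hx.1))
  refine ⟨I, L, hcard I hI, fun a _ => hcard _ (hL a), ?_⟩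
  have key : ∀ i ∈ I, ∀ l ∈ L i, ∀ i' ∈ I, ∀ l' ∈ L i', l < l' → ¬ G (i, l) (i', l') := by
    intro i hi l hl i' hi' l' hl' hlt
    by_cases hii : i = i'
    · subst hii
      exact (hT' i hi l hl l' hl' hlt).1
    · exact hT i hi i' hi' hii l hl l' hl' hlt
  intro i hi l hl i' hi' l' hl' hG
  rcases lt_trichotomy l l' with h | h | h
  · exact key i hi l hl i' hi' l' hl' h hG
  · subst h
    by_cases hii : i = i'
    · subst hii
      exact htri _ _ _ hG hG hG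
    · exact hL3 i i' hii l hl hl'
  · exact key i' hi' l' hl' i hi l hl h (hsymm _ _ hG)

end Pool.Agent.Helper397.E8
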