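import Pool.Agent.Helper397.E8

set_option autoImplicit false

namespace Pool.Agent.Helper397.E9

open Cardinal
open Pool.Agent.Helper397.E1 Pool.Agent.Helper397.E2 Pool.Agent.Helper397.E3
open Pool.Agent.Helper397.E4 Pool.Agent.Helper397.E5 Pool.Agent.Helper397.E8
open Pool.Agent.Helper397.LamDefs

universe u

theorem exists_enum {l : Cardinal.{u}} (hl : ℵ₀ ≤ l) {S : Set l.ord.ToType} (hS : l ≤ #S) :
    ∃ e : l.ord.ToType → l.ord.ToType, StrictMono e ∧ ∀ i, e i ∈ S := by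
  classical
  haveI : Nonempty l.ord.ToType := by
    rw [← Cardinal.mk_ne_zero_iff, Cardinal.mk_ord_toType]
    exact (Cardinal.aleph0_pos.trans_le hl).ne'
  haveI : Inhabited l.ord.ToType := ⟨Classical.arbitrary _⟩
  obtain ⟨e, he⟩ := exists_rec (I := l.ord.ToType) (X := l.ord.ToType)
    (fun i D x => (x ∈ S ∧ ∀ j, j < i → x ≠ D j) ∧ ∀ y, (y ∈ S ∧ ∀ j, j < i → y ≠ D j) → x ≤ y)
    (by
      rintro i D D' x h ⟨⟨h1, h2⟩, h3⟩
      refine ⟨⟨h1, fun j hj => ?_⟩, fun y hy => h3 y ⟨hy.1, fun j hj => ?_⟩⟩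
      · rw [← h j hj]; exact h2 j hj
      · rw [h j hj]; exact hy.2 j hj)
    (by
      intro i D
      have hne : {y | y ∈ S ∧ ∀ j, j < i → y ≠ D j}.Nonempty := by
        by_contra hcon
        rw [Set.not_nonempty_iff_eq_empty] at hcon
        have hsub : S ⊆ Set.range (fun j : Set.Iio i => D j.1) := by
          intro y hy
          by_contra hy'
          have : y ∈ {y | y ∈ S ∧ ∀ j, j < i → y ≠ D j} :=
            ⟨hy, fun j hj h => hy' ⟨⟨j, hj⟩, h.symm⟩⟩
          rw [hcon] at this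
          exact this
        have h1 : #(Set.Iio i) < l := by
          have := Cardinal.mk_Iio_lt i (by simp)
          rwa [Cardinal.mk_ord_toType] at this
        have h2 := (hS.trans (Cardinal.mk_le_mk_of_subset hsub)).trans Cardinal.mk_range_le
        exact absurd h2 (not_le.mpr h1)
      refine ⟨(wellFounded_lt (α := l.ord.ToType)).min _ hne, WellFounded.min_mem _ _ hne,
        fun y hy => ?_⟩
      have hy' : y ∈ {y | y ∈ S ∧ ∀ j, j < i → y ≠ D j} := hy
      exact not_lt.mp (WellFounded.not_lt_min (wellFounded_lt (α := l.ord.ToType)) _ hy'))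
  refine ⟨e, fun i j hij => ?_, fun i => (he i).1.1⟩
  have h1 : e i ≤ e j := (he i).2 (e j) ⟨(he j).1.1, fun k hk => (he j).1.2 k (hk.trans hij)⟩
  exact lt_of_le_of_ne h1 ((he j).1.2 i hij).symm

noncomputable def ofI {κ : Ordinal.{u}} (i : κ.ToType) : Ordinal.{u} :=
  (Ordinal.ToType.mk.symm i : Set.Iio _).1

theorem ofI_lt {κ : Ordinal.{u}} (i : κ.ToType) : ofI i < κ := (Ordinal.ToType.mk.symm i : Set.Iio _).2

theorem ofI_lt_ofI {κ : Ordinal.{u}} {i j : κ.ToType} : ofI i < ofI j ↔ i < j := by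
  unfold ofI
  rw [Subtype.coe_lt_coe, OrderIso.lt_iff_lt]

theorem exists_ofI {κ a : Ordinal.{u}} (ha : a < κ) : ∃ i : κ.ToType, ofI i = a :=
  ⟨Ordinal.ToType.mk ⟨a, ha⟩, by simp [ofI]⟩

/-- Points of the square as ordinals. -/
noncomputable def pt {κ : Ordinal.{u}} (p : κ.ToType × κ.ToType) : Ordinal.{u} :=
  κ * ofI p.1 + ofI p.2

theorem pt_lt_of_col {κ : Ordinal.{u}} {p q : κ.ToType × κ.ToType} (h : p.1 < q.1) :
    pt p < pt q := by
  unfold pt
  have h1 : κ * ofI p.1 + ofI p.2 < κ * ofI p.1 + κ := by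
    gcongr
    exact ofI_lt p.2
  have h2 : κ * ofI p.1 + κ = κ * (ofI p.1 + 1) := by
    rw [mul_add, mul_one]
  have h3 : κ * (ofI p.1 + 1) ≤ κ * ofI q.1 := by
    gcongr
    exact Order.add_one_le_of_lt (ofI_lt_ofI.mpr h)
  calc _ < _ := h1
    _ = _ := h2
    _ ≤ _ := h3
    _ ≤ _ := le_self_add

theorem pt_lt_of_row {κ : Ordinal.{u}} {p q : κ.ToType × κ.ToType} (h : p.1 = q.1)
    (h2 : p.2 < q.2) : pt p < pt q := by
  unfold pt
  rw [h]
  gcongr
  exact ofI_lt_ofI.mpr h2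

theorem pt_lt {κ : Ordinal.{u}} (p : κ.ToType × κ.ToType) : pt p < κ * κ := by
  have h2 : κ * ofI p.1 + κ = κ * (ofI p.1 + 1) := by
    rw [mul_add, mul_one]
  have h3 : κ * (ofI p.1 + 1) ≤ κ * κ := by
    gcongr
    exact Order.add_one_le_of_lt (ofI_lt p.1)
  have h1 : κ * ofI p.1 + ofI p.2 < κ * ofI p.1 + κ := by
    gcongr
    exact ofI_lt p.2
  exact h1.trans_le (h2.le.trans h3)

theorem arrow_of_pos {l : Cardinal.{u}} (hl : ℵ₀ ≤ l)
    (hpos : ∀ G : l.ord.ToType × l.ord.ToType → l.ord.ToType × l.ord.ToType → Prop,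
      (∀ x y, G x y → G y x) → (∀ x y z, G x y → G y z → G x z → False) →
      ∃ (C : Set l.ord.ToType) (X : l.ord.ToType → Set l.ord.ToType), l ≤ #C ∧
        (∀ a ∈ C, l ≤ #(X a)) ∧
        ∀ a ∈ C, ∀ b ∈ X a, ∀ a' ∈ C, ∀ b' ∈ X a', ¬ G (a, b) (a', b')) :
    ArrowSelfThree (l.ord * l.ord) := by
  classical
  intro R
  by_cases hno : ∃ a b c, a < b ∧ b < c ∧ c < l.ord * l.ord ∧ R a b ∧ R b c ∧ R a c
  · exact Or.inr hno
  left
  have ho : l.ord ≠ 0 := (Cardinal.isSuccLimit_ord hl).ne_bot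
  let G : l.ord.ToType × l.ord.ToType → l.ord.ToType × l.ord.ToType → Prop := fun x y =>
    (pt x < pt y ∧ R (pt x) (pt y)) ∨ (pt y < pt x ∧ R (pt y) (pt x))
  have htri' : ∀ x y z : l.ord.ToType × l.ord.ToType, pt x < pt y → pt y < pt z →
      G x y → G y z → G x z → False := by
    intro x y z hxy hyz h1 h2 h3
    have e1 : R (pt x) (pt y) := by
      rcases h1 with h | h
      · exact h.2
      · exact absurd h.1 (not_lt.mpr hxy.le)
    have e2 : R (pt y) (pt z) := by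
      rcases h2 with h | h
      · exact h.2
      · exact absurd h.1 (not_lt.mpr hyz.le)
    have e3 : R (pt x) (pt z) := by
      rcases h3 with h | h
      · exact h.2
      · exact absurd h.1 (not_lt.mpr (hxy.trans hyz).le)
    exact hno ⟨_, _, _, hxy, hyz, pt_lt z, e1, e2, e3⟩
  have hsymm : ∀ x y, G x y → G y x := fun x y h => h.symm
  have hne : ∀ x y, G x y → pt x ≠ pt y := by
    intro x y h
    rcases h with h | h
    · exact h.1.ne
    · exact h.1.ne'
  obtain ⟨C, X, hC, hX, hind⟩ := hpos G hsymm (by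
    intro x y z hxy hyz hxz
    rcases lt_or_gt_of_ne (hne x y hxy) with a | a
    · rcases lt_or_gt_of_ne (hne y z hyz) with b | b
      · exact htri' x y z a b hxy hyz hxz
      · rcases lt_or_gt_of_ne (hne x z hxz) with d | d
        · exact htri' x z y d b hxz (hsymm _ _ hyz) hxy
        · exact htri' z x y d a (hsymm _ _ hxz) hxy (hsymm _ _ hyz)
    · rcases lt_or_gt_of_ne (hne y z hyz) with b | b
      · rcases lt_or_gt_of_ne (hne x z hxz) with d | d
        · exact htri' y x z a d (hsymm _ _ hxy) hxz hyz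
        · exact htri' y z x b d hyz (hsymm _ _ hxz) (hsymm _ _ hxy)
      · exact htri' z y x b a (hsymm _ _ hyz) (hsymm _ _ hxy) (hsymm _ _ hxz))
  obtain ⟨eC, heC1, heC2⟩ := exists_enum hl hC
  have heX : ∀ a, ∃ e : l.ord.ToType → l.ord.ToType, a ∈ C → (StrictMono e ∧ ∀ i, e i ∈ X a) := by
    intro a
    by_cases ha : a ∈ C
    · obtain ⟨e, he⟩ := exists_enum hl (hX a ha)
      exact ⟨e, fun _ => he⟩
    · exact ⟨id, fun h => absurd h ha⟩
  choose eX heX using heX
  have hdec : ∀ β : Ordinal.{u}, ∃ q : l.ord.ToType × l.ord.ToType, β < l.ord * l.ord →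
      (β / l.ord = ofI q.1 ∧ β % l.ord = ofI q.2) := by
    intro β
    obtain ⟨i, hi⟩ := exists_ofI (Ordinal.mod_lt β ho)
    by_cases hβ : β < l.ord * l.ord
    · have h1 : β / l.ord < l.ord := (Ordinal.lt_mul_iff_div_lt ho).mp hβ
      obtain ⟨j, hj⟩ := exists_ofI h1
      exact ⟨(j, i), fun _ => ⟨hj.symm, hi.symm⟩⟩
    · exact ⟨(i, i), fun h => absurd h hβ⟩
  choose q hq using hdec
  let g : Ordinal.{u} → l.ord.ToType × l.ord.ToType := fun β =>
    (eC (q β).1, eX (eC (q β).1) (q β).2)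
  have hmono : ∀ β γ : Ordinal.{u}, β < γ → γ < l.ord * l.ord → pt (g β) < pt (g γ) := by
    intro β γ hβγ hγ
    obtain ⟨a1, a2⟩ := hq β (hβγ.trans hγ)
    obtain ⟨b1, b2⟩ := hq γ hγ
    have hle : β / l.ord ≤ γ / l.ord := Ordinal.div_le_left hβγ.le l.ord
    rcases hle.lt_or_eq with hlt | heq
    · rw [a1, b1, ofI_lt_ofI] at hlt
      exact pt_lt_of_col (heC1 hlt)
    · have hmod : β % l.ord < γ % l.ord := by
        have h1 := Ordinal.div_add_mod β l.ord
        have h2 := Ordinal.div_add_mod γ l.ord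
        rw [← h1, ← h2, heq] at hβγ
        exact (add_lt_add_iff_left _).mp hβγ
      have hn : (q β).1 = (q γ).1 := by
        rw [a1, b1] at heq
        rcases lt_trichotomy (q β).1 (q γ).1 with h | h | h
        · exact absurd heq (ofI_lt_ofI.mpr h).ne
        · exact h
        · exact absurd heq (ofI_lt_ofI.mpr h).ne'
      rw [a2, b2, ofI_lt_ofI] at hmod
      refine pt_lt_of_row (by simp only [g, hn]) ?_
      simp only [g]
      rw [hn]
      exact (heX _ (heC2 _)).1 hmod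
  refine ⟨fun β => pt (g β), fun β _ γ hγ hβγ => hmono β γ hβγ hγ, fun β _ => pt_lt _, ?_⟩
  intro β γ hβγ hγ hR
  have h1 := hmono β γ hβγ hγ
  exact hind _ (heC2 _) _ ((heX _ (heC2 _)).2 _) _ (heC2 _) _ ((heX _ (heC2 _)).2 _)
    (Or.inl ⟨h1, hR⟩)

/-- Positive relation for strong limit (or countable) cardinals whose cofinality has the Ramsey
property for quadruples. -/
theorem arrow_of_cof {l : Cardinal.{u}} (hl : ℵ₀ ≤ l)
    (hsl : ∀ x, x < l → (2 : Cardinal.{u}) ^ x < l)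
    (hR : Ram4 l.ord.cof.ord.ToType) : ArrowSelfThree (l.ord * l.ord) := by
  refine arrow_of_pos hl (fun G hsymm htri => ?_)
  rcases (Ordinal.cof_ord_le l).lt_or_eq with h | h
  · exact pos_singular hl hsl h hR G hsymm htri
  · rw [h] at hR
    exact pos_regular ⟨hl, h.ge⟩ hR G hsymm htri

theorem ram4_omega : Ram4 (ℵ₀ : Cardinal.{u}).ord.ToType := by
  haveI : Nonempty (ℵ₀ : Cardinal.{u}).ord.ToType := by
    rw [← Cardinal.mk_ne_zero_iff, Cardinal.mk_ord_toType]
    exact Cardinal.aleph0_pos.ne'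
  have hunb : ∀ b : (ℵ₀ : Cardinal.{u}).ord.ToType, ∃ h, b < h := by
    intro b
    obtain ⟨h, -, hb⟩ := unbdd_of_card le_rfl (S := (Set.univ : Set (ℵ₀ : Cardinal.{u}).ord.ToType))
      (by rw [Cardinal.mk_univ, Cardinal.mk_ord_toType]) b
    exact ⟨h, hb⟩
  haveI : NoMaxOrder (ℵ₀ : Cardinal.{u}).ord.ToType := ⟨hunb⟩
  refine ram4_of_finite (fun b => ?_)
  have := card_Iic_lt (c := (ℵ₀ : Cardinal.{u})) le_rfl b
  rwa [Cardinal.lt_aleph0_iff_set_finite] at this

end Pool.Agent.Helper397.E9
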