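import Pool.Agent.Helper397.E5

set_option autoImplicit false

namespace Pool.Agent.Helper397.H1

open Cardinal
open Pool.Agent.Helper397.E1 Pool.Agent.Helper397.E2 Pool.Agent.Helper397.E4
open Pool.Agent.Helper397.E5

universe u

/-- small families are enumerated -/
theorem exists_cover {J Y : Type u} [Nonempty Y] (P : Set Y) (hP : #P ≤ #J) :
    ∃ t : J → Y, P ⊆ Set.range t := by
  classical
  obtain ⟨i⟩ := (Cardinal.le_def _ _).mp hP
  refine ⟨fun j => if h : ∃ p : P, i p = j then (Classical.choose h).1 else Classical.arbitrary Y,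
    fun p hp => ⟨i ⟨p, hp⟩, ?_⟩⟩
  have hex : ∃ q : P, i q = i ⟨p, hp⟩ := ⟨_, rfl⟩
  simp only [hex, dif_pos]
  exact congrArg Subtype.val (i.injective (Classical.choose_spec hex))

/-- distinct representatives -/
theorem exists_sdr {J I : Type u} [LinearOrder J] [WellFoundedLT J] [Nonempty J]
    (hJ : ∀ j : J, #(Set.Iio j) < #J) (X : J → Set I) (hX : ∀ j, #J ≤ #(X j)) :
    ∃ x : J → I, Function.Injective x ∧ ∀ j, x j ∈ X j := by
  classical
  have hne : Nonempty I := by
    obtain ⟨i⟩ := (Cardinal.le_def _ _).mp (hX (Classical.arbitrary J))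
    exact ⟨(i (Classical.arbitrary J)).1⟩
  haveI : Inhabited I := ⟨Classical.arbitrary I⟩
  obtain ⟨x, hx⟩ := exists_rec (I := J) (X := I)
    (fun j D a => a ∈ X j ∧ ∀ k, k < j → a ≠ D k)
    (by
      rintro j D D' a h ⟨h1, h2⟩
      refine ⟨h1, fun k hk => ?_⟩
      rw [← h k hk]
      exact h2 k hk)
    (by
      intro j D
      by_contra hcon
      push Not at hcon
      have hsub : X j ⊆ Set.range (fun k : Set.Iio j => D k.1) := by
        intro a ha
        obtain ⟨k, hk, hk2⟩ := hcon a ha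
        exact ⟨⟨k, hk⟩, hk2.symm⟩
      have h1 := (hX j).trans ((Cardinal.mk_le_mk_of_subset hsub).trans Cardinal.mk_range_le)
      exact absurd h1 (not_le.mpr (hJ j)))
  refine ⟨x, fun j k hjk => ?_, fun j => (hx j).1⟩
  rcases lt_trichotomy j k with h | h | h
  · exact absurd hjk.symm ((hx k).2 j h)
  · exact h
  · exact absurd hjk ((hx j).2 k h)

/-- increasing enumeration of a subset of a well order -/
theorem exists_incr {L I : Type u} [LinearOrder L] [WellFoundedLT L] [LinearOrder I]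
    [WellFoundedLT I] (hL : ∀ j : L, #(Set.Iio j) < #L) {T : Set I} (hT : #L ≤ #T)
    [Nonempty I] :
    ∃ s : L → I, StrictMono s ∧ ∀ i, s i ∈ T := by
  classical
  haveI : Inhabited I := ⟨Classical.arbitrary I⟩
  obtain ⟨e, he⟩ := exists_rec (I := L) (X := I)
    (fun i D x => (x ∈ T ∧ ∀ j, j < i → x ≠ D j) ∧ ∀ y, (y ∈ T ∧ ∀ j, j < i → y ≠ D j) → x ≤ y)
    (by
      rintro i D D' x h ⟨⟨h1, h2⟩, h3⟩
      refine ⟨⟨h1, fun j hj => ?_⟩, fun y hy => h3 y ⟨hy.1, fun j hj => ?_⟩⟩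
      · rw [← h j hj]; exact h2 j hj
      · rw [h j hj]; exact hy.2 j hj)
    (by
      intro i D
      have hne : {y | y ∈ T ∧ ∀ j, j < i → y ≠ D j}.Nonempty := by
        by_contra hcon
        rw [Set.not_nonempty_iff_eq_empty] at hcon
        have hsub : T ⊆ Set.range (fun j : Set.Iio i => D j.1) := by
          intro y hy
          by_contra hy'
          have : y ∈ {y | y ∈ T ∧ ∀ j, j < i → y ≠ D j} :=
            ⟨hy, fun j hj h => hy' ⟨⟨j, hj⟩, h.symm⟩⟩
          rw [hcon] at this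
          exact this
        have h2 := (hT.trans (Cardinal.mk_le_mk_of_subset hsub)).trans Cardinal.mk_range_le
        exact absurd h2 (not_le.mpr (hL i))
      refine ⟨(wellFounded_lt (α := I)).min _ hne, WellFounded.min_mem _ _ hne,
        fun y hy => ?_⟩
      have hy' : y ∈ {y | y ∈ T ∧ ∀ j, j < i → y ≠ D j} := hy
      exact not_lt.mp (WellFounded.not_lt_min (wellFounded_lt (α := I)) _ hy'))
  refine ⟨e, fun i j hij => ?_, fun i => (he i).1.1⟩
  have h1 : e i ≤ e j := (he i).2 (e j) ⟨(he j).1.1, fun k hk => (he j).1.2 k (hk.trans hij)⟩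
  exact lt_of_le_of_ne h1 ((he j).1.2 i hij).symm

/-- one function catches few large sets -/
theorem exists_H {J I : Type u} [LinearOrder J] [WellFoundedLT J] [Nonempty J]
    (hJ : ∀ j : J, #(Set.Iio j) < #J) (hinf : ℵ₀ ≤ #J) [Nonempty I]
    (F : Set (J → I)) (hF : #F ≤ #J) (hinj : ∀ g ∈ F, Function.Injective g) (y : I) :
    ∃ H : I → I → Prop, (∀ x v v', H x v → H x v' → v = v') ∧
      ∀ g ∈ F, ∃ x v, x ∈ Set.range g ∧ v ∈ Set.range g ∧ x ≠ v ∧ x ≠ y ∧ v ≠ y ∧ H x v := by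
  classical
  rcases F.eq_empty_or_nonempty with hF0 | ⟨g0, hg0⟩
  · refine ⟨fun _ _ => False, fun _ _ _ h => h.elim, fun g hg => ?_⟩
    rw [hF0] at hg
    exact hg.elim
  obtain ⟨t, ht⟩ := exists_cover F hF
  let t' : J → (J → I) := fun j => if t j ∈ F then t j else g0
  have ht' : ∀ j, t' j ∈ F := by
    intro j
    by_cases h : t j ∈ F
    · simp only [t', h, if_true]
    · simp only [t', h, if_false]
      exact hg0
  have hcov : ∀ g ∈ F, ∃ j, t' j = g := by
    intro g hg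
    obtain ⟨j, hj⟩ := ht hg
    refine ⟨j, ?_⟩
    have : t j ∈ F := by rw [hj]; exact hg
    simp only [t', this, if_true]
    exact hj
  have hbig : ∀ (j : J) (a b : I), #J ≤ #(((Set.range (t' j)) \ {a, b} : Set I)) := by
    intro j a b
    have h1 : #(Set.range (t' j)) = #J := Cardinal.mk_range_eq _ (hinj _ (ht' j))
    by_contra hcon
    push Not at hcon
    have h2 : Set.range (t' j) ⊆ (Set.range (t' j) \ {a, b}) ∪ {a, b} := by
      intro x hx
      by_cases h : x ∈ ({a, b} : Set I)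
      · exact Or.inr h
      · exact Or.inl ⟨hx, h⟩
    have h3 := (Cardinal.mk_le_mk_of_subset h2).trans (Cardinal.mk_union_le _ _)
    rw [h1] at h3
    have h4 : #(({a, b} : Set I)) < #J := by
      refine lt_of_lt_of_le ?_ hinf
      exact Cardinal.lt_aleph0_iff_set_finite.mpr (Set.toFinite _)
    exact absurd h3 (not_le.mpr (Cardinal.add_lt_of_lt hinf hcon h4))
  obtain ⟨x, hx1, hx2⟩ := exists_sdr hJ (fun j => Set.range (t' j) \ {y, y}) (fun j => hbig j y y)
  have hv : ∀ j, ∃ v, v ∈ Set.range (t' j) \ {y, x j} := by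
    intro j
    have h1 := hbig j y (x j)
    have h2 : #(((Set.range (t' j)) \ {y, x j} : Set I)) ≠ 0 := by
      intro h
      rw [h] at h1
      exact absurd (hinf.trans h1) (not_le.mpr Cardinal.aleph0_pos)
    rw [Cardinal.mk_ne_zero_iff] at h2
    obtain ⟨v⟩ := h2
    exact ⟨v.1, v.2⟩
  choose v hv using hv
  refine ⟨fun a b => ∃ j, a = x j ∧ b = v j, ?_, fun g hg => ?_⟩
  · rintro a b b' ⟨j, h1, h2⟩ ⟨j', h1', h2'⟩
    have : j = j' := hx1 (h1.symm.trans h1')
    rw [h2, h2', this]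
  · obtain ⟨j, rfl⟩ := hcov g hg
    have h1 := hx2 j
    have h2 := hv j
    simp only [Set.mem_diff, Set.mem_insert_iff, Set.mem_singleton_iff, not_or] at h1 h2
    exact ⟨x j, v j, h1.1, h2.1, fun h => h2.2.2 h.symm, h1.2.1, h2.2.1, j, rfl, rfl⟩

/-- the combinatorial core -/
theorem core {θ : Cardinal.{u}} (hθ : ℵ₀ ≤ θ) (h2 : (2 : Cardinal.{u}) ^ θ = Order.succ θ) :
    ∃ Φ : (Order.succ (Order.succ θ)).ord.ToType → (Order.succ (Order.succ θ)).ord.ToType →
        (Order.succ (Order.succ θ)).ord.ToType → (Order.succ (Order.succ θ)).ord.ToType → Prop,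
      (∀ a b c, {v | Φ a b c v}.Finite) ∧
      ∀ T : Set (Order.succ (Order.succ θ)).ord.ToType, Order.succ θ ≤ #T →
        ∃ a ∈ T, ∃ b ∈ T, ∃ c ∈ T, ∃ v ∈ T, v ≠ a ∧ v ≠ b ∧ v ≠ c ∧ Φ a b c v := by
  classical
  have hsθ : ℵ₀ ≤ Order.succ θ := hθ.trans (Order.le_succ θ)
  have hssθ : ℵ₀ ≤ Order.succ (Order.succ θ) := hsθ.trans (Order.le_succ _)
  have hreg : (Order.succ θ).IsRegular := Cardinal.isRegular_succ hθ
  let I := (Order.succ (Order.succ θ)).ord.ToType
  let L := (Order.succ θ).ord.ToType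
  let J := θ.ord.ToType
  have hIc : #I = Order.succ (Order.succ θ) := Cardinal.mk_ord_toType _
  have hLc : #L = Order.succ θ := Cardinal.mk_ord_toType _
  have hJc : #J = θ := Cardinal.mk_ord_toType _
  haveI : Nonempty J := by
    rw [← Cardinal.mk_ne_zero_iff, hJc]
    exact (Cardinal.aleph0_pos.trans_le hθ).ne'
  haveI : Nonempty L := by
    rw [← Cardinal.mk_ne_zero_iff, hLc]
    exact (Cardinal.aleph0_pos.trans_le hsθ).ne'
  haveI : Nonempty I := by
    rw [← Cardinal.mk_ne_zero_iff, hIc]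
    exact (Cardinal.aleph0_pos.trans_le hssθ).ne'
  have hJlt : ∀ j : J, #(Set.Iio j) < #J := fun j => Cardinal.mk_Iio_lt j (by simp [J])
  have hLlt : ∀ j : L, #(Set.Iio j) < #L := fun j => Cardinal.mk_Iio_lt j (by simp [L])
  have hLle : ∀ j : L, #(Set.Iic j) ≤ θ := by
    intro j
    have := card_Iic_lt hsθ j
    rwa [Order.lt_succ_iff] at this
  have hIle : ∀ i : I, #(Set.Iio i) ≤ #L := by
    intro i
    have h := Cardinal.mk_Iio_lt i (by simp [I])
    rw [Cardinal.mk_ord_toType, Order.lt_succ_iff] at h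
    rwa [hLc]
  -- injections of initial segments
  have he : ∀ z : I, ∃ e : I → L, ∀ x, x < z → ∀ y, y < z → e x = e y → x = y := by
    intro z
    obtain ⟨i⟩ := (Cardinal.le_def _ _).mp (hIle z)
    refine ⟨fun x => if h : x < z then i ⟨x, h⟩ else Classical.arbitrary L, fun x hx y hy h => ?_⟩
    simp only [hx, hy, dif_pos] at h
    exact congrArg (fun q : Set.Iio z => q.1) (i.injective h)
  choose e he using he
  -- enumeration of small subsets of initial segments
  have hE : ∀ w : I, ∃ E : L → (J → I), ∀ g : J → I, (∀ j, g j < w) → ∃ i, E i = g := by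
    intro w
    obtain ⟨t, ht⟩ := exists_cover (J := L) {g : J → I | ∀ j, g j < w} (by
      have h1 : #{g : J → I | ∀ j, g j < w} ≤ #(J → Set.Iio w) := by
        refine Cardinal.mk_le_of_injective
          (f := fun (g : {g : J → I | ∀ j, g j < w}) (j : J) => (⟨g.1 j, g.2 j⟩ : Set.Iio w)) ?_
        intro g g' h
        apply Subtype.ext
        funext j
        exact congrArg (fun q : J → Set.Iio w => (q j).1) h
      refine h1.trans ?_
      rw [← Cardinal.power_def, hJc, hLc]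
      refine (Cardinal.power_le_power_right ((hIle w).trans_eq hLc)).trans_eq ?_
      rw [← h2, ← Cardinal.power_mul, Cardinal.mul_eq_self hθ])
    exact ⟨t, fun g hg => ht hg⟩
  choose E hE using hE
  -- the functions catching sets
  let Fam : I → I → Set (J → I) := fun y z =>
    {g | Function.Injective g ∧ ∃ w i, w < z ∧ e z w ≤ e z y ∧ i ≤ e z y ∧ g = E w i}
  have hFam : ∀ y z, #(Fam y z) ≤ #J := by
    intro y z
    let W : Set I := {w | w < z ∧ e z w ≤ e z y}
    have hW : #W ≤ θ := by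
      refine le_trans (Cardinal.mk_le_of_injective
        (f := fun w : W => (⟨e z w.1, w.2.2⟩ : Set.Iic (e z y))) ?_) (hLle (e z y))
      intro w w' h
      apply Subtype.ext
      exact he z w.1 w.2.1 w'.1 w'.2.1 (congrArg (fun q : Set.Iic (e z y) => q.1) h)
    have hsub : Fam y z ⊆ Set.range (fun p : W × Set.Iic (e z y) => E p.1.1 p.2.1) := by
      rintro g ⟨-, w, i, h1, h2, h3, rfl⟩
      exact ⟨(⟨w, h1, h2⟩, ⟨i, h3⟩), rfl⟩
    refine (Cardinal.mk_le_mk_of_subset hsub).trans (Cardinal.mk_range_le.trans ?_)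
    rw [Cardinal.mk_prod, Cardinal.lift_id, Cardinal.lift_id, hJc]
    calc #W * #(Set.Iic (e z y)) ≤ θ * θ := mul_le_mul' hW (hLle _)
      _ = θ := Cardinal.mul_eq_self hθ
  have hH : ∀ y z : I, ∃ H : I → I → Prop, (∀ x v v', H x v → H x v' → v = v') ∧
      ∀ g ∈ Fam y z, ∃ x v, x ∈ Set.range g ∧ v ∈ Set.range g ∧ x ≠ v ∧ x ≠ y ∧ v ≠ y ∧ H x v := by
    intro y z
    exact exists_H hJlt (by rw [hJc]; exact hθ) (Fam y z) (hFam y z) (fun g hg => hg.1) y
  choose H hH1 hH2 using hH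
  refine ⟨fun a b c v => (v < c ∧ e c v = e b a) ∨ H b c a v, fun a b c => ?_, ?_⟩
  · have h1 : {v | v < c ∧ e c v = e b a}.Finite := by
      refine Set.Subsingleton.finite ?_
      rintro v ⟨hv1, hv2⟩ v' ⟨hv1', hv2'⟩
      exact he c v hv1 v' hv1' (hv2.trans hv2'.symm)
    have h2 : {v | H b c a v}.Finite := by
      refine Set.Subsingleton.finite ?_
      intro v hv v' hv'
      exact hH1 b c a v v' hv hv'
    exact (h1.union h2).subset (fun v hv => hv)
  intro T hT
  obtain ⟨s, hs1, hs2⟩ := exists_incr (L := L) (I := I) hLlt (T := T) (by rw [hLc]; exact hT)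
  by_cases hbd : ∃ ν : L, ∀ i j, i < j → e (s j) (s i) < ν
  · -- bounded case: coincidences
    obtain ⟨ν, hν⟩ := hbd
    have hcν : #(Set.Iic ν) < Order.succ θ := card_Iic_lt hsθ ν
    have hunb : ∀ i : L, Order.succ θ ≤ #{j : L | i < j} := by
      intro i
      by_contra hcon
      push Not at hcon
      have hsub : (Set.univ : Set L) ⊆ Set.Iic i ∪ {j : L | i < j} := fun j _ => le_or_gt j i
      have h1 := (Cardinal.mk_le_mk_of_subset hsub).trans (Cardinal.mk_union_le _ _)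
      rw [Cardinal.mk_univ, hLc] at h1
      exact absurd h1 (not_le.mpr (Cardinal.add_lt_of_lt hsθ (card_Iic_lt hsθ i) hcon))
    have hpop : ∀ i : L, ∃ c : Set.Iic ν, ∀ b, ∃ j, b < j ∧ i < j ∧ e (s j) (s i) = c.1 := by
      intro i
      obtain ⟨c, hc⟩ := ph hreg {j : L | i < j} (hunb i)
        (fun j => if h : e (s j) (s i) ≤ ν then (⟨e (s j) (s i), h⟩ : Set.Iic ν) else ⟨ν, Set.mem_Iic.mpr le_rfl⟩) hcν
      refine ⟨c, fun b => ?_⟩
      obtain ⟨j, ⟨hj1, hj2⟩, hj3⟩ := unbdd_of_card hsθ hc b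
      refine ⟨j, hj3, hj1, ?_⟩
      have hle : e (s j) (s i) ≤ ν := (hν i j hj1).le
      simp only [hle, dif_pos] at hj2
      exact congrArg (fun q : Set.Iic ν => q.1) hj2
    choose c hc using hpop
    obtain ⟨cs, hcs⟩ := ph hreg (Set.univ : Set L) (by rw [Cardinal.mk_univ, hLc]) c hcν
    obtain ⟨i, ⟨-, hi⟩, -⟩ := unbdd_of_card hsθ hcs (Classical.arbitrary L)
    obtain ⟨i', ⟨-, hi'⟩, hii'⟩ := unbdd_of_card hsθ hcs i
    obtain ⟨j, hj1, hj2, hj3⟩ := hc i i'
    obtain ⟨k, hk1, hk2, hk3⟩ := hc i' j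
    refine ⟨s i, hs2 i, s j, hs2 j, s k, hs2 k, s i', hs2 i', ?_, ?_, ?_, Or.inl ⟨hs1 hk2, ?_⟩⟩
    · exact (hs1 hii').ne'
    · exact (hs1 hj1).ne
    · exact (hs1 hk2).ne
    · rw [hk3, hj3, hi, hi']
  · -- unbounded case
    push Not at hbd
    obtain ⟨g⟩ : Nonempty (J ↪ L) := (Cardinal.le_def _ _).mp (by
      rw [hJc, hLc]; exact Order.le_succ θ)
    obtain ⟨m, hm⟩ := bdd_reg hreg (M := J) (by rw [hJc]; exact Order.lt_succ θ) g
    obtain ⟨i0, hi0⟩ := hE (s m) (fun j => s (g j)) (fun j => hs1 (hm j))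
    have hMc : #(Set.Iic m × Set.Iic m) < Order.succ θ := by
      rw [Cardinal.mk_prod, Cardinal.lift_id]
      exact Cardinal.mul_lt_of_lt hsθ (card_Iic_lt hsθ m) (card_Iic_lt hsθ m)
    obtain ⟨ν1, hν1⟩ := bdd_reg hreg hMc (fun p => e (s p.2.1) (s p.1.1))
    obtain ⟨i, j, hij, hlarge⟩ := hbd (max ν1 i0)
    have hmj : m < j := by
      by_contra hcon
      have hjm : j ≤ m := not_lt.mp hcon
      have := hν1 (⟨i, hij.le.trans hjm⟩, ⟨j, hjm⟩)
      exact absurd (this.trans_le ((le_max_left _ _).trans hlarge)) (lt_irrefl _)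
    have key : ∀ k : L, k < j → e (s j) (s m) ≤ e (s j) (s k) → i0 ≤ e (s j) (s k) →
        ∃ a ∈ T, ∃ b ∈ T, ∃ c ∈ T, ∃ v ∈ T, v ≠ a ∧ v ≠ b ∧ v ≠ c ∧
          ((v < c ∧ e c v = e b a) ∨ H b c a v) := by
      intro k hk hk1 hk2
      obtain ⟨x, v, ⟨jx, hx⟩, ⟨jv, hv⟩, h1, h2, h3, h4⟩ := hH2 (s k) (s j) (fun j => s (g j))
        ⟨fun a b h => g.injective (hs1.injective h), s m, i0, hs1 hmj, hk1, hk2, hi0.symm⟩
      refine ⟨x, ?_, s k, hs2 k, s j, hs2 j, v, ?_, Ne.symm h1, h3, ?_, Or.inr h4⟩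
      · rw [← hx]; exact hs2 _
      · rw [← hv]; exact hs2 _
      · rw [← hv]
        exact (hs1 ((hm jv).trans hmj)).ne
    rcases le_or_gt (e (s j) (s m)) (e (s j) (s i)) with hle | hgt
    · exact key i hij hle ((le_max_right _ _).trans hlarge)
    · exact key m hmj le_rfl (((le_max_right _ _).trans hlarge).trans hgt.le)

end Pool.Agent.Helper397.H1
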