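import Pool.Agent.Helper397.H1

set_option autoImplicit false

namespace Pool.Agent.Helper397.H2

open Cardinal
open Pool.Agent.Helper397.E1 Pool.Agent.Helper397.E2 Pool.Agent.Helper397.E4
open Pool.Agent.Helper397.E5 Pool.Agent.Helper397.H1

universe u

/-- Finite valued functions of tuples indexed by `A` on `I` for which no set of size `θ⁺` is
free. -/
def Kill (I : Type u) (θ : Cardinal.{u}) (A : Type) : Prop :=
  ∃ Φ : (A → I) → Set I, (∀ a, (Φ a).Finite) ∧
    ∀ T : Set I, Order.succ θ ≤ #T →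
      ∃ a : A → I, (∀ i, a i ∈ T) ∧ ∃ v ∈ T, (∀ i, v ≠ a i) ∧ v ∈ Φ a

theorem kill_base {θ : Cardinal.{u}} (hθ : ℵ₀ ≤ θ) (h2 : (2 : Cardinal.{u}) ^ θ = Order.succ θ) :
    Kill (Order.succ (Order.succ θ)).ord.ToType θ (Fin 3) := by
  obtain ⟨Φ, h1, h3⟩ := core hθ h2
  refine ⟨fun a => {v | Φ (a 0) (a 1) (a 2) v}, fun a => h1 _ _ _, fun T hT => ?_⟩
  obtain ⟨a, ha, b, hb, c, hc, v, hv, e1, e2, e3, e4⟩ := h3 T hT
  refine ⟨![a, b, c], fun i => ?_, v, hv, fun i => ?_, e4⟩
  · fin_cases i
    · exact ha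
    · exact hb
    · exact hc
  · fin_cases i
    · exact e1
    · exact e2
    · exact e3

theorem kill_lift {θ l : Cardinal.{u}} (hθ : ℵ₀ ≤ θ) (hl : ℵ₀ ≤ l) {A : Type} [Finite A]
    [Nonempty A] (hk : Kill l.ord.ToType θ A) :
    Kill (Order.succ l).ord.ToType θ (Option (A × Bool)) := by
  classical
  obtain ⟨Φ, hΦ1, hΦ2⟩ := hk
  have hsθ : ℵ₀ ≤ Order.succ θ := hθ.trans (Order.le_succ θ)
  have hreg : (Order.succ θ).IsRegular := Cardinal.isRegular_succ hθ
  let I := (Order.succ l).ord.ToType
  let L := l.ord.ToType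
  let Q := (Order.succ θ).ord.ToType
  have hLc : #L = l := Cardinal.mk_ord_toType _
  have hQc : #Q = Order.succ θ := Cardinal.mk_ord_toType _
  haveI : Nonempty L := by
    rw [← Cardinal.mk_ne_zero_iff, hLc]
    exact (Cardinal.aleph0_pos.trans_le hl).ne'
  haveI : Nonempty Q := by
    rw [← Cardinal.mk_ne_zero_iff, hQc]
    exact (Cardinal.aleph0_pos.trans_le hsθ).ne'
  haveI : Nonempty I := by
    rw [← Cardinal.mk_ne_zero_iff, Cardinal.mk_ord_toType]
    exact (Cardinal.aleph0_pos.trans_le (hl.trans (Order.le_succ l))).ne'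
  haveI : Inhabited Q := ⟨Classical.arbitrary Q⟩
  have hQlt : ∀ j : Q, #(Set.Iio j) < #Q := fun j => Cardinal.mk_Iio_lt j (by simp [Q])
  have hIle : ∀ i : I, #(Set.Iio i) ≤ #L := by
    intro i
    have h := Cardinal.mk_Iio_lt i (by simp [I])
    rw [Cardinal.mk_ord_toType, Order.lt_succ_iff] at h
    rwa [hLc]
  have he : ∀ z : I, ∃ e : I → L, ∀ x, x < z → ∀ y, y < z → e x = e y → x = y := by
    intro z
    obtain ⟨i⟩ := (Cardinal.le_def _ _).mp (hIle z)
    refine ⟨fun x => if h : x < z then i ⟨x, h⟩ else Classical.arbitrary L, fun x hx y hy h => ?_⟩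
    simp only [hx, hy, dif_pos] at h
    exact congrArg (fun q : Set.Iio z => q.1) (i.injective h)
  choose e he using he
  have hfin : ∀ (c : I) (F : Set L), F.Finite → {v | v < c ∧ e c v ∈ F}.Finite := by
    intro c F hF
    refine Set.Finite.of_finite_image (f := e c) (hF.subset ?_) ?_
    · rintro _ ⟨v, hv, rfl⟩
      exact hv.2
    · intro v hv v' hv' h
      exact he c v hv.1 v' hv'.1 h
  refine ⟨fun a => {v | v < a none ∧ e (a none) v ∈
      Φ (fun i => e (a (some (i, true))) (a (some (i, false))))} ∪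
      ⋃ p : Option (A × Bool) × Option (A × Bool) × Option (A × Bool),
        {v | v < a p.1 ∧ e (a p.1) v ∈ ({e (a p.2.1) (a p.2.2)} : Set L)}, fun a => ?_, ?_⟩
  · refine (hfin _ _ (hΦ1 _)).union (Set.finite_iUnion (fun p => hfin _ _ (Set.finite_singleton _)))
  intro T hT
  obtain ⟨s, hs1, hs2⟩ := exists_incr (L := Q) (I := I) hQlt (T := T) (by rw [hQc]; exact hT)
  -- choose interleaved points
  have hunb : ∀ b : Q, ∃ c, b < c := by
    intro b
    obtain ⟨h, -, hb⟩ := unbdd_of_card hsθ (S := (Set.univ : Set Q))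
      (by rw [Cardinal.mk_univ, hQc]) b
    exact ⟨h, hb⟩
  obtain ⟨D, hD⟩ := exists_rec (I := Q) (X := Q × Q)
    (fun i D p => p.1 < p.2 ∧ ∀ j, j < i → (D j).2 < p.1)
    (by
      rintro i D D' p h ⟨h1, h2⟩
      refine ⟨h1, fun j hj => ?_⟩
      rw [← h j hj]
      exact h2 j hj)
    (by
      intro i D
      obtain ⟨b, hb⟩ := bdd_reg hreg (M := Set.Iio i) (by
        have := hQlt i
        rwa [hQc] at this) (fun j => (D j.1).2)
      obtain ⟨c, hc⟩ := hunb b
      exact ⟨(b, c), hc, fun j hj => hb ⟨j, hj⟩⟩)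
  let x : Q → I := fun i => s (D i).1
  let t : Q → I := fun i => s (D i).2
  have hxt : ∀ i, x i < t i := fun i => hs1 (hD i).1
  have htx : ∀ i j, i < j → t i < x j := fun i j hij => hs1 ((hD j).2 i hij)
  have hxmono : StrictMono x := fun i j hij => (hxt i).trans (htx i j hij)
  have hne : ∀ i j, x i ≠ t j := by
    intro i j
    rcases lt_or_ge j i with h | h
    · exact (htx j i h).ne'
    · exact ((hxmono.monotone h).trans_lt (hxt j)).ne
  have hxT : ∀ i, x i ∈ T := fun i => hs2 _
  have htT : ∀ i, t i ∈ T := fun i => hs2 _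
  by_cases hG : Function.Injective (fun i => e (t i) (x i))
  · obtain ⟨a, ha, w, ⟨i0, hi0⟩, hw2, hw3⟩ := hΦ2 (Set.range (fun i => e (t i) (x i))) (by
      rw [Cardinal.mk_range_eq _ hG, hQc])
    choose idx hidx using ha
    have hidx' : ∀ i, e (t (idx i)) (x (idx i)) = a i := hidx
    refine ⟨fun o => match o with
      | none => t i0
      | some (i, true) => t (idx i)
      | some (i, false) => x (idx i), ?_, x i0, hxT i0, ?_, ?_⟩
    · rintro (_ | ⟨i, b⟩)
      · exact htT i0
      · cases b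
        · exact hxT _
        · exact htT _
    · rintro (_ | ⟨i, b⟩)
      · exact (hxt i0).ne
      · cases b
        · intro h
          apply hw2 i
          rw [← hidx' i, ← hi0]
          have : i0 = idx i := hxmono.injective h
          simp only
          rw [this]
        · exact hne _ _
    · refine Or.inl ⟨hxt i0, ?_⟩
      have h1 : (fun i => e (t (idx i)) (x (idx i))) = a := funext hidx'
      simp only
      rw [h1]
      have h2 : e (t i0) (x i0) = w := hi0
      rw [h2]
      exact hw3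
  · simp only [Function.Injective] at hG
    push Not at hG
    obtain ⟨i, i', hii, hne'⟩ := hG
    refine ⟨fun o => match o with
      | none => t i'
      | some (_, true) => t i
      | some (_, false) => x i, ?_, x i', hxT i', ?_, ?_⟩
    · rintro (_ | ⟨_, b⟩)
      · exact htT i'
      · cases b
        · exact hxT _
        · exact htT _
    · rintro (_ | ⟨_, b⟩)
      · exact (hxt i').ne
      · cases b
        · exact fun h => hne' (hxmono.injective h).symm
        · exact hne _ _
    · refine Or.inr ?_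
      let i1 : A := Classical.arbitrary A
      rw [Set.mem_iUnion]
      refine ⟨(none, some (i1, true), some (i1, false)), hxt i', ?_⟩
      simp only [Set.mem_singleton_iff]
      exact hii.symm

theorem kill_all {θ : Cardinal.{u}} (hθ : ℵ₀ ≤ θ) (h2 : (2 : Cardinal.{u}) ^ θ = Order.succ θ) (m : ℕ) :
    ∃ A : Type, ∃ _ : Fintype A, Nonempty A ∧ Fintype.card A + 1 = 2 ^ (m + 2) ∧
      Kill (Order.succ^[m + 2] θ).ord.ToType θ A := by
  induction m with
  | zero => exact ⟨Fin 3, inferInstance, inferInstance, by simp, kill_base hθ h2⟩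
  | succ m ih =>
    obtain ⟨A, hA, hne, hc, hk⟩ := ih
    have hle : ∀ k : ℕ, θ ≤ Order.succ^[k] θ := by
      intro k
      induction k with
      | zero => exact le_rfl
      | succ k ihk =>
        rw [Function.iterate_succ_apply']
        exact ihk.trans (Order.le_succ _)
    refine ⟨Option (A × Bool), inferInstance, inferInstance, ?_, ?_⟩
    · rw [Fintype.card_option, Fintype.card_prod, Fintype.card_bool, pow_succ]
      omega
    · have h3 := kill_lift hθ (hθ.trans (hle (m + 2))) hk
      rw [show m + 1 + 2 = (m + 2) + 1 from rfl, Function.iterate_succ_apply']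
      exact h3

/-- from tuples to subsets -/
theorem to_finset {I S : Type u} {θ : Cardinal.{u}} (hθ : ℵ₀ ≤ θ) {A : Type} [Fintype A]
    (hk : Kill I θ A) (hS : #S = #I) (n : ℕ) (hn : Fintype.card A ≤ n) :
    ∃ f : Finset S → Set S,
      (∀ X : Finset S, X.card = n → (f X).Finite ∧ Disjoint (↑X : Set S) (f X)) ∧
      ∀ T : Set S,
        (∀ X : Finset S, X.card = n → (↑X : Set S) ⊆ T → Disjoint T (f X)) →
        #T < Order.succ θ := by
  classical
  obtain ⟨Φ, h1, h2⟩ := hk
  obtain ⟨E⟩ := Cardinal.eq.mp hS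
  refine ⟨fun X => (⋃ a : A → X, E ⁻¹' (Φ (fun i => E (a i).1))) \ ↑X, fun X _ => ⟨?_, ?_⟩, ?_⟩
  · refine Set.Finite.subset (Set.finite_iUnion (fun a => ?_)) Set.diff_subset
    exact (h1 _).preimage (E.injective.injOn)
  · exact Set.disjoint_sdiff_right
  intro T hT
  by_contra hcon
  push Not at hcon
  obtain ⟨a, ha, v, hv, hva, hvΦ⟩ := h2 (E '' T) (by
    rw [Cardinal.mk_image_eq E.injective]; exact hcon)
  obtain ⟨v', hv', rfl⟩ := hv
  choose b hb1 hb2 using ha
  -- a subset of size n containing the tuple and avoiding `v'`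
  have hinf : (T \ {v'}).Infinite := by
    intro hfin
    have h3 : T.Finite := (hfin.union (Set.finite_singleton v')).subset (fun x hx => by
      by_cases h : x = v'
      · exact Or.inr h
      · exact Or.inl ⟨hx, h⟩)
    have h4 := Cardinal.lt_aleph0_iff_set_finite.mpr h3
    exact absurd (hcon.trans_lt h4) (not_lt.mpr (hθ.trans (Order.le_succ θ)))
  let R : Finset S := Finset.univ.image b
  have hR : (R : Set S) ⊆ T \ {v'} := by
    intro x hx
    simp only [R, Finset.coe_image, Finset.coe_univ, Set.image_univ, Set.mem_range] at hx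
    obtain ⟨i, rfl⟩ := hx
    refine ⟨hb1 i, fun h => hva i ?_⟩
    rw [Set.mem_singleton_iff] at h
    rw [← h]
    exact hb2 i
  have hRc : R.card ≤ n := (Finset.card_image_le).trans (by rw [Finset.card_univ]; exact hn)
  obtain ⟨X, hX1, hX2, hX3⟩ : ∃ X : Finset S, R ⊆ X ∧ (X : Set S) ⊆ T \ {v'} ∧ X.card = n := by
    obtain ⟨Y, hY1, hY2⟩ := (hinf.diff R.finite_toSet).exists_subset_card_eq (n - R.card)
    refine ⟨R ∪ Y, Finset.subset_union_left, ?_, ?_⟩
    · rw [Finset.coe_union]
      exact Set.union_subset hR (hY1.trans Set.diff_subset)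
    · rw [Finset.card_union_of_disjoint, hY2]
      · omega
      · rw [Finset.disjoint_left]
        intro x hx hxY
        exact (hY1 hxY).2 hx
  have hdis := hT X hX3 (hX2.trans Set.diff_subset)
  rw [Set.disjoint_left] at hdis
  refine hdis hv' ⟨?_, fun h => (hX2 h).2 rfl⟩
  rw [Set.mem_iUnion]
  refine ⟨fun i => ⟨b i, hX1 (by simp [R])⟩, ?_⟩
  have h5 : (fun i => E (b i)) = a := funext hb2
  show E v' ∈ Φ (fun i => E (b i))
  rw [h5]
  exact hvΦ

theorem main {κ : Cardinal.{u}} (hκ : ℵ₀ ≤ κ) (m n : ℕ) (hm : 2 ≤ m) (hmn : 2 ^ m ≤ n + 1)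
    (h2 : (2 : Cardinal.{u}) ^ (Order.succ^[n - m] κ) = Order.succ (Order.succ^[n - m] κ))
    (S : Type u) (hS : #S = Order.succ^[n] κ) :
    ∃ f : Finset S → Set S,
      (∀ X : Finset S, X.card = n → (f X).Finite ∧ Disjoint (↑X : Set S) (f X)) ∧
      ∀ T : Set S,
        (∀ X : Finset S, X.card = n → (↑X : Set S) ⊆ T → Disjoint T (f X)) →
        #T < Order.succ^[n + 1 - m] κ := by
  have hle : ∀ k : ℕ, κ ≤ Order.succ^[k] κ := by
    intro k
    induction k with
    | zero => exact le_rfl
    | succ k ihk =>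
      rw [Function.iterate_succ_apply']
      exact ihk.trans (Order.le_succ _)
  have hmn' : m ≤ n := by
    have := Nat.lt_two_pow_self (n := m)
    omega
  obtain ⟨A, hA, -, hc, hk⟩ := kill_all (hκ.trans (hle (n - m))) h2 (m - 2)
  rw [show m - 2 + 2 = m from by omega] at hc hk
  have h3 := to_finset (S := S) (hκ.trans (hle (n - m))) hk (by
    rw [Cardinal.mk_ord_toType, hS, ← Function.iterate_add_apply]
    congr 2
    omega) n (by omega)
  rw [show n + 1 - m = (n - m) + 1 from by omega, Function.iterate_succ_apply']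
  exact h3

end Pool.Agent.Helper397.H2
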