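import Pool.Agent.Helper397.H2

set_option autoImplicit false

namespace Pool.Agent.Helper397.K1

open Cardinal
open Pool.Agent.Helper397.E1 Pool.Agent.Helper397.E2 Pool.Agent.Helper397.E4
open Pool.Agent.Helper397.E5 Pool.Agent.Helper397.H1 Pool.Agent.Helper397.H2

universe u

section hull

variable {L : ℕ → Type u} [∀ j, LinearOrder (L j)]

/-- closure of a set of elements of level `J` -/
inductive Hull (e : ∀ j, L (j + 1) → L (j + 1) → L j) {J : ℕ} (X : Set (L J)) :
    ∀ j, L j → Prop
  | base (x : L J) (hx : x ∈ X) : Hull e X J x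
  | zero (x : L 0) : Hull e X 0 x
  | down (j : ℕ) (z x : L (j + 1)) (hz : Hull e X (j + 1) z) (hx : Hull e X (j + 1) x) :
      Hull e X j (e j z x)
  | up (j : ℕ) (z x : L (j + 1)) (h : x < z) (hz : Hull e X (j + 1) z)
      (hx : Hull e X j (e j z x)) : Hull e X (j + 1) x

variable {e : ∀ j, L (j + 1) → L (j + 1) → L j}

theorem Hull.trans {J J' : ℕ} {X : Set (L J)} {Y : Set (L J')}
    (h : ∀ x ∈ X, Hull e Y J x) {j : ℕ} {w : L j} (hw : Hull e X j w) : Hull e Y j w := by
  induction hw with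
  | base x hx => exact h x hx
  | zero x => exact Hull.zero x
  | down j z x _ _ h1 h2 => exact Hull.down j z x h1 h2
  | up j z x hlt _ _ h1 h2 => exact Hull.up j z x hlt h1 h2

theorem Hull.mono {J : ℕ} {X Y : Set (L J)} (h : X ⊆ Y) {j : ℕ} {w : L j}
    (hw : Hull e X j w) : Hull e Y j w :=
  Hull.trans (fun x hx => Hull.base x (h hx)) hw

theorem Hull.fin {J : ℕ} {X : Set (L J)} {j : ℕ} {w : L j} (hw : Hull e X j w) :
    ∃ F : Finset (L J), (F : Set (L J)) ⊆ X ∧ Hull e (F : Set (L J)) j w := by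
  classical
  induction hw with
  | base x hx =>
    exact ⟨{x}, by simpa using hx, Hull.base x (by simp)⟩
  | zero x => exact ⟨∅, by simp, Hull.zero x⟩
  | down j z x _ _ h1 h2 =>
    obtain ⟨F1, hF1, h1⟩ := h1
    obtain ⟨F2, hF2, h2⟩ := h2
    refine ⟨F1 ∪ F2, by rw [Finset.coe_union]; exact Set.union_subset hF1 hF2, ?_⟩
    rw [Finset.coe_union]
    exact Hull.down j z x (h1.mono Set.subset_union_left) (h2.mono Set.subset_union_right)
  | up j z x hlt _ _ h1 h2 =>
    obtain ⟨F1, hF1, h1⟩ := h1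
    obtain ⟨F2, hF2, h2⟩ := h2
    refine ⟨F1 ∪ F2, by rw [Finset.coe_union]; exact Set.union_subset hF1 hF2, ?_⟩
    rw [Finset.coe_union]
    exact Hull.up j z x hlt (h1.mono Set.subset_union_left) (h2.mono Set.subset_union_right)

/-- the lemma of Kuratowski and Sierpinski -/
theorem kuratowski : ∀ (J : ℕ) (X : Finset (L J)),
    ∃ X' : Finset (L J), X' ⊆ X ∧ X'.card ≤ J ∧ ∀ x ∈ X, Hull e (X' : Set (L J)) J x := by
  classical
  intro J
  induction J with
  | zero => exact fun X => ⟨∅, by simp, by simp, fun x _ => Hull.zero x⟩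
  | succ J ih =>
    intro X
    rcases X.eq_empty_or_nonempty with rfl | hne
    · exact ⟨∅, by simp, by simp, by simp⟩
    let z := X.max' hne
    have hz : z ∈ X := Finset.max'_mem X hne
    obtain ⟨Y, hY1, hY2, hY3⟩ := ih ((X.filter (· < z)).image (e J z))
    have hpull : ∀ y : L J, ∃ x : L (J + 1), y ∈ Y → x ∈ X ∧ x < z ∧ e J z x = y := by
      intro y
      by_cases hy : y ∈ Y
      · have := hY1 hy
        simp only [Finset.mem_image, Finset.mem_filter] at this
        obtain ⟨x, ⟨h1, h2⟩, h3⟩ := this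
        exact ⟨x, fun _ => ⟨h1, h2, h3⟩⟩
      · exact ⟨z, fun h => absurd h hy⟩
    choose p hp using hpull
    refine ⟨insert z (Y.image p), ?_, ?_, ?_⟩
    · intro x hx
      rw [Finset.mem_insert, Finset.mem_image] at hx
      rcases hx with rfl | ⟨y, hy, rfl⟩
      · exact hz
      · exact (hp y hy).1
    · refine (Finset.card_insert_le _ _).trans ?_
      have := (Finset.card_image_le (s := Y) (f := p)).trans hY2
      omega
    · intro x hx
      have hzH : Hull e ((insert z (Y.image p) : Finset (L (J + 1))) : Set (L (J + 1))) (J + 1) z :=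
        Hull.base z (by simp)
      have hYH : ∀ y ∈ (Y : Set (L J)),
          Hull e ((insert z (Y.image p) : Finset (L (J + 1))) : Set (L (J + 1))) J y := by
        intro y hy
        have hy' : y ∈ Y := hy
        have h1 := Hull.down (e := e) J z (p y) hzH (Hull.base (p y) (by
          rw [Finset.coe_insert]
          refine Or.inr ?_
          rw [Finset.mem_coe]
          exact Finset.mem_image_of_mem p hy'))
        rwa [(hp y hy').2.2] at h1
      rcases eq_or_lt_of_le (Finset.le_max' X x hx) with h | h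
      · have hxz : x = z := h
        rw [hxz]
        exact hzH
      · refine Hull.up J z x h hzH (Hull.trans hYH (hY3 _ ?_))
        exact Finset.mem_image_of_mem _ (Finset.mem_filter.mpr ⟨hx, h⟩)

/-- closures under two binary functions -/
theorem card_closure {Ω : Type u} {κ : Cardinal.{u}} (hκ : ℵ₀ ≤ κ) (F G : Ω → Ω → Ω) (A : Set Ω)
    (hA : #A ≤ κ) : ∃ C : Set Ω, A ⊆ C ∧ #C ≤ κ ∧ (∀ a ∈ C, ∀ b ∈ C, F a b ∈ C) ∧
      (∀ a ∈ C, ∀ b ∈ C, G a b ∈ C) := by
  let S : ℕ → Set Ω := fun n => Nat.rec A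
    (fun _ s => s ∪ (Set.image2 F s s ∪ Set.image2 G s s)) n
  have hS0 : S 0 = A := rfl
  have hS1 : ∀ n, S (n + 1) = S n ∪ (Set.image2 F (S n) (S n) ∪ Set.image2 G (S n) (S n)) :=
    fun n => rfl
  have hmono : Monotone S := by
    refine monotone_nat_of_le_succ fun n => ?_
    rw [hS1]
    exact Set.subset_union_left
  have hcard : ∀ n : ℕ, #(↥(S n)) ≤ κ := by
    intro n
    induction n with
    | zero => rw [hS0]; exact hA
    | succ n ih =>
      rw [hS1]
      have h2 : ∀ H : Ω → Ω → Ω, #(↥(Set.image2 H (S n) (S n))) ≤ κ := by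
        intro H
        refine (Cardinal.mk_image2_le).trans ?_
        exact (mul_le_mul' ih ih).trans_eq (Cardinal.mul_eq_self hκ)
      refine (Cardinal.mk_union_le _ _).trans ?_
      refine (add_le_add ih ((Cardinal.mk_union_le _ _).trans (add_le_add (h2 F) (h2 G)))).trans ?_
      rw [Cardinal.add_eq_self hκ, Cardinal.add_eq_self hκ]
  refine ⟨⋃ n, S n, ?_, ?_, ?_, ?_⟩
  · rw [← hS0]
    exact Set.subset_iUnion S 0
  · have h1 := Cardinal.mk_iUnion_le_lift S
    rw [Cardinal.lift_id'.{0, u}] at h1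
    refine h1.trans ?_
    have h2 : (⨆ n, Cardinal.lift.{0} #(↥(S n))) ≤ κ := by
      refine ciSup_le' fun n => ?_
      rw [Cardinal.lift_id'.{0, u}]
      exact hcard n
    refine (mul_le_mul' ?_ h2).trans_eq (Cardinal.mul_eq_self hκ)
    rw [Cardinal.mk_nat, Cardinal.lift_aleph0]
    exact hκ
  · intro a ha b hb
    rw [Set.mem_iUnion] at ha hb ⊢
    obtain ⟨n, hn⟩ := ha
    obtain ⟨m, hm⟩ := hb
    refine ⟨max n m + 1, ?_⟩
    rw [hS1]
    exact Or.inr (Or.inl ⟨a, hmono (le_max_left _ _) hn, b, hmono (le_max_right _ _) hm, rfl⟩)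
  · intro a ha b hb
    rw [Set.mem_iUnion] at ha hb ⊢
    obtain ⟨n, hn⟩ := ha
    obtain ⟨m, hm⟩ := hb
    refine ⟨max n m + 1, ?_⟩
    rw [hS1]
    exact Or.inr (Or.inr ⟨a, hmono (le_max_left _ _) hn, b, hmono (le_max_right _ _) hm, rfl⟩)

end hull

end Pool.Agent.Helper397.K1
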