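import Pool.Agent.Helper397.K1

set_option autoImplicit false

namespace Pool.Agent.Helper397.K2

open Cardinal
open Pool.Agent.Helper397.E1 Pool.Agent.Helper397.E2 Pool.Agent.Helper397.E4
open Pool.Agent.Helper397.E5 Pool.Agent.Helper397.H1 Pool.Agent.Helper397.H2
open Pool.Agent.Helper397.K1

universe u

section

variable {L : ℕ → Type u} [∀ j, LinearOrder (L j)]

/-- reduction of an element along a sequence of guides -/
def red (e : ∀ j, L (j + 1) → L (j + 1) → L j) :
    ∀ (k j : ℕ), (Fin k → L (j + k)) → L (j + k) → L j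
  | 0, _, _, x => x
  | k + 1, j, z, x => red e k j (fun i => e (j + k) (z 0) (z i.succ)) (e (j + k) (z 0) x)

def val (e : ∀ j, L (j + 1) → L (j + 1) → L j) :
    ∀ (k j : ℕ), (Fin k → L (j + k)) → L (j + k) → Prop
  | 0, _, _, _ => True
  | k + 1, j, z, x => x < z 0 ∧
      val e k j (fun i => e (j + k) (z 0) (z i.succ)) (e (j + k) (z 0) x)

variable {e : ∀ j, L (j + 1) → L (j + 1) → L j}

theorem red_inj (he : ∀ j z x y, x < z → y < z → e j z x = e j z y → x = y) :
    ∀ (k j : ℕ) (z : Fin k → L (j + k)) (x x' : L (j + k)), val e k j z x → val e k j z x' →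
      red e k j z x = red e k j z x' → x = x' := by
  intro k
  induction k with
  | zero => exact fun j z x x' _ _ h => h
  | succ k ih =>
    intro j z x x' h1 h2 h
    exact he (j + k) (z 0) x x' h1.1 h2.1 (ih j _ _ _ h1.2 h2.2 h)

theorem val_ne : ∀ (k j : ℕ) (z : Fin k → L (j + k)) (x : L (j + k)), val e k j z x →
    ∀ i, x ≠ z i := by
  intro k
  induction k with
  | zero => exact fun j z x _ i => i.elim0
  | succ k ih =>
    intro j z x h i
    refine Fin.cases ?_ (fun i => ?_) i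
    · exact h.1.ne
    · intro hx
      refine ih j _ _ h.2 i ?_
      rw [hx]

theorem red_hull {J : ℕ} {X : Set (L J)} : ∀ (k j : ℕ) (z : Fin k → L (j + k)) (x : L (j + k)),
    (∀ i, Hull e X (j + k) (z i)) → Hull e X (j + k) x → Hull e X j (red e k j z x) := by
  intro k
  induction k with
  | zero => exact fun j z x _ h => h
  | succ k ih =>
    intro j z x hz hx
    exact ih j _ _ (fun i => Hull.down (j + k) (z 0) (z i.succ) (hz 0) (hz i.succ))
      (Hull.down (j + k) (z 0) x (hz 0) hx)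

theorem exists_tuple (he : ∀ j z x y, x < z → y < z → e j z x = e j z y → x = y) :
    ∀ (k j : ℕ) (t : Fin (k + 1) → L (j + k)), Function.Injective t →
      ∃ (z : Fin k → L (j + k)) (x : L (j + k)), (∀ i, z i ∈ Set.range t) ∧ x ∈ Set.range t ∧
        val e k j z x := by
  classical
  intro k
  induction k with
  | zero => exact fun j t _ => ⟨Fin.elim0, t 0, fun i => i.elim0, ⟨0, rfl⟩, trivial⟩
  | succ k ih =>
    intro j t ht
    obtain ⟨m, -, hm⟩ := Finset.exists_max_image Finset.univ t ⟨0, Finset.mem_univ _⟩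
    have hlt : ∀ i : Fin (k + 1), t (m.succAbove i) < t m := by
      intro i
      refine lt_of_le_of_ne (hm _ (Finset.mem_univ _)) (fun h => ?_)
      exact Fin.succAbove_ne m i (ht h)
    obtain ⟨z, x, h1, ⟨x', hx'⟩, h3⟩ := ih j (fun i => e (j + k) (t m) (t (m.succAbove i))) (by
      intro a b hab
      exact Fin.succAbove_right_injective (ht (he (j + k) (t m) _ _ (hlt a) (hlt b) hab)))
    choose w hw using h1
    refine ⟨Fin.cons (t m) (fun i => t (m.succAbove (w i))), t (m.succAbove x'), ?_, ⟨_, rfl⟩, ?_⟩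
    · intro i
      refine Fin.cases ?_ (fun i => ?_) i
      · exact ⟨m, rfl⟩
      · exact ⟨_, rfl⟩
    · refine ⟨?_, ?_⟩
      · rw [Fin.cons_zero]
        exact hlt x'
      · simp only [Fin.cons_zero, Fin.cons_succ]
        have e1 : (fun i => e (j + k) (t m) (t (m.succAbove (w i)))) = z := funext hw
        have e2 : e (j + k) (t m) (t (m.succAbove x')) = x := hx'
        rw [e1, e2]
        exact h3

variable [∀ j, WellFoundedLT (L j)]

theorem exists_pred (hlt : ∀ j (w : L j), #(Set.Iio w) < #(L j))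
    (hw : ∀ k, ∃ w : L (k + 1), #(L k) ≤ #(Set.Iio w)) {m k : ℕ} (S : Set (L m))
    (hS : #(L (k + 1)) ≤ #S) : ∃ z ∈ S, #(L k) ≤ #{x | x ∈ S ∧ x < z} := by
  obtain ⟨w, hw⟩ := hw k
  haveI : Nonempty (L m) := by
    by_contra hcon
    rw [not_nonempty_iff] at hcon
    have h1 : #S = 0 := by
      rw [Cardinal.mk_eq_zero_iff]
      exact ⟨fun x => hcon.elim x.1⟩
    rw [h1, nonpos_iff_eq_zero, Cardinal.mk_eq_zero_iff] at hS
    exact hS.elim w
  obtain ⟨s, hs1, hs2⟩ := exists_incr (L := L (k + 1)) (I := L m) (hlt (k + 1)) hS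
  refine ⟨s w, hs2 w, hw.trans ?_⟩
  refine Cardinal.mk_le_of_injective (f := fun (i : Set.Iio w) =>
    (⟨s i.1, hs2 i.1, hs1 i.2⟩ : {x | x ∈ S ∧ x < s w})) ?_
  intro i i' h
  exact Subtype.ext (hs1.injective (congrArg (fun q : {x | x ∈ S ∧ x < s w} => q.1) h))

theorem losing (he : ∀ j z x y, x < z → y < z → e j z x = e j z y → x = y)
    (hlt : ∀ j (w : L j), #(Set.Iio w) < #(L j))
    (hw : ∀ k, ∃ w : L (k + 1), #(L k) ≤ #(Set.Iio w)) :
    ∀ (k j : ℕ) (S : Set (L (j + k))), #(L k) ≤ #S →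
      ∃ z : Fin k → L (j + k), (∀ i, z i ∈ S) ∧ #(L 0) ≤ #{t | t ∈ S ∧ val e k j z t} := by
  intro k
  induction k with
  | zero =>
    intro j S hS
    refine ⟨Fin.elim0, fun i => i.elim0, hS.trans (Cardinal.mk_le_mk_of_subset ?_)⟩
    exact fun t ht => ⟨ht, trivial⟩
  | succ k ih =>
    intro j S hS
    obtain ⟨z0, hz0, hz1⟩ := exists_pred hlt hw S hS
    have h1 : #(L k) ≤ #(e (j + k) z0 '' {x | x ∈ S ∧ x < z0}) := by
      rw [Cardinal.mk_image_eq_of_injOn _ _ (fun x hx y hy h => he (j + k) z0 x y hx.2 hy.2 h)]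
      exact hz1
    obtain ⟨z, hz, hz2⟩ := ih j _ h1
    choose w hw' using hz
    refine ⟨Fin.cons z0 w, ?_, hz2.trans ?_⟩
    · intro i
      refine Fin.cases ?_ (fun i => ?_) i
      · exact hz0
      · rw [Fin.cons_succ]
        exact (hw' i).1.1
    · have hsub : {t | t ∈ e (j + k) z0 '' {x | x ∈ S ∧ x < z0} ∧ val e k j z t} ⊆
          e (j + k) z0 '' {t | t ∈ S ∧ val e (k + 1) j (Fin.cons z0 w) t} := by
        rintro _ ⟨⟨t, ⟨ht1, ht2⟩, rfl⟩, ht3⟩
        refine ⟨t, ⟨ht1, ?_, ?_⟩, rfl⟩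
        · rw [Fin.cons_zero]
          exact ht2
        · simp only [Fin.cons_zero, Fin.cons_succ]
          have e1 : (fun i => e (j + k) z0 (w i)) = z := funext fun i => (hw' i).2
          rw [e1]
          exact ht3
      exact (Cardinal.mk_le_mk_of_subset hsub).trans Cardinal.mk_image_le

theorem full (he : ∀ j z x y, x < z → y < z → e j z x = e j z y → x = y)
    (hlt : ∀ j (w : L j), #(Set.Iio w) < #(L j))
    (hw : ∀ k, ∃ w : L (k + 1), #(L k) ≤ #(Set.Iio w))
    (hinf : ∀ j, ℵ₀ ≤ #(L j)) {J : ℕ} (X : Set (L J)) :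
    ∀ j, #(L j) ≤ #{w | Hull e X j w} → ∀ w, Hull e X j w := by
  intro j
  induction j with
  | zero => exact fun _ w => Hull.zero w
  | succ j ih =>
    intro hj w
    obtain ⟨z, hz, hz1⟩ := exists_pred hlt hw {w | Hull e X (j + 1) w} hj
    have h1 : #(L j) ≤ #{w | Hull e X j w} := by
      refine hz1.trans ?_
      refine Cardinal.mk_le_of_injective
        (f := fun (x : {x | x ∈ {w | Hull e X (j + 1) w} ∧ x < z}) =>
          (⟨e j z x.1, Hull.down j z x.1 hz x.2.1⟩ : {w | Hull e X j w})) ?_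
      intro x y h
      exact Subtype.ext (he j z x.1 y.1 x.2.2 y.2.2
        (congrArg (fun q : {w | Hull e X j w} => q.1) h))
    have h2 := ih h1
    obtain ⟨z', hz', hwz⟩ : ∃ z', Hull e X (j + 1) z' ∧ w < z' := by
      by_contra hcon
      push Not at hcon
      have hsub : {w | Hull e X (j + 1) w} ⊆ Set.Iio w ∪ {w} := by
        intro x hx
        rcases lt_or_eq_of_le (hcon x hx) with h | h
        · exact Or.inl h
        · exact Or.inr h
      have h3 := hj.trans ((Cardinal.mk_le_mk_of_subset hsub).trans (Cardinal.mk_union_le _ _))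
      refine absurd h3 (not_le.mpr (Cardinal.add_lt_of_lt (hinf (j + 1)) (hlt _ w) ?_))
      rw [Cardinal.mk_singleton]
      exact Cardinal.one_lt_aleph0.trans_le (hinf (j + 1))
    exact Hull.up j z' w hwz hz' (h2 _)

/-- the hull of a small set is small -/
theorem card_hull (hinf : ℵ₀ ≤ #(L 0))
    (he : ∀ j z x y, x < z → y < z → e j z x = e j z y → x = y)
    {J : ℕ} (X : Set (L J)) (hX : #X ≤ #(L 0)) (j : ℕ) :
    #{w | Hull e X j w} ≤ #(L 0) := by
  classical
  let Ω : Type u := Σ j, L j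
  let R : Ω → Ω → Ω → Prop := fun a b c =>
    ∃ j, ∃ z x : L (j + 1), a = ⟨j + 1, z⟩ ∧ b = ⟨j + 1, x⟩ ∧ c = ⟨j, e j z x⟩
  let R' : Ω → Ω → Ω → Prop := fun a b c =>
    ∃ j, ∃ z x : L (j + 1), x < z ∧ a = ⟨j + 1, z⟩ ∧ b = ⟨j, e j z x⟩ ∧ c = ⟨j + 1, x⟩
  have hR : ∀ a b c c', R a b c → R a b c' → c = c' := by
    rintro a b c c' ⟨j, z, x, rfl, rfl, rfl⟩ ⟨j', z', x', h1, h2, rfl⟩
    rw [Sigma.mk.injEq, Nat.add_right_cancel_iff] at h1
    obtain ⟨rfl, h1⟩ := h1
    rw [heq_eq_eq] at h1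
    subst h1
    rw [Sigma.mk.injEq, heq_eq_eq] at h2
    rw [h2.2]
  have hR' : ∀ a b c c', R' a b c → R' a b c' → c = c' := by
    rintro a b c c' ⟨j, z, x, hx, rfl, rfl, rfl⟩ ⟨j', z', x', hx', h1, h2, rfl⟩
    rw [Sigma.mk.injEq, Nat.add_right_cancel_iff] at h1
    obtain ⟨rfl, h1⟩ := h1
    rw [heq_eq_eq] at h1
    subst h1
    rw [Sigma.mk.injEq, heq_eq_eq] at h2
    rw [he j z x x' hx hx' h2.2]
  let F : Ω → Ω → Ω := fun a b => if h : ∃ c, R a b c then Classical.choose h else a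
  let G : Ω → Ω → Ω := fun a b => if h : ∃ c, R' a b c then Classical.choose h else a
  have hF : ∀ a b c, R a b c → F a b = c := by
    intro a b c h
    have hex : ∃ c, R a b c := ⟨c, h⟩
    simp only [F, hex, dif_pos]
    exact hR _ _ _ _ (Classical.choose_spec hex) h
  have hG : ∀ a b c, R' a b c → G a b = c := by
    intro a b c h
    have hex : ∃ c, R' a b c := ⟨c, h⟩
    simp only [G, hex, dif_pos]
    exact hR' _ _ _ _ (Classical.choose_spec hex) h
  obtain ⟨C, hAC, hC, hC1, hC2⟩ := card_closure (Ω := Ω) hinf F G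
    ((fun x => (⟨J, x⟩ : Ω)) '' X ∪ Set.range (fun x : L 0 => (⟨0, x⟩ : Ω))) (by
      refine (Cardinal.mk_union_le _ _).trans ?_
      refine (add_le_add (Cardinal.mk_image_le.trans hX) Cardinal.mk_range_le).trans ?_
      rw [Cardinal.add_eq_self hinf])
  have hsub : ∀ j (w : L j), Hull e X j w → (⟨j, w⟩ : Ω) ∈ C := by
    intro j w hw
    induction hw with
    | base x hx => exact hAC (Or.inl ⟨x, hx, rfl⟩)
    | zero x => exact hAC (Or.inr ⟨x, rfl⟩)
    | down j z x _ _ h1 h2 =>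
      have := hC1 _ h1 _ h2
      rwa [hF _ _ _ ⟨j, z, x, rfl, rfl, rfl⟩] at this
    | up j z x hlt _ _ h1 h2 =>
      have := hC2 _ h1 _ h2
      rwa [hG _ _ _ ⟨j, z, x, hlt, rfl, rfl, rfl⟩] at this
  refine le_trans (Cardinal.mk_le_of_injective
    (f := fun (w : {w | Hull e X j w}) => (⟨⟨j, w.1⟩, hsub j w.1 w.2⟩ : C)) ?_) hC
  intro w w' h
  have h1 : (⟨j, w.1⟩ : Ω) = ⟨j, w'.1⟩ := congrArg (fun q : C => q.1) h
  rw [Sigma.mk.injEq, heq_eq_eq] at h1
  exact Subtype.ext h1.2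

end

/-- one function catches few large sets, avoiding a finite set -/
theorem exists_H' {J I : Type u} [LinearOrder J] [WellFoundedLT J] [Nonempty J]
    (hJ : ∀ j : J, #(Set.Iio j) < #J) (hinf : ℵ₀ ≤ #J) [Nonempty I]
    (F : Set (J → I)) (hF : #F ≤ #J) (hinj : ∀ g ∈ F, Function.Injective g) (Y : Set I)
    (hY : Y.Finite) :
    ∃ H : I → I → Prop, (∀ x v v', H x v → H x v' → v = v') ∧
      ∀ g ∈ F, ∃ x v, x ∈ Set.range g ∧ v ∈ Set.range g ∧ v ≠ x ∧ v ∉ Y ∧ H x v := by
  classical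
  rcases F.eq_empty_or_nonempty with hF0 | ⟨g0, hg0⟩
  · refine ⟨fun _ _ => False, fun _ _ _ h => h.elim, fun g hg => ?_⟩
    rw [hF0] at hg
    exact hg.elim
  obtain ⟨t, ht⟩ := exists_cover F hF
  let t' : J → (J → I) := fun j => if t j ∈ F then t j else g0
  have ht' : ∀ j, t' j ∈ F := by
    intro j
    by_cases h : t j ∈ F
    · simp only [t', h, if_true]
    · simp only [t', h, if_false]
      exact hg0
  have hcov : ∀ g ∈ F, ∃ j, t' j = g := by
    intro g hg
    obtain ⟨j, hj⟩ := ht hg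
    refine ⟨j, ?_⟩
    have : t j ∈ F := by rw [hj]; exact hg
    simp only [t', this, if_true]
    exact hj
  have hbig : ∀ (j : J) (Z : Set I), Z.Finite → #J ≤ #(((Set.range (t' j)) \ Z : Set I)) := by
    intro j Z hZ
    have h1 : #(Set.range (t' j)) = #J := Cardinal.mk_range_eq _ (hinj _ (ht' j))
    by_contra hcon
    push Not at hcon
    have h2 : Set.range (t' j) ⊆ (Set.range (t' j) \ Z) ∪ Z := by
      intro x hx
      by_cases h : x ∈ Z
      · exact Or.inr h
      · exact Or.inl ⟨hx, h⟩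
    have h3 := (Cardinal.mk_le_mk_of_subset h2).trans (Cardinal.mk_union_le _ _)
    rw [h1] at h3
    have h4 : #Z < #J := by
      refine lt_of_lt_of_le ?_ hinf
      exact Cardinal.lt_aleph0_iff_set_finite.mpr hZ
    exact absurd h3 (not_le.mpr (Cardinal.add_lt_of_lt hinf hcon h4))
  obtain ⟨x, hx1, hx2⟩ := exists_sdr hJ (fun j => Set.range (t' j))
    (fun j => (Cardinal.mk_range_eq _ (hinj _ (ht' j))).ge)
  have hv : ∀ j, ∃ v, v ∈ Set.range (t' j) \ (Y ∪ {x j}) := by
    intro j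
    have h1 := hbig j (Y ∪ {x j}) (hY.union (Set.finite_singleton _))
    have h2 : #(((Set.range (t' j)) \ (Y ∪ {x j}) : Set I)) ≠ 0 := by
      intro h
      rw [h] at h1
      exact absurd (hinf.trans h1) (not_le.mpr Cardinal.aleph0_pos)
    rw [Cardinal.mk_ne_zero_iff] at h2
    obtain ⟨v⟩ := h2
    exact ⟨v.1, v.2⟩
  choose v hv using hv
  refine ⟨fun a b => ∃ j, a = x j ∧ b = v j, ?_, fun g hg => ?_⟩
  · rintro a b b' ⟨j, h1, h2⟩ ⟨j', h1', h2'⟩
    have : j = j' := hx1 (h1.symm.trans h1')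
    rw [h2, h2', this]
  · obtain ⟨j, rfl⟩ := hcov g hg
    have h1 := hx2 j
    have h2 := hv j
    refine ⟨x j, v j, h1, h2.1, fun h => h2.2 (Or.inr h), fun h => h2.2 (Or.inl h), j, rfl, rfl⟩

end Pool.Agent.Helper397.K2
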