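import Pool.Agent.Helper397.K2

set_option autoImplicit false

namespace Pool.Agent.Helper397.K3

open Cardinal
open Pool.Agent.Helper397.E1 Pool.Agent.Helper397.E2 Pool.Agent.Helper397.E4
open Pool.Agent.Helper397.E5 Pool.Agent.Helper397.H1 Pool.Agent.Helper397.H2
open Pool.Agent.Helper397.K1 Pool.Agent.Helper397.K2

universe u

section

variable {L : ℕ → Type u} [∀ j, LinearOrder (L j)] [∀ j, WellFoundedLT (L j)]

/-- the abstract form of the main construction -/
theorem kill_abs {e : ∀ j, L (j + 1) → L (j + 1) → L j}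
    (he : ∀ j z x y, x < z → y < z → e j z x = e j z y → x = y)
    (hlt : ∀ j (w : L j), #(Set.Iio w) < #(L j))
    (hw : ∀ k, ∃ w : L (k + 1), #(L k) ≤ #(Set.Iio w))
    (hinf : ∀ j, ℵ₀ ≤ #(L j)) (p : ℕ)
    (dec : L p → (L 0 → L p)) (hdec : Function.Surjective dec) :
    ∃ Φ : (Option (Fin (p + p)) → L (p + p)) → Set (L (p + p)), (∀ a, (Φ a).Finite) ∧
    ∀ T : Set (L (p + p)), #(L p) ≤ #T →
      ∃ a : Option (Fin (p + p)) → L (p + p),
        (∀ i, a i ∈ T) ∧ ∃ v ∈ T, (∀ i, v ≠ a i) ∧ v ∈ Φ a := by
  classical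
  have hne : ∀ j, Nonempty (L j) := fun j => by
    rw [← Cardinal.mk_ne_zero_iff]
    exact (Cardinal.aleph0_pos.trans_le (hinf j)).ne'
  -- the families to be caught
  let Fam : (Fin (p + p) → L (p + p)) → Set (L 0 → L (p + p)) := fun Y =>
    {g | Function.Injective g ∧ ∃ (zs : Fin p → L (p + p)) (a : L p),
      (∀ i, Hull e (Set.range Y) (p + p) (zs i)) ∧ Hull e (Set.range Y) p a ∧
      ∀ ξ, val e p p zs (g ξ) ∧ red e p p zs (g ξ) = dec a ξ}
  have hFam : ∀ Y, #(Fam Y) ≤ #(L 0) := by
    intro Y
    have hY : #(Set.range Y) ≤ #(L 0) := by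
      refine le_trans (Cardinal.lt_aleph0_iff_set_finite.mpr (Set.finite_range Y)).le (hinf 0)
    let A := {w | Hull e (Set.range Y) (p + p) w}
    let B := {w | Hull e (Set.range Y) p w}
    have hA : #A ≤ #(L 0) := card_hull (hinf 0) he _ hY _
    have hB : #B ≤ #(L 0) := card_hull (hinf 0) he _ hY _
    have hcode : ∀ g : Fam Y, ∃ q : (Fin p → A) × B,
        ∀ ξ, val e p p (fun i => (q.1 i).1) (g.1 ξ) ∧
          red e p p (fun i => (q.1 i).1) (g.1 ξ) = dec q.2.1 ξ := by
      rintro ⟨g, hg, zs, a, h1, h2, h3⟩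
      exact ⟨(fun i => ⟨zs i, h1 i⟩, ⟨a, h2⟩), h3⟩
    choose q hq using hcode
    have hqi : Function.Injective q := by
      intro g g' h
      apply Subtype.ext
      funext ξ
      have h1 := hq g ξ
      have h2 := hq g' ξ
      rw [← h] at h2
      exact red_inj he p p _ _ _ h1.1 h2.1 (h1.2.trans h2.2.symm)
    refine (Cardinal.mk_le_of_injective hqi).trans ?_
    rw [Cardinal.mk_prod, Cardinal.lift_id, Cardinal.lift_id]
    have h4 : #(Fin p → A) ≤ #(L 0) := by
      have h5 : #(Fin p → A) = #A ^ (p : Cardinal.{u}) := by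
        rw [Cardinal.mk_pi]
        simp
      rw [h5]
      exact (Cardinal.power_le_power_right hA).trans (by
        rw [Cardinal.power_natCast]
        exact Cardinal.power_nat_le (hinf 0))
    exact (mul_le_mul' h4 hB).trans_eq (Cardinal.mul_eq_self (hinf 0))
  have hH : ∀ Y : Fin (p + p) → L (p + p), ∃ H : L (p + p) → L (p + p) → Prop,
      (∀ x v v', H x v → H x v' → v = v') ∧
      ∀ g ∈ Fam Y, ∃ x v, x ∈ Set.range g ∧ v ∈ Set.range g ∧ v ≠ x ∧ v ∉ Set.range Y ∧ H x v := by
    intro Y
    exact exists_H' (hlt 0) (hinf 0) (Fam Y) (hFam Y) (fun g hg => hg.1) (Set.range Y)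
      (Set.finite_range Y)
  choose H hH1 hH2 using hH
  let z1 : (Option (Fin (p + p)) → L (p + p)) → Fin p → L (p + p) :=
    fun a i => a (some (Fin.castAdd p i))
  let z2 : (Option (Fin (p + p)) → L (p + p)) → Fin p → L (p + p) :=
    fun a i => a (some (Fin.natAdd p i))
  refine ⟨fun a => {v | val e p p (z2 a) v ∧ red e p p (z2 a) v = red e p p (z1 a) (a none)} ∪
    {v | H (fun i => a (some i)) (a none) v}, fun a => ?_, fun T hT => ?_⟩
  · refine Set.Finite.union (Set.Subsingleton.finite ?_) (Set.Subsingleton.finite ?_)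
    · rintro v ⟨hv1, hv2⟩ v' ⟨hv1', hv2'⟩
      exact red_inj he p p _ _ _ hv1 hv1' (hv2.trans hv2'.symm)
    · intro v hv v' hv'
      exact hH1 _ _ _ _ hv hv'
  by_cases hfull : #(L p) ≤ #{w | Hull e T p w}
  · -- catching
    have huniv := full he hlt hw hinf T p hfull
    obtain ⟨zs, hzs, hbig⟩ := losing he hlt hw p p T hT
    obtain ⟨g0⟩ := (Cardinal.le_def _ _).mp hbig
    let g : L 0 → L (p + p) := fun ξ => (g0 ξ).1
    have hg : Function.Injective g := fun a b h => g0.injective (Subtype.ext h)
    obtain ⟨a, ha⟩ := hdec (fun ξ => red e p p zs (g ξ))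
    obtain ⟨F, hF1, hF2⟩ := Hull.fin (huniv a)
    obtain ⟨X', hX1, hX2, hX3⟩ := kuratowski (e := e) (p + p) (F ∪ Finset.univ.image zs)
    have hX'T : ∀ x ∈ X', x ∈ T := by
      intro x hx
      have := hX1 hx
      rw [Finset.mem_union, Finset.mem_image] at this
      rcases this with h | ⟨i, -, rfl⟩
      · exact hF1 h
      · exact hzs i
    obtain ⟨t0, ht0⟩ : T.Nonempty := by
      rw [Set.nonempty_iff_ne_empty]
      rintro rfl
      rw [Cardinal.mk_eq_zero (↥(∅ : Set (L (p + p))))] at hT
      exact absurd hT (not_le.mpr (Cardinal.aleph0_pos.trans_le (hinf p)))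
    obtain ⟨Y, hY1, hY2⟩ : ∃ Y : Fin (p + p) → L (p + p), (∀ i, Y i ∈ T) ∧
        (X' : Set (L (p + p))) ⊆ Set.range Y := by
      obtain ⟨f, hf⟩ : ∃ f : X' → Fin (p + p), Function.Injective f := by
        have h1 : Fintype.card X' ≤ Fintype.card (Fin (p + p)) := by
          rw [Fintype.card_coe, Fintype.card_fin]
          exact hX2
        obtain ⟨f⟩ := Function.Embedding.nonempty_of_card_le h1
        exact ⟨f, f.injective⟩
      refine ⟨fun i => if h : ∃ x : X', f x = i then (Classical.choose h).1 else t0,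
        fun i => ?_, ?_⟩
      · by_cases h : ∃ x : X', f x = i
        · simp only [h, dif_pos]
          exact hX'T _ (Classical.choose h).2
        · simp only [h, dif_neg, not_false_eq_true]
          exact ht0
      · intro x hx
        refine ⟨f ⟨x, hx⟩, ?_⟩
        have hex : ∃ y : X', f y = f ⟨x, hx⟩ := ⟨_, rfl⟩
        simp only [hex, dif_pos]
        exact congrArg Subtype.val (hf (Classical.choose_spec hex))
    have hull1 : ∀ x ∈ (F ∪ Finset.univ.image zs), Hull e (Set.range Y) (p + p) x :=
      fun x hx => (hX3 x hx).mono hY2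
    have hgF : g ∈ Fam Y := by
      refine ⟨hg, zs, a, fun i => hull1 _ ?_, ?_, fun ξ => ⟨(g0 ξ).2.2, ?_⟩⟩
      · exact Finset.mem_union_right _ (Finset.mem_image_of_mem _ (Finset.mem_univ i))
      · exact Hull.trans (fun x hx => hull1 x (Finset.mem_union_left _ hx)) hF2
      · rw [ha]
    obtain ⟨x, v, ⟨ξ, hξ⟩, ⟨η, hη⟩, h1, h2, h3⟩ := hH2 Y g hgF
    refine ⟨fun o => o.elim x Y, ?_, v, ?_, ?_, Or.inr h3⟩
    · rintro (_ | i)
      · rw [← hξ]
        exact (g0 ξ).2.1
      · exact hY1 i
    · rw [← hη]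
      exact (g0 η).2.1
    · rintro (_ | i)
      · exact h1
      · exact fun h => h2 ⟨i, h.symm⟩
  · -- coincidences
    push Not at hfull
    have hcard : #(L p × ULift.{u} (Fin (p + 1))) ≤ #T := by
      refine le_trans (le_of_eq ?_) hT
      rw [Cardinal.mk_prod, Cardinal.lift_id, Cardinal.lift_id]
      refine Cardinal.mul_eq_left (hinf p) ?_ ?_
      · refine le_trans (Cardinal.lt_aleph0_of_finite _).le (hinf p)
      · rw [Cardinal.mk_ne_zero_iff]
        exact ⟨⟨0⟩⟩
    obtain ⟨G⟩ := (Cardinal.le_def _ _).mp hcard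
    have htup : ∀ s : L p, ∃ (z : Fin p → L (p + p)) (x : L (p + p)),
        (∀ i, ∃ m, (G (s, ⟨m⟩)).1 = z i) ∧ (∃ m, (G (s, ⟨m⟩)).1 = x) ∧ val e p p z x := by
      intro s
      obtain ⟨z, x, h1, h2, h3⟩ := exists_tuple he p p (fun m => (G (s, ⟨m⟩)).1) (by
        intro m m' h
        have h2 := G.injective (Subtype.ext h)
        rw [Prod.mk.injEq, ULift.up_inj] at h2
        exact h2.2)
      exact ⟨z, x, h1, h2, h3⟩
    choose z x hz hx hv using htup
    have hGT : ∀ s m, (G (s, m)).1 ∈ T := fun s m => (G (s, m)).2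
    have hninj : ¬ Function.Injective (fun s : L p =>
        (⟨red e p p (z s) (x s), red_hull p p _ _ (fun i => by
          obtain ⟨m, hm⟩ := hz s i
          rw [← hm]
          exact Hull.base _ (hGT _ _)) (by
          obtain ⟨m, hm⟩ := hx s
          rw [← hm]
          exact Hull.base _ (hGT _ _))⟩ : {w | Hull e T p w})) := by
      intro h
      exact absurd (Cardinal.mk_le_of_injective h) (not_le.mpr hfull)
    simp only [Function.Injective] at hninj
    push Not at hninj
    obtain ⟨s, s', h1, h2⟩ := hninj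
    have h1' : red e p p (z s) (x s) = red e p p (z s') (x s') :=
      congrArg (fun q : {w | Hull e T p w} => q.1) h1
    refine ⟨fun o => o.elim (x s) (Fin.addCases (z s) (z s')), ?_, x s', ?_, ?_, Or.inl ⟨?_, ?_⟩⟩
    · rintro (_ | i)
      · obtain ⟨m, hm⟩ := hx s
        simp only [Option.elim_none]
        rw [← hm]
        exact hGT _ _
      · simp only [Option.elim_some]
        refine Fin.addCases (fun i => ?_) (fun i => ?_) i
        · rw [Fin.addCases_left]
          obtain ⟨m, hm⟩ := hz s i
          rw [← hm]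
          exact hGT _ _
        · rw [Fin.addCases_right]
          obtain ⟨m, hm⟩ := hz s' i
          rw [← hm]
          exact hGT _ _
    · obtain ⟨m, hm⟩ := hx s'
      rw [← hm]
      exact hGT _ _
    · rintro (_ | i)
      · simp only [Option.elim_none]
        obtain ⟨m, hm⟩ := hx s
        obtain ⟨m', hm'⟩ := hx s'
        rw [← hm, ← hm']
        intro h
        have h3 := G.injective (Subtype.ext h)
        rw [Prod.mk.injEq] at h3
        exact h2 h3.1.symm
      · simp only [Option.elim_some]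
        refine Fin.addCases (fun i => ?_) (fun i => ?_) i
        · rw [Fin.addCases_left]
          obtain ⟨m, hm⟩ := hz s i
          obtain ⟨m', hm'⟩ := hx s'
          rw [← hm, ← hm']
          intro h
          have h3 := G.injective (Subtype.ext h)
          rw [Prod.mk.injEq] at h3
          exact h2 h3.1.symm
        · rw [Fin.addCases_right]
          exact val_ne p p _ _ (hv s') i
    · have e1 : z2 (fun o => o.elim (x s) (Fin.addCases (z s) (z s'))) = z s' := by
        funext i
        simp only [z2, Option.elim_some]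
        exact Fin.addCases_right i
      rw [e1]
      exact hv s'
    · have e1 : z2 (fun o => o.elim (x s) (Fin.addCases (z s) (z s'))) = z s' := by
        funext i
        simp only [z2, Option.elim_some]
        exact Fin.addCases_right i
      have e2 : z1 (fun o => o.elim (x s) (Fin.addCases (z s) (z s'))) = z s := by
        funext i
        simp only [z1, Option.elim_some]
        exact Fin.addCases_left i
      rw [e1, e2]
      exact h1'.symm

end

end Pool.Agent.Helper397.K3
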