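import Pool.Agent.Helper397.K3

set_option autoImplicit false

namespace Pool.Agent.Helper397.K4

open Cardinal
open Pool.Agent.Helper397.E1 Pool.Agent.Helper397.E2 Pool.Agent.Helper397.E4
open Pool.Agent.Helper397.E5 Pool.Agent.Helper397.H1 Pool.Agent.Helper397.H2
open Pool.Agent.Helper397.K1 Pool.Agent.Helper397.K2 Pool.Agent.Helper397.K3

universe u

theorem le_iter (κ : Cardinal.{u}) : ∀ k : ℕ, κ ≤ Order.succ^[k] κ := by
  intro k
  induction k with
  | zero => exact le_rfl
  | succ k ihk =>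
    rw [Function.iterate_succ_apply']
    exact ihk.trans (Order.le_succ _)

/-- `(κ^{+(p+1)})^κ = κ^{+(p+1)}` -/
theorem power_iter {κ : Cardinal.{u}} (hκ : ℵ₀ ≤ κ)
    (h2 : (2 : Cardinal.{u}) ^ κ = Order.succ κ) (p : ℕ) :
    (Order.succ^[p + 1] κ) ^ κ ≤ Order.succ^[p + 1] κ := by
  induction p with
  | zero =>
    show (Order.succ κ) ^ κ ≤ Order.succ κ
    rw [← h2, ← Cardinal.power_mul, Cardinal.mul_eq_self hκ]
  | succ p ih =>
    set μ := Order.succ^[p + 1] κ with hμ
    have hμκ : κ ≤ μ := le_iter κ (p + 1)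
    have hμ0 : ℵ₀ ≤ μ := hκ.trans hμκ
    have hstep : Order.succ^[p + 1 + 1] κ = Order.succ μ := by
      rw [Function.iterate_succ_apply', hμ]
    rw [hstep]
    have hreg : (Order.succ μ).IsRegular := Cardinal.isRegular_succ hμ0
    let I := (Order.succ μ).ord.ToType
    let J := κ.ord.ToType
    have hIc : #I = Order.succ μ := Cardinal.mk_ord_toType _
    have hJc : #J = κ := Cardinal.mk_ord_toType _
    have hIio : ∀ w : I, #(Set.Iio w) ≤ μ := by
      intro w
      have h := Cardinal.mk_Iio_lt w (by simp [I])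
      rwa [Cardinal.mk_ord_toType, Order.lt_succ_iff] at h
    have hcov : ∀ g : J → I, ∃ w, ∀ j, g j < w := by
      intro g
      exact bdd_reg hreg (M := J) (by rw [hJc]; exact hμκ.trans_lt (Order.lt_succ μ)) g
    choose b hb using hcov
    have hinj : Function.Injective (fun g : J → I =>
        (⟨b g, fun j => ⟨g j, hb g j⟩⟩ : Σ w : I, (J → Set.Iio w))) := by
      intro g g' h
      simp only at h
      have h1 : b g = b g' := congrArg Sigma.fst h
      funext j
      have h3 : ∀ (w w' : I) (f : J → Set.Iio w) (f' : J → Set.Iio w'),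
          (⟨w, f⟩ : Σ w : I, (J → Set.Iio w)) = ⟨w', f'⟩ → (f j).1 = (f' j).1 := by
        rintro w w' f f' h4
        obtain ⟨rfl, h5⟩ := Sigma.mk.inj_iff.mp h4
        rw [eq_of_heq h5]
      exact h3 _ _ _ _ h
    calc (Order.succ μ) ^ κ = #(J → I) := by rw [← Cardinal.power_def, hIc, hJc]
      _ ≤ #(Σ w : I, (J → Set.Iio w)) := Cardinal.mk_le_of_injective hinj
      _ = Cardinal.sum (fun w : I => #(J → Set.Iio w)) := Cardinal.mk_sigma _
      _ ≤ Cardinal.sum (fun _ : I => μ) := by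
          refine Cardinal.sum_le_sum _ _ fun w => ?_
          rw [← Cardinal.power_def, hJc]
          exact (Cardinal.power_le_power_right (hIio w)).trans ih
      _ = Order.succ μ * μ := by rw [Cardinal.sum_const', hIc]
      _ ≤ Order.succ μ := by
          rw [Cardinal.mul_eq_left (hμ0.trans (Order.le_succ μ)) (Order.le_succ μ)
            (Cardinal.aleph0_pos.trans_le hμ0).ne']

/-- `(2p+1)`-ary finite valued functions on `κ^{+2p}` with no free set of size `κ^{+p}` -/
theorem kill {κ : Cardinal.{u}} (hκ : ℵ₀ ≤ κ) (h2 : (2 : Cardinal.{u}) ^ κ = Order.succ κ)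
    (p : ℕ) :
    Kill (Order.succ^[(p + 1) + (p + 1)] κ).ord.ToType (Order.succ^[p] κ)
      (Option (Fin ((p + 1) + (p + 1)))) := by
  classical
  let L : ℕ → Type u := fun j => (Order.succ^[j] κ).ord.ToType
  have hLc : ∀ j, #(L j) = Order.succ^[j] κ := fun j => Cardinal.mk_ord_toType _
  have hinf : ∀ j, ℵ₀ ≤ #(L j) := fun j => by
    rw [hLc]
    exact hκ.trans (le_iter κ j)
  have hlt : ∀ j (w : L j), #(Set.Iio w) < #(L j) := by
    intro j w
    exact Cardinal.mk_Iio_lt w (by simp [L])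
  have hsucc : ∀ j, #(L (j + 1)) = Order.succ #(L j) := by
    intro j
    rw [hLc, hLc, Function.iterate_succ_apply']
  have hne : ∀ j, Nonempty (L j) := fun j => by
    rw [← Cardinal.mk_ne_zero_iff]
    exact (Cardinal.aleph0_pos.trans_le (hinf j)).ne'
  have hw : ∀ k, ∃ w : L (k + 1), #(L k) ≤ #(Set.Iio w) := by
    intro k
    have hreg : (Order.succ^[k + 1] κ).IsRegular := by
      rw [Function.iterate_succ_apply']
      exact Cardinal.isRegular_succ (hκ.trans (le_iter κ k))
    have hlt' : #(L k) < Order.succ^[k + 1] κ := by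
      rw [hLc, Function.iterate_succ_apply']
      exact Order.lt_succ _
    obtain ⟨i⟩ : Nonempty (L k ↪ L (k + 1)) := (Cardinal.le_def _ _).mp (by
      rw [hLc (k + 1)]
      exact hlt'.le)
    obtain ⟨w, hw⟩ := bdd_reg hreg (M := L k) hlt' i
    refine ⟨w, Cardinal.mk_le_of_injective (f := fun x => (⟨i x, hw x⟩ : Set.Iio w)) ?_⟩
    intro x y h
    exact i.injective (congrArg (fun q : Set.Iio w => q.1) h)
  have hex : ∀ j (z : L (j + 1)), ∃ e : L (j + 1) → L j, ∀ x y, x < z → y < z → e x = e y →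
      x = y := by
    intro j z
    have hle : #(Set.Iio z) ≤ #(L j) := by
      have h := hlt (j + 1) z
      rw [hsucc, Order.lt_succ_iff] at h
      exact h
    obtain ⟨i⟩ := (Cardinal.le_def _ _).mp hle
    refine ⟨fun x => if h : x < z then i ⟨x, h⟩ else Classical.choice (hne j),
      fun x y hx hy h => ?_⟩
    simp only [hx, hy, dif_pos] at h
    exact congrArg (fun q : Set.Iio z => q.1) (i.injective h)
  choose e he using hex
  have hdec : ∃ dec : L (p + 1) → (L 0 → L (p + 1)), Function.Surjective dec := by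
    have h3 : #(L 0 → L (p + 1)) ≤ #(L (p + 1)) := by
      rw [← Cardinal.power_def, hLc, hLc]
      exact power_iter hκ h2 p
    obtain ⟨i⟩ := (Cardinal.le_def _ _).mp h3
    have := hne (p + 1)
    exact ⟨Function.invFun i, Function.invFun_surjective i.injective⟩
  obtain ⟨dec, hdec⟩ := hdec
  obtain ⟨Φ, h3, h4⟩ := kill_abs (L := L) (e := e) he hlt hw hinf (p + 1) dec hdec
  refine ⟨Φ, h3, fun T hT => h4 T ?_⟩
  rw [hLc, Function.iterate_succ_apply']
  exact hT

theorem main {κ : Cardinal.{u}} (hκ : ℵ₀ ≤ κ)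
    (gch : ∀ c : Cardinal.{u}, ℵ₀ ≤ c → (2 : Cardinal.{u}) ^ c = Order.succ c)
    (n : ℕ) (hn : 3 ≤ n) (S : Type u) (hS : #S = Order.succ^[n] κ) :
    ∃ f : Finset S → Set S,
      (∀ X : Finset S, X.card = n → (f X).Finite ∧ Disjoint (↑X : Set S) (f X)) ∧
      ∀ T : Set S,
        (∀ X : Finset S, X.card = n → (↑X : Set S) ⊆ T → Disjoint T (f X)) →
        #T < Order.succ^[n / 2 + 1] κ := by
  obtain ⟨p, hp⟩ : ∃ p, n = 2 * (p + 1) + 1 ∨ n = 2 * (p + 1) + 2 := ⟨(n - 3) / 2, by omega⟩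
  obtain ⟨b, hb, hnb, hn2⟩ : ∃ b, 1 ≤ b ∧ n = (p + 1) + (p + 1) + b ∧ n / 2 + 1 = p + 1 + b := by
    rcases hp with h | h
    · exact ⟨1, le_rfl, by omega, by omega⟩
    · exact ⟨2, by omega, by omega, by omega⟩
  have hb0 : ℵ₀ ≤ Order.succ^[b] κ := hκ.trans (le_iter κ b)
  have hk := kill hb0 (gch _ hb0) p
  obtain ⟨f, h1, h2⟩ := to_finset (S := S) (hb0.trans (le_iter _ p)) hk (by
    rw [Cardinal.mk_ord_toType, hS, hnb, ← Function.iterate_add_apply]) n (by
      rw [Fintype.card_option, Fintype.card_fin]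
      omega)
  refine ⟨f, h1, fun T hT => ?_⟩
  have h3 := h2 T hT
  rw [hn2]
  rwa [show p + 1 + b = (p + b) + 1 from by omega, Function.iterate_succ_apply',
    Function.iterate_add_apply]

end Pool.Agent.Helper397.K4
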