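import Mathlib

set_option autoImplicit false

namespace Pool.Agent.Helper397.T1

theorem exists_rec {I : Type*} [LinearOrder I] [WellFoundedLT I] {X : Type*} [Inhabited X]
    (Phi : I → (I → X) → X → Prop)
    (hloc : ∀ i (D D' : I → X) x, (∀ j, j < i → D j = D' j) → Phi i D x → Phi i D' x)
    (hex : ∀ i D, ∃ x, Phi i D x) : ∃ D : I → X, ∀ i, Phi i D (D i) := by
  classical
  let step : (i : I) → ((j : I) → j < i → X) → X := fun i D =>
    Classical.choose (hex i (fun j => if h : j < i then D j h else default))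
  let D : I → X := WellFounded.fix (wellFounded_lt (α := I)) step
  refine ⟨D, fun i => ?_⟩
  have h1 : D i = step i (fun j _ => D j) := WellFounded.fix_eq _ _ _
  have h2 : Phi i (fun j => if h : j < i then D j else default) (step i (fun j _ => D j)) :=
    Classical.choose_spec (hex i (fun j => if h : j < i then D j else default))
  rw [← h1] at h2
  refine hloc i _ _ _ ?_ h2
  intro j hj
  simp [hj]

/-- An uncountable set has an uncountable fibre under a map into a countable type. -/
theorem exists_fiber {α β : Type*} [Countable β] {A : Set α} (hA : ¬ A.Countable) (g : α → β) :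
    ∃ b, ¬ {a | a ∈ A ∧ g a = b}.Countable := by
  by_contra hcon
  push Not at hcon
  apply hA
  have : A ⊆ ⋃ b, {a | a ∈ A ∧ g a = b} := by
    intro a ha
    exact Set.mem_iUnion.mpr ⟨g a, ha, rfl⟩
  exact (Set.countable_iUnion hcon).mono this

theorem exists_sub {s : Set ℕ} (hs : s.Infinite) : ∃ g : ℕ → ℕ, StrictMono g ∧ ∀ n, g n ∈ s := by
  classical
  haveI := hs.to_subtype
  refine ⟨fun n => Nat.orderEmbeddingOfSet s n, (Nat.orderEmbeddingOfSet s).strictMono, fun n => ?_⟩
  have h := Nat.orderEmbeddingOfSet_range s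
  have h2 : Nat.orderEmbeddingOfSet s n ∈ Set.range (Nat.orderEmbeddingOfSet s) := ⟨n, rfl⟩
  rw [h] at h2
  exact h2

/-- A fast growing subsequence. -/
theorem exists_fast (s : ℕ → ℕ) : ∃ h : ℕ → ℕ, StrictMono h ∧ ∀ i j, i < j → s (h i) ≤ h j := by
  let h : ℕ → ℕ := fun n => Nat.rec 0 (fun _ m => m + 1 + s m) n
  have hs : ∀ n, h (n + 1) = h n + 1 + s (h n) := fun n => rfl
  have hmono : StrictMono h := strictMono_nat_of_lt_succ (fun n => by rw [hs]; omega)
  refine ⟨h, hmono, fun i j hij => ?_⟩
  have h1 : h (i + 1) ≤ h j := hmono.monotone hij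
  rw [hs] at h1
  omega

section

variable {I P : Type} {k : ℕ} (f : P → P → Fin (k + 1))

/-- The neighbours of `y` in colour `c`. -/
def N (c : Fin (k + 1)) (y : P) : Set P := {x | x ≠ y ∧ f x y = c}

/-- No triangle that is monochromatic in a nonzero colour. -/
def NoTri : Prop := ∀ c, c ≠ 0 → ∀ x y z, x ≠ y → y ≠ z → x ≠ z →
  f x y = c → f y z = c → f x z = c → False

variable [LinearOrder I] [WellFoundedLT I]

/-- Greedy construction of homogeneous sets. -/
theorem greedy (hI : ∀ i : I, (Set.Iio i).Countable) (hU : Uncountable I)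
    (hsymm : ∀ x y, f x y = f y x) (B : ℕ → Set P) (hunc : ∀ j, ¬ (B j).Countable)
    (hc : ∀ i j, ∀ z ∈ B i, ∀ c, c ≠ 0 → (N f c z ∩ B j).Countable) :
    ∃ H : ℕ → Set P, (∀ j, H j ⊆ B j) ∧ (∀ j, ¬ (H j).Countable) ∧
      ∀ i j, ∀ x ∈ H i, ∀ y ∈ H j, x ≠ y → f x y = 0 := by
  classical
  haveI : Infinite I := by
    by_contra hcon
    rw [not_infinite_iff_finite] at hcon
    exact hU.not_countable Finite.to_countable
  obtain ⟨eq⟩ : Nonempty (I ≃ I × ℕ) := by
    rw [← Cardinal.eq]
    simp only [Cardinal.mk_prod, Cardinal.mk_nat, Cardinal.lift_aleph0, Cardinal.lift_uzero]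
    exact (Cardinal.mul_aleph0_eq (Cardinal.aleph0_le_mk I)).symm
  let e : I → ℕ := fun i => (eq i).2
  have he : ∀ n, ¬ {i | e i = n}.Countable := by
    intro n hn
    have h1 : (Set.range (fun i : I => eq.symm (i, n))).Countable := by
      refine hn.mono ?_
      rintro _ ⟨i, rfl⟩
      simp [e]
    have hinj : Function.Injective (fun i : I => eq.symm (i, n)) := by
      intro i j hij
      have := eq.symm.injective hij
      exact congrArg Prod.fst this
    have h2 : (Set.univ : Set I).Countable := by
      rw [← Set.image_univ] at h1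
      exact Set.countable_of_injective_of_countable_image hinj.injOn h1
    exact hU.not_countable (Set.countable_univ_iff.mp h2)
  have hne : Nonempty P := by
    obtain ⟨x, -⟩ := (Set.nonempty_iff_ne_empty.mpr (fun h => hunc 0 (h ▸ Set.countable_empty)) :
      (B 0).Nonempty)
    exact ⟨x⟩
  haveI : Inhabited P := ⟨Classical.choice hne⟩
  obtain ⟨p, hp⟩ := exists_rec (I := I) (X := P)
    (fun i D x => (∀ j, j < i → D j ∈ B (e j)) →
      x ∈ B (e i) ∧ ∀ j, j < i → x ≠ D j ∧ f x (D j) = 0)
    (by
      intro i D D' x h hx hj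
      obtain ⟨h1, h2⟩ := hx (fun j hji => by rw [h j hji]; exact hj j hji)
      refine ⟨h1, fun j hji => ?_⟩
      rw [← h j hji]
      exact h2 j hji)
    (by
      intro i D
      by_cases hD : ∀ j, j < i → D j ∈ B (e j)
      · have hbad : {x | x ∈ B (e i) ∧ ∃ j, j < i ∧ (x = D j ∨ f x (D j) ≠ 0)}.Countable := by
          have hsub : {x | x ∈ B (e i) ∧ ∃ j, j < i ∧ (x = D j ∨ f x (D j) ≠ 0)} ⊆
              ⋃ j ∈ Set.Iio i, ({D j} ∪ ⋃ c ∈ {c : Fin (k + 1) | c ≠ 0}, N f c (D j) ∩ B (e i)) := by
            rintro x ⟨hx, j, hj, hxj⟩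
            refine Set.mem_iUnion₂.mpr ⟨j, hj, ?_⟩
            by_cases heq : x = D j
            · exact Or.inl heq
            · right
              have h1 : f x (D j) ≠ 0 := by
                rcases hxj with h | h
                · exact absurd h heq
                · exact h
              exact Set.mem_iUnion₂.mpr ⟨f x (D j), h1, ⟨heq, rfl⟩, hx⟩
          refine Set.Countable.mono hsub ?_
          refine Set.Countable.biUnion (hI i) (fun j hj => ?_)
          refine (Set.countable_singleton _).union ?_
          refine Set.Countable.biUnion (Set.to_countable _) (fun c hc' => ?_)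
          exact hc _ _ _ (hD j hj) c hc'
        obtain ⟨x, hx, hx'⟩ : ∃ x ∈ B (e i), x ∉ {x | x ∈ B (e i) ∧ ∃ j, j < i ∧
            (x = D j ∨ f x (D j) ≠ 0)} := by
          by_contra hcon
          push Not at hcon
          exact hunc (e i) (hbad.mono (fun x hx => hcon x hx))
        refine ⟨x, fun _ => ⟨hx, fun j hj => ?_⟩⟩
        constructor
        · intro h; exact hx' ⟨hx, j, hj, Or.inl h⟩
        · by_contra h; exact hx' ⟨hx, j, hj, Or.inr h⟩
      · exact ⟨default, fun h => absurd h hD⟩)
  have hall : ∀ i, p i ∈ B (e i) := by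
    intro i
    induction i using WellFoundedLT.induction with
    | ind i IH => exact (hp i IH).1
  have hprop : ∀ i j, j < i → p i ≠ p j ∧ f (p i) (p j) = 0 := fun i j hj =>
    (hp i (fun j _ => hall j)).2 j hj
  have hinj : Function.Injective p := by
    intro i j hij
    rcases lt_trichotomy i j with h | h | h
    · exact absurd hij.symm (hprop j i h).1
    · exact h
    · exact absurd hij (hprop i j h).1
  refine ⟨fun n => p '' {i | e i = n}, ?_, ?_, ?_⟩
  · rintro n _ ⟨i, hi, rfl⟩
    have hi' : e i = n := hi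
    rw [← hi']
    exact hall i
  · intro n hn
    exact he n (Set.countable_of_injective_of_countable_image hinj.injOn hn)
  · rintro n m _ ⟨i, -, rfl⟩ _ ⟨j, -, rfl⟩ hne
    rcases lt_trichotomy i j with h | h | h
    · rw [hsymm]; exact (hprop j i h).2
    · subst h; exact absurd rfl hne
    · exact (hprop i j h).2

end

end Pool.Agent.Helper397.T1
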