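import Pool.Agent.Helper397.T1

set_option autoImplicit false

namespace Pool.Agent.Helper397.T2

open Pool.Agent.Helper397.T1

/-- Systems: iterated omega-sequences of sets. -/
inductive Sys (P : Type) : Type
  | leaf (A : Set P) : Sys P
  | node (W : ℕ → Sys P) : Sys P

/-- Subsystems. -/
inductive Sub {P : Type} : Sys P → Sys P → Prop
  | leaf {A' A : Set P} : A' ⊆ A → ¬ A'.Countable → Sub (Sys.leaf A') (Sys.leaf A)
  | node {W' W : ℕ → Sys P} (g : ℕ → ℕ) : StrictMono g → (∀ m, Sub (W' m) (W (g m))) →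
      Sub (Sys.node W') (Sys.node W)

theorem Sub.trans {P : Type} {W1 W2 W3 : Sys P} (h1 : Sub W1 W2) (h2 : Sub W2 W3) : Sub W1 W3 := by
  induction h1 generalizing W3 with
  | leaf hs hc =>
    cases h2 with
    | leaf hs' hc' => exact Sub.leaf (hs.trans hs') hc
  | node g hg hsub ih =>
    cases h2 with
    | node g' hg' hsub' => exact Sub.node (g' ∘ g) (hg'.comp hg) (fun m => ih m (hsub' (g m)))

/-- All points of all leaves satisfy `p`. -/
def All {P : Type} (p : P → Prop) : Sys P → Prop
  | Sys.leaf A => ∀ x ∈ A, p x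
  | Sys.node W => ∀ m, All p (W m)

theorem Sub.all {P : Type} {p : P → Prop} {W' W : Sys P} (h : Sub W' W) (ha : All p W) :
    All p W' := by
  induction h with
  | leaf hs hc => exact fun x hx => ha x (hs hx)
  | node g hg hsub ih => exact fun m => ih m (ha (g m))

theorem All.imp {P : Type} {p q : P → Prop} (hpq : ∀ x, p x → q x) {W : Sys P} (ha : All p W) :
    All q W := by
  induction W with
  | leaf A => exact fun x hx => hpq x (ha x hx)
  | node W ih => exact fun m => ih m (ha m)

theorem All.and {P : Type} {p q : P → Prop} {W : Sys P} (ha : All p W) (hb : All q W) :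
    All (fun x => p x ∧ q x) W := by
  induction W with
  | leaf A => exact fun x hx => ⟨ha x hx, hb x hx⟩
  | node W ih => exact fun m => ih m (ha m) (hb m)

section

variable {I P : Type} {k : ℕ} (f : P → P → Fin (k + 1)) (X : I → Set P)

/-- Leaves are uncountable subsets of `T`, each inside one column. -/
def Valid (T : Set P) : Sys P → Prop
  | Sys.leaf A => ¬ A.Countable ∧ A ⊆ T ∧ ∃ ξ, A ⊆ X ξ
  | Sys.node W => ∀ m, Valid T (W m)

theorem Sub.valid {T : Set P} {W' W : Sys P} (h : Sub W' W) (hv : Valid X T W) : Valid X T W' := by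
  induction h with
  | leaf hs hc =>
    obtain ⟨h1, h2, ξ, h3⟩ := hv
    exact ⟨hc, hs.trans h2, ξ, hs.trans h3⟩
  | node g hg hsub ih => exact fun m => ih m (hv (g m))

theorem Valid.mono {T T' : Set P} (hT : T ⊆ T') {W : Sys P} (hv : Valid X T W) : Valid X T' W := by
  induction W with
  | leaf A => exact ⟨hv.1, hv.2.1.trans hT, hv.2.2⟩
  | node W ih => exact fun m => ih m (hv m)

theorem Valid.refl {T : Set P} {W : Sys P} (hv : Valid X T W) : Sub W W := by
  induction W with
  | leaf A => exact Sub.leaf subset_rfl hv.1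
  | node W ih => exact Sub.node id strictMono_id (fun m => ih m (hv m))

theorem Valid.all {T : Set P} {W : Sys P} (hv : Valid X T W) : All (fun x => x ∈ T) W := by
  induction W with
  | leaf A => exact fun x hx => hv.2.1 hx
  | node W ih => exact fun m => ih m (hv m)

/-- `y` sees the colour `c` on the system. -/
def Sees (c : Fin (k + 1)) (y : P) : Sys P → Prop
  | Sys.leaf A => ¬ (N f c y ∩ A).Countable
  | Sys.node W => {m | Sees c y (W m)}.Infinite

theorem Sub.sees {c : Fin (k + 1)} {y : P} {W' W : Sys P} (h : Sub W' W) (hs : Sees f c y W') :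
    Sees f c y W := by
  induction h with
  | leaf hsub hc =>
    intro hcon
    exact hs (hcon.mono (Set.inter_subset_inter_right _ hsub))
  | node g hg hsub ih =>
    have h1 : (g '' {m | Sees f c y (_)}).Infinite := Set.Infinite.image hg.injective.injOn hs
    refine h1.mono ?_
    rintro _ ⟨m, hm, rfl⟩
    exact ih m hm

theorem restrict {c : Fin (k + 1)} {y : P} {W : Sys P} (hs : Sees f c y W) :
    ∃ W', Sub W' W ∧ All (fun x => x ∈ N f c y) W' := by
  induction W with
  | leaf A =>
    exact ⟨Sys.leaf (N f c y ∩ A), Sub.leaf Set.inter_subset_right hs, fun x hx => hx.1⟩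
  | node W ih =>
    obtain ⟨g, hg, hgm⟩ := exists_sub hs
    choose W' hW' using fun n => ih (g n) (hgm n)
    exact ⟨Sys.node W', Sub.node g hg (fun m => (hW' m).1), fun m => (hW' m).2⟩

/-- The sets avoided by almost all columns. -/
def Small (A : Set P) : Prop := {ξ | ¬ (A ∩ X ξ).Countable}.Countable

variable {X}

theorem Small.mono {A B : Set P} (hAB : A ⊆ B) (hB : Small X B) : Small X A := by
  refine Set.Countable.mono ?_ hB
  intro ξ hξ hcon
  exact hξ (hcon.mono (Set.inter_subset_inter_left _ hAB))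

theorem Small.iUnion {ι : Type*} [Countable ι] {A : ι → Set P} (h : ∀ i, Small X (A i)) :
    Small X (⋃ i, A i) := by
  refine Set.Countable.mono ?_ (Set.countable_iUnion h)
  intro ξ hξ
  by_contra hcon
  apply hξ
  rw [Set.iUnion_inter]
  refine Set.countable_iUnion (fun i => ?_)
  by_contra hc
  exact hcon (Set.mem_iUnion.mpr ⟨i, hc⟩)

theorem Small.union {A B : Set P} (hA : Small X A) (hB : Small X B) : Small X (A ∪ B) := by
  rw [Set.union_eq_iUnion]
  exact Small.iUnion (fun b => by cases b <;> assumption)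

theorem not_small_diff {A B : Set P} (hA : ¬ Small X A) (hB : Small X B) : ¬ Small X (A \ B) := by
  intro h
  apply hA
  exact (h.union hB).mono (by
    intro x hx
    by_cases hxB : x ∈ B
    · exact Or.inr hxB
    · exact Or.inl ⟨hx, hxB⟩)

theorem not_small_fiber {β : Type*} [Countable β] {A : Set P} (hA : ¬ Small X A) (g : P → β) :
    ∃ b, ¬ Small X {a | a ∈ A ∧ g a = b} := by
  by_contra hcon
  push Not at hcon
  have h1 : Small X (⋃ b, {a | a ∈ A ∧ g a = b}) := Small.iUnion hcon
  refine hA (h1.mono ?_)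
  intro a ha
  exact Set.mem_iUnion.mpr ⟨g a, ha, rfl⟩

theorem small_empty : Small X (∅ : Set P) := by
  unfold Small
  simp

theorem Small.nonempty {A : Set P} (hA : ¬ Small X A) : A.Nonempty := by
  rw [Set.nonempty_iff_ne_empty]
  rintro rfl
  exact hA small_empty

theorem exists_leaf {A : Set P} (hA : ¬ Small X A) : ∃ ξ, ¬ (A ∩ X ξ).Countable := by
  by_contra hcon
  push Not at hcon
  apply hA
  have : {ξ | ¬ (A ∩ X ξ).Countable} = ∅ := by
    ext ξ
    simp [hcon ξ]
  unfold Small
  rw [this]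
  exact Set.countable_empty

theorem exists_valid {T : Set P} (hT : ¬ Small X T) : ∃ W, Valid X T W := by
  obtain ⟨ξ, hξ⟩ := exists_leaf hT
  exact ⟨Sys.leaf (T ∩ X ξ), hξ, Set.inter_subset_left, ξ, Set.inter_subset_right⟩

theorem small_cols (col : P → I) (hcol : ∀ ξ, ∀ x ∈ X ξ, col x = ξ) {C : Set I}
    (hC : C.Countable) : Small X {x | col x ∈ C} := by
  refine Set.Countable.mono ?_ hC
  intro ξ hξ
  by_contra hcon
  apply hξ
  have : {x | col x ∈ C} ∩ X ξ = ∅ := by
    ext x
    simp only [Set.mem_inter_iff, Set.mem_setOf_eq, Set.mem_empty_iff_false, iff_false, not_and]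
    intro h1 h2
    rw [hcol ξ x h2] at h1
    exact hcon h1
  rw [this]
  exact Set.countable_empty

theorem Valid.cols (col : P → I) (hcol : ∀ ξ, ∀ x ∈ X ξ, col x = ξ) {T : Set P} {W : Sys P}
    (hv : Valid X T W) : ∃ C : Set I, C.Countable ∧ All (fun x => col x ∈ C) W := by
  induction W with
  | leaf A =>
    obtain ⟨-, -, ξ, h3⟩ := hv
    refine ⟨{ξ}, Set.countable_singleton _, fun x hx => ?_⟩
    exact hcol ξ x (h3 hx)
  | node W ih =>
    choose C hC hA using fun m => ih m (hv m)
    refine ⟨⋃ m, C m, Set.countable_iUnion hC, fun m => (hA m).imp (fun x hx => ?_)⟩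
    exact Set.mem_iUnion.mpr ⟨m, hx⟩

variable (X)

open Classical in
/-- The colours seen on `W` by a positive set of points. -/
noncomputable def V (W : Sys P) : Finset (Fin (k + 1)) :=
  Finset.univ.filter (fun c => c ≠ 0 ∧ ¬ Small X {y | Sees f c y W})

theorem mem_V {W : Sys P} {c : Fin (k + 1)} :
    c ∈ V f X W ↔ c ≠ 0 ∧ ¬ Small X {y | Sees f c y W} := by
  simp [V]

theorem V_mono {W' W : Sys P} (h : Sub W' W) : V f X W' ⊆ V f X W := by
  intro c hc
  rw [mem_V] at hc ⊢
  refine ⟨hc.1, fun hs => hc.2 (hs.mono (fun y hy => h.sees f hy))⟩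

/-- `z` avoids the colours outside `U` on almost all of the system. -/
def Av (U : Finset (Fin (k + 1))) (z : P) : Sys P → Prop
  | Sys.leaf A => ∀ c, c ≠ 0 → c ∉ U → (N f c z ∩ A).Countable
  | Sys.node W => ∃ n, ∀ m, n ≤ m → Av U z (W m)

theorem av_of_not_sees {U : Finset (Fin (k + 1))} {z : P} {W : Sys P}
    (h : ∀ c, c ≠ 0 → c ∉ U → ¬ Sees f c z W) : Av f U z W := by
  induction W with
  | leaf A =>
    intro c hc hU
    have := h c hc hU
    simp only [Sees, not_not] at this
    exact this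
  | node W ih =>
    have hfin : (⋃ c ∈ {c : Fin (k + 1) | c ≠ 0 ∧ c ∉ U}, {m | Sees f c z (W m)}).Finite := by
      refine Set.Finite.biUnion (Set.toFinite _) (fun c hc => ?_)
      have := h c hc.1 hc.2
      simp only [Sees, Set.not_infinite] at this
      exact this
    obtain ⟨n, hn⟩ := hfin.bddAbove
    refine ⟨n + 1, fun m hm => ih m (fun c hc hU hs => ?_)⟩
    have : m ≤ n := hn (Set.mem_iUnion₂.mpr ⟨c, ⟨hc, hU⟩, hs⟩)
    omega

/-- The threshold functions of all nodes. -/
noncomputable def famE (U : Finset (Fin (k + 1))) : Sys P → ℕ → P → ℕ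
  | Sys.leaf _ => fun _ _ => 0
  | Sys.node W => fun j z => match j with
    | 0 => sInf {n | ∀ m, n ≤ m → Av f U z (W m)}
    | j + 1 => famE U (W j.unpair.1) j.unpair.2 z

/-- Eventually all points of `T n` avoid almost all leaves uniformly. -/
def Good (T : ℕ → Set P) (U : Finset (Fin (k + 1))) : Sys P → Prop
  | Sys.leaf A => ∃ n, ∀ z ∈ T n, ∀ c, c ≠ 0 → c ∉ U → (N f c z ∩ A).Countable
  | Sys.node W => ∃ n, ∀ m, n ≤ m → Good T U (W m)

theorem good_of {T : ℕ → Set P} (hT : Antitone T)
    {U : Finset (Fin (k + 1))} {W : Sys P}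
    (hfam : ∀ j, ∃ n, ∃ v, ∀ z ∈ T n, famE f U W j z = v)
    (hav : ∃ n, ∀ z ∈ T n, Av f U z W) : Good f T U W := by
  induction W with
  | leaf A => exact hav
  | node W ih =>
    obtain ⟨n1, h1⟩ := hav
    obtain ⟨n2, v, h2⟩ := hfam 0
    refine ⟨v, fun m hm => ih m (fun j => ?_) ⟨max n1 n2, fun z hz => ?_⟩⟩
    · obtain ⟨n3, v3, h3⟩ := hfam (Nat.pair m j + 1)
      refine ⟨n3, v3, fun z hz => ?_⟩
      have := h3 z hz
      simp only [famE, Nat.unpair_pair] at this
      exact this
    · have hz1 : Av f U z (Sys.node W) := h1 z (hT (le_max_left _ _) hz)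
      have hz2 : famE f U (Sys.node W) 0 z = v := h2 z (hT (le_max_right _ _) hz)
      simp only [famE] at hz2
      have hne' : {n | ∀ m, n ≤ m → Av f U z (W m)}.Nonempty := hz1
      have := Nat.sInf_mem hne'
      rw [hz2] at this
      exact this m hm

theorem select {T : ℕ → Set P} {U : Finset (Fin (k + 1))} {p : P → Prop} {T0 : Set P}
    {W' W : Sys P} (hsub : Sub W' W) (hall : All p W') (hv : Valid X T0 W')
    (hg : Good f T U W) :
    ∃ A : Set P, ¬ A.Countable ∧ A ⊆ T0 ∧ (∃ ξ, A ⊆ X ξ) ∧ (∀ x ∈ A, p x) ∧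
      ∃ n, ∀ z ∈ T n, ∀ c, c ≠ 0 → c ∉ U → (N f c z ∩ A).Countable := by
  induction hsub with
  | @leaf A' A hs hc =>
    obtain ⟨n, hn⟩ := hg
    refine ⟨A', hc, hv.2.1, hv.2.2, hall, n, fun z hz c h1 h2 => ?_⟩
    exact (hn z hz c h1 h2).mono (Set.inter_subset_inter_right _ hs)
  | node g hg' hsub ih =>
    obtain ⟨n, hn⟩ := hg
    have h1 : n ≤ g n := hg'.id_le n
    exact ih n (hall n) (hv n) (hn (g n) h1)

end

end Pool.Agent.Helper397.T2
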