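import Pool.Agent.Helper397.T2

set_option autoImplicit false

namespace Pool.Agent.Helper397.T3

open Pool.Agent.Helper397.T1 Pool.Agent.Helper397.T2

section

variable {I P : Type} {k : ℕ} (f : P → P → Fin (k + 1)) (X : I → Set P)

theorem exists_star (hX : ¬ T2.Small X Set.univ) : ∃ (T0 : Set P) (v : ℕ), ¬ Small X T0 ∧
    (∀ W, Valid X T0 W → v ≤ (V f X W).card) ∧
    (∀ T, T ⊆ T0 → ¬ Small X T → ∃ W, Valid X T W ∧ (V f X W).card = v) := by
  classical
  let Q : ℕ → Prop := fun v => ∃ T : Set P, ¬ Small X T ∧ ∀ W, Valid X T W → v ≤ (V f X W).card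
  have h0 : Q 0 := ⟨Set.univ, hX, fun W _ => Nat.zero_le _⟩
  have hb : ∀ v, Q v → v ≤ k + 1 := by
    rintro v ⟨T, hT, hW⟩
    obtain ⟨W, hv⟩ := exists_valid hT
    refine (hW W hv).trans ?_
    refine (Finset.card_le_univ _).trans ?_
    simp
  have hv : Q (Nat.findGreatest Q (k + 1)) := Nat.findGreatest_spec (P := Q) (Nat.zero_le _) h0
  have hv' : ¬ Q (Nat.findGreatest Q (k + 1) + 1) := by
    intro h
    have := Nat.le_findGreatest (hb _ h) h
    omega
  obtain ⟨T0, hT0, hW0⟩ := hv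
  refine ⟨T0, _, hT0, hW0, fun T hT hTs => ?_⟩
  by_contra hcon
  push Not at hcon
  apply hv'
  refine ⟨T, hTs, fun W hW => ?_⟩
  have h1 := hW0 W (hW.mono X hT)
  have h2 := hcon W hW
  omega

structure OK (T0 : Set P) (v : ℕ) (col : P → I) (n : ℕ) (D : ℕ → Set P × Sys P)
    (x : Set P × Sys P) : Prop where
  sub0 : x.1 ⊆ T0
  pos : ¬ Small X x.1
  sub : ∀ j, j < n → x.1 ⊆ (D j).1
  valid : Valid X x.1 x.2
  card : (V f X x.2).card = v
  av : ∀ j, j < n → ∀ z ∈ x.1, ∀ c, c ≠ 0 → c ∉ V f X (D j).2 → ¬ Sees f c z (D j).2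
  cols : ∀ j, j < n → ∃ C : Set I, All (fun y => col y ∈ C) (D j).2 ∧ ∀ z ∈ x.1, col z ∉ C
  fam : ∀ i j, i < n → j < n → ∃ v, ∀ z ∈ x.1, famE f (V f X (D i).2) (D i).2 j z = v

theorem OK.congr {T0 : Set P} {v : ℕ} {col : P → I} {n : ℕ} {D D' : ℕ → Set P × Sys P}
    {x : Set P × Sys P} (hD : ∀ j, j < n → D j = D' j) (h : OK f X T0 v col n D x) :
    OK f X T0 v col n D' x := by
  refine ⟨h.sub0, h.pos, ?_, h.valid, h.card, ?_, ?_, ?_⟩
  · intro j hj
    rw [← hD j hj]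
    exact h.sub j hj
  · intro j hj
    rw [← hD j hj]
    exact h.av j hj
  · intro j hj
    rw [← hD j hj]
    exact h.cols j hj
  · intro i j hi hj
    rw [← hD i hi]
    exact h.fam i j hi hj

theorem OK.step {T0 : Set P} {v : ℕ} (col : P → I) (hcol : ∀ ξ, ∀ x ∈ X ξ, col x = ξ)
    (hT0 : ¬ Small X T0)
    (hstar : ∀ T, T ⊆ T0 → ¬ Small X T → ∃ W, Valid X T W ∧ (V f X W).card = v)
    {n : ℕ} {D : ℕ → Set P × Sys P} (hD : ∀ j, j < n → OK f X T0 v col j D (D j)) :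
    ∃ x, OK f X T0 v col n D x := by
  classical
  obtain ⟨T, hT1, hT2, hT3⟩ : ∃ T : Set P, T ⊆ T0 ∧ ¬ Small X T ∧ ∀ j, j < n → T ⊆ (D j).1 := by
    rcases n with _ | m
    · exact ⟨T0, subset_rfl, hT0, fun j hj => absurd hj (Nat.not_lt_zero j)⟩
    · have hm := hD m (Nat.lt_succ_self m)
      refine ⟨(D m).1, hm.sub0, hm.pos, fun j hj => ?_⟩
      rcases Nat.lt_succ_iff_lt_or_eq.mp hj with h | h
      · exact hm.sub j h
      · subst h; exact subset_rfl
  have hC : ∀ j : Fin n, ∃ C : Set I, C.Countable ∧ All (fun x => col x ∈ C) (D j).2 :=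
    fun j => (hD j j.2).valid.cols col hcol
  choose C hC1 hC2 using hC
  have hB : Small X (⋃ j : Fin n, ((⋃ c : Fin (k + 1),
      {z | c ≠ 0 ∧ c ∉ V f X (D j).2 ∧ Sees f c z (D j).2}) ∪ {z | col z ∈ C j})) := by
    refine Small.iUnion (fun j => Small.union (Small.iUnion (fun c => ?_)) ?_)
    · by_cases hc : c ≠ 0 ∧ c ∉ V f X (D j).2
      · have h1 := hc.2
        rw [mem_V] at h1
        have h2 : Small X {y | Sees f c y (D j).2} := by
          by_contra h
          exact h1 ⟨hc.1, h⟩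
        exact h2.mono (fun z hz => hz.2.2)
      · refine small_empty.mono ?_
        intro z hz
        exact absurd ⟨hz.1, hz.2.1⟩ hc
    · exact small_cols col hcol (hC1 j)
  have hT4 := not_small_diff hT2 hB
  let g : P → (Fin n × Fin n → ℕ) := fun z p =>
    famE f (V f X (D p.1).2) (D p.1).2 p.2 z
  obtain ⟨b, hb⟩ := not_small_fiber hT4 g
  obtain ⟨T', hT', hmem⟩ : ∃ T' : Set P, ¬ Small X T' ∧ ∀ z ∈ T', z ∈ T \ (⋃ j : Fin n,
      ((⋃ c : Fin (k + 1), {z | c ≠ 0 ∧ c ∉ V f X (D j).2 ∧ Sees f c z (D j).2}) ∪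
        {z | col z ∈ C j})) ∧ g z = b := ⟨_, hb, fun z hz => hz⟩
  obtain ⟨W, hW1, hW2⟩ := hstar T' (fun z hz => hT1 (hmem z hz).1.1) hT'
  refine ⟨(T', W), ?_⟩
  refine ⟨fun z hz => hT1 (hmem z hz).1.1, hT', fun j hj z hz => hT3 j hj (hmem z hz).1.1,
    hW1, hW2, ?_, ?_, ?_⟩
  · intro j hj z hz c hc hcV hs
    apply (hmem z hz).1.2
    exact Set.mem_iUnion.mpr ⟨⟨j, hj⟩, Or.inl (Set.mem_iUnion.mpr ⟨c, hc, hcV, hs⟩)⟩
  · intro j hj
    refine ⟨C ⟨j, hj⟩, hC2 ⟨j, hj⟩, fun z hz hcon => ?_⟩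
    apply (hmem z hz).1.2
    exact Set.mem_iUnion.mpr ⟨⟨j, hj⟩, Or.inr hcon⟩
  · intro i j hi hj
    refine ⟨b (⟨i, hi⟩, ⟨j, hj⟩), fun z hz => ?_⟩
    have : g z = b := (hmem z hz).2
    exact congrFun this (⟨i, hi⟩, ⟨j, hj⟩)

theorem exists_seq {T0 : Set P} {v : ℕ} (col : P → I) (hcol : ∀ ξ, ∀ x ∈ X ξ, col x = ξ)
    (hT0 : ¬ Small X T0)
    (hstar : ∀ T, T ⊆ T0 → ¬ Small X T → ∃ W, Valid X T W ∧ (V f X W).card = v) :
    ∃ D : ℕ → Set P × Sys P, ∀ n, OK f X T0 v col n D (D n) := by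
  classical
  haveI : Inhabited (Set P × Sys P) := ⟨(∅, Sys.leaf ∅)⟩
  obtain ⟨D, hD⟩ := exists_rec (I := ℕ) (X := Set P × Sys P)
    (fun n D x => (∀ j, j < n → OK f X T0 v col j D (D j)) → OK f X T0 v col n D x)
    (by
      intro n D D' x hDD h hD'
      refine OK.congr f X hDD (h (fun j hj => ?_))
      rw [hDD j hj]
      exact OK.congr f X (fun i hi => (hDD i (hi.trans hj)).symm) (hD' j hj))
    (by
      intro n D
      by_cases h : ∀ j, j < n → OK f X T0 v col j D (D j)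
      · obtain ⟨x, hx⟩ := OK.step f X col hcol hT0 hstar h
        exact ⟨x, fun _ => hx⟩
      · exact ⟨default, fun h' => absurd h' h⟩)
  refine ⟨D, fun n => ?_⟩
  induction n using Nat.strong_induction_on with
  | _ n ih => exact hD n ih

structure IsBlock (col : P → I) (K : Finset (Fin (k + 1))) (B : ℕ → Set P) : Prop where
  unc : ∀ j, ¬ (B j).Countable
  inX : ∀ j, ∃ ξ, B j ⊆ X ξ
  dist : ∀ i j, i < j → ∀ x ∈ B i, ∀ z ∈ B j, col x ≠ col z
  ctb : ∀ i j, i < j → ∀ z ∈ B j, ∀ c, c ≠ 0 → (N f c z ∩ B i).Countable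
  kill : ∀ c ∈ K, c ≠ 0 ∧ ∀ i j, ∀ x ∈ B i, ∀ z ∈ B j, x ≠ z → f x z ≠ c

variable {f}

theorem kill_of (htri : NoTri f) {c : Fin (k + 1)} (hc : c ≠ 0)
    {y x z : P} (hx : x ∈ N f c y) (hz : z ∈ N f c y) (hxz : x ≠ z) : f x z ≠ c := by
  intro h
  refine htri c hc x z y hxz hz.1 hx.1 h hz.2 hx.2

theorem stage1 (htri : NoTri f) (hX : ¬ T2.Small X Set.univ)
    (col : P → I) (hcol : ∀ ξ, ∀ x ∈ X ξ, col x = ξ) :
    ∃ K B, IsBlock f X col K B := by
  obtain ⟨T0, v, hT0, hmin, hstar⟩ := exists_star f X hX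
  obtain ⟨D, hD⟩ := exists_seq f X col hcol hT0 hstar
  have hanti : Antitone (fun n => (D n).1) := by
    refine antitone_nat_of_succ_le (fun n => ?_)
    exact (hD (n + 1)).sub n (Nat.lt_succ_self n)
  have hgood : ∀ i, Good f (fun n => (D n).1) (V f X (D i).2) (D i).2 := by
    intro i
    refine good_of f hanti (fun j => ?_) ⟨i + 1, fun z hz => ?_⟩
    · refine ⟨max i j + 1, ?_⟩
      exact (hD (max i j + 1)).fam i j (by omega) (by omega)
    · exact av_of_not_sees f ((hD (i + 1)).av i (Nat.lt_succ_self i) z hz)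
  -- infinitely many equal V
  obtain ⟨V0, hV0⟩ : ∃ V0, {n | V f X (D n).2 = V0}.Infinite := by
    obtain ⟨V0, hV0⟩ := Finite.exists_infinite_fiber (fun n => V f X (D n).2)
    refine ⟨V0, ?_⟩
    rw [Set.infinite_coe_iff] at hV0
    exact hV0
  obtain ⟨g, hg, hgV⟩ := exists_sub hV0
  have hgV' : ∀ n, V f X (D (g n)).2 = V0 := hgV
  have hV0c : V0.card = v := by rw [← hgV' 0]; exact (hD (g 0)).card
  have hG : Valid X T0 (Sys.node (fun n => (D (g n)).2)) := fun n =>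
    (hD (g n)).valid.mono X (hD (g n)).sub0
  have hVG : V f X (Sys.node (fun n => (D (g n)).2)) ⊆ V0 := by
    intro c hc
    rw [mem_V] at hc
    by_contra hcV
    apply hc.2
    have h1 : Small X (⋃ n, {y | Sees f c y (D (g n)).2}) := by
      refine Small.iUnion (fun n => ?_)
      by_contra hcon
      apply hcV
      rw [← hgV' n, mem_V]
      exact ⟨hc.1, hcon⟩
    refine h1.mono ?_
    intro y hy
    have hy' : {m | Sees f c y (D (g m)).2}.Infinite := hy
    obtain ⟨m, hm⟩ := hy'.nonempty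
    exact Set.mem_iUnion.mpr ⟨m, hm⟩
  have hconst : ∀ G', Sub G' (Sys.node (fun n => (D (g n)).2)) → V f X G' = V0 := by
    intro G' hG'
    refine Finset.eq_of_subset_of_card_le ((V_mono f X hG').trans hVG) ?_
    rw [hV0c]
    exact hmin G' (hG'.valid X hG)
  have hkill : ∀ C : Finset (Fin (k + 1)), C ⊆ V0 →
      ∃ G', Sub G' (Sys.node (fun n => (D (g n)).2)) ∧
        ∃ y : Fin (k + 1) → P, All (fun x => ∀ c ∈ C, x ∈ N f c (y c)) G' := by
    intro C
    induction C using Finset.induction_on with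
    | empty =>
      intro _
      obtain ⟨ξ, hξ⟩ := exists_leaf hT0
      have hne : (T0 ∩ X ξ).Nonempty := by
        rw [Set.nonempty_iff_ne_empty]
        intro h
        rw [h] at hξ
        exact hξ Set.countable_empty
      obtain ⟨x0, -⟩ := hne
      refine ⟨_, hG.refl X, fun _ => x0, ?_⟩
      exact (hG.all X).imp (fun x _ c hc => absurd hc (Finset.notMem_empty c))
    | insert c C hcC ih =>
      intro hsub
      obtain ⟨G1, hG1, y, hy⟩ := ih ((Finset.subset_insert c C).trans hsub)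
      have hc : c ∈ V f X G1 := by
        rw [hconst G1 hG1]
        exact hsub (Finset.mem_insert_self c C)
      rw [mem_V] at hc
      obtain ⟨y0, hy0⟩ := Small.nonempty hc.2
      obtain ⟨G2, hG2, hall⟩ := restrict f hy0
      have hy2 : All (fun x => ∀ c' ∈ insert c C, x ∈ N f c' (if c' = c then y0 else y c')) G2 := by
        refine (hall.and (hG2.all hy)).imp ?_
        rintro x ⟨h1, h2⟩ c' hc'
        by_cases h : c' = c
        · subst h; simpa using h1
        · rw [Finset.mem_insert] at hc'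
          rcases hc' with h' | h'
          · exact absurd h' h
          · simpa [h] using h2 c' h'
      exact ⟨G2, hG2.trans hG1, fun c' => if c' = c then y0 else y c', hy2⟩
  obtain ⟨G', hG', y, hy⟩ := hkill V0 subset_rfl
  cases hG' with
  | @node W' _ h hh hsub =>
    have hsel : ∀ m, ∃ A : Set P, ¬ A.Countable ∧ A ⊆ (D (g (h m))).1 ∧ (∃ ξ, A ⊆ X ξ) ∧
        (∀ x ∈ A, (∀ c ∈ V0, x ∈ N f c (y c)) ∧
          ∀ j, g (h m) < j → ∀ z ∈ (D j).1, col x ≠ col z) ∧
        ∃ n, ∀ z ∈ (D n).1, ∀ c, c ≠ 0 → c ∉ V0 → (N f c z ∩ A).Countable := by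
      intro m
      have hgm := hgood (g (h m))
      rw [hgV' (h m)] at hgm
      refine select f X (hsub m) ?_ ((hsub m).valid X (hD (g (h m))).valid) hgm
      have hcols : All (fun x => ∀ j, g (h m) < j → ∀ z ∈ (D j).1, col x ≠ col z)
          (D (g (h m))).2 := by
        -- use the columns set at stage g (h m) + 1
        obtain ⟨C, hC1, hC2⟩ := (hD (g (h m) + 1)).cols (g (h m)) (Nat.lt_succ_self _)
        refine hC1.imp ?_
        intro x hx j hj z hz heq
        have hz' : z ∈ (D (g (h m) + 1)).1 := hanti hj hz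
        apply hC2 z hz'
        rw [← heq]
        exact hx
      exact All.and (hy m) ((hsub m).all hcols)
    choose A hA1 hA2 hA3 hA4 s hs using hsel
    obtain ⟨q, hq, hqs⟩ := exists_fast s
    refine ⟨V0, fun j => A (q j), fun j => hA1 _, fun j => hA3 _, ?_, ?_, ?_⟩
    · intro i j hij x hx z hz
      refine (hA4 (q i) x hx).2 (g (h (q j))) (hg (hh (hq hij))) z (hA2 (q j) hz)
    · intro i j hij z hz c hc
      by_cases hcV : c ∈ V0
      · have : N f c z ∩ A (q i) = ∅ := by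
          ext x
          simp only [Set.mem_inter_iff, Set.mem_empty_iff_false, iff_false, not_and]
          intro hx1 hx2
          exact kill_of htri hc ((hA4 (q i) x hx2).1 c hcV) ((hA4 (q j) z hz).1 c hcV)
            hx1.1 hx1.2
        rw [this]
        exact Set.countable_empty
      · refine hs (q i) z ?_ c hc hcV
        have h1 : s (q i) ≤ g (h (q j)) :=
          (hqs i j hij).trans ((hh.id_le _).trans (hg.id_le _))
        exact hanti h1 (hA2 (q j) hz)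
    · intro c hc
      have hc0 : c ≠ 0 := by
        have : c ∈ V f X (D (g 0)).2 := by rw [hgV' 0]; exact hc
        rw [mem_V] at this
        exact this.1
      refine ⟨hc0, fun i j x hx z hz hxz => ?_⟩
      exact kill_of htri hc0 ((hA4 (q i) x hx).1 c hc) ((hA4 (q j) z hz).1 c hc) hxz

theorem IsBlock.comp {col : P → I} {K : Finset (Fin (k + 1))} {B : ℕ → Set P}
    (h : IsBlock f X col K B) {g : ℕ → ℕ} (hg : StrictMono g) {B' : ℕ → Set P}
    (hB' : ∀ j, B' j ⊆ B (g j)) (hunc : ∀ j, ¬ (B' j).Countable) : IsBlock f X col K B' := by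
  refine ⟨hunc, fun j => ?_, ?_, ?_, ?_⟩
  · obtain ⟨ξ, hξ⟩ := h.inX (g j)
    exact ⟨ξ, (hB' j).trans hξ⟩
  · exact fun i j hij x hx z hz => h.dist _ _ (hg hij) x (hB' i hx) z (hB' j hz)
  · exact fun i j hij z hz c hc => (h.ctb _ _ (hg hij) z (hB' j hz) c hc).mono
      (Set.inter_subset_inter_right _ (hB' i))
  · intro c hc
    refine ⟨(h.kill c hc).1, fun i j x hx z hz hxz => ?_⟩
    exact (h.kill c hc).2 _ _ x (hB' i hx) z (hB' j hz) hxz

theorem stage2 (hsymm : ∀ x y, f x y = f y x) (htri : NoTri f) (hX : ¬ T2.Small X Set.univ)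
    (col : P → I) (hcol : ∀ ξ, ∀ x ∈ X ξ, col x = ξ)
    (hhom : ∀ ξ, ∀ x ∈ X ξ, ∀ y ∈ X ξ, x ≠ y → f x y = 0) :
    ∃ B : ℕ → Set P, (∀ j, ¬ (B j).Countable) ∧ (∀ j, ∃ ξ, B j ⊆ X ξ) ∧
      (∀ i j, i < j → ∀ x ∈ B i, ∀ z ∈ B j, col x ≠ col z) ∧
      ∀ i j, ∀ z ∈ B i, ∀ c, c ≠ 0 → (N f c z ∩ B j).Countable := by
  classical
  let Q : ℕ → Prop := fun v => ∃ K B, IsBlock f X col K B ∧ K.card = v
  have hb : ∀ v, Q v → v ≤ k + 1 := by
    rintro v ⟨K, B, -, rfl⟩
    refine (Finset.card_le_univ _).trans ?_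
    simp
  obtain ⟨K0, B0, h0⟩ := stage1 X htri hX col hcol
  have hv : Q (Nat.findGreatest Q (k + 1)) :=
    Nat.findGreatest_spec (P := Q) (hb _ ⟨K0, B0, h0, rfl⟩) ⟨K0, B0, h0, rfl⟩
  obtain ⟨K, B, hKB, hcard⟩ := hv
  have hmax : ∀ K' B', IsBlock f X col K' B' → K'.card ≤ K.card := by
    intro K' B' h
    rw [hcard]
    exact Nat.le_findGreatest (hb _ ⟨K', B', h, rfl⟩) ⟨K', B', h, rfl⟩
  have hfin : ∀ z, ∀ c, c ≠ 0 → c ∉ K → {j | ¬ (N f c z ∩ B j).Countable}.Finite := by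
    intro z c hc hcK
    by_contra hinf
    obtain ⟨g, hg, hgm⟩ := exists_sub (Set.not_finite.mp hinf)
    have hbl : IsBlock f X col K (fun j => N f c z ∩ B (g j)) :=
      hKB.comp X hg (fun j => Set.inter_subset_right) hgm
    have hbl' : IsBlock f X col (insert c K) (fun j => N f c z ∩ B (g j)) := by
      refine ⟨hbl.unc, hbl.inX, hbl.dist, hbl.ctb, fun c' hc' => ?_⟩
      rw [Finset.mem_insert] at hc'
      rcases hc' with rfl | hc'
      · exact ⟨hc, fun i j x hx y hy hxy => kill_of htri hc hx.1 hy.1 hxy⟩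
      · exact hbl.kill c' hc'
    have := hmax _ _ hbl'
    rw [Finset.card_insert_of_notMem hcK] at this
    omega
  have hfin2 : ∀ z, {j | ∃ c, c ≠ 0 ∧ c ∉ K ∧ ¬ (N f c z ∩ B j).Countable}.Finite := by
    intro z
    have h1 : (⋃ c ∈ {c : Fin (k + 1) | c ≠ 0 ∧ c ∉ K},
        {j | ¬ (N f c z ∩ B j).Countable}).Finite :=
      Set.Finite.biUnion (Set.toFinite _) (fun c hc => hfin z c hc.1 hc.2)
    refine h1.subset ?_
    rintro j ⟨c, h1, h2, h3⟩
    exact Set.mem_iUnion₂.mpr ⟨c, ⟨h1, h2⟩, h3⟩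
  -- shrink
  have hshr : ∀ i, ∃ F : Finset ℕ, ¬ {z | z ∈ B i ∧ (hfin2 z).toFinset = F}.Countable :=
    fun i => exists_fiber (hKB.unc i) (fun z => (hfin2 z).toFinset)
  choose F hF using hshr
  obtain ⟨q, hq, hqs⟩ := exists_fast (fun i => (F i).sup id + 1)
  have hbl : IsBlock f X col K (fun j => {z | z ∈ B (q j) ∧ (hfin2 z).toFinset = F (q j)}) :=
    hKB.comp X hq (fun j z hz => hz.1) (fun j => hF (q j))
  refine ⟨_, hbl.unc, hbl.inX, hbl.dist, ?_⟩
  intro i j z hz c hc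
  by_cases hcK : c ∈ K
  · have : N f c z ∩ {z | z ∈ B (q j) ∧ (hfin2 z).toFinset = F (q j)} = ∅ := by
      ext x
      simp only [Set.mem_inter_iff, Set.mem_empty_iff_false, iff_false, not_and]
      intro hx1 hx2
      exact (hbl.kill c hcK).2 j i x hx2 z hz hx1.1 hx1.2
    rw [this]
    exact Set.countable_empty
  · rcases lt_trichotomy i j with h | h | h
    · by_contra hcon
      have h1 : q j ∈ (hfin2 z).toFinset := by
        rw [Set.Finite.mem_toFinset]
        refine ⟨c, hc, hcK, fun h => hcon (h.mono ?_)⟩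
        exact Set.inter_subset_inter_right _ (fun z hz => hz.1)
      rw [hz.2] at h1
      have h2 : q j ≤ (F (q i)).sup id := Finset.le_sup (f := id) h1
      have h3 := hqs i j h
      omega
    · subst h
      obtain ⟨ξ, hξ⟩ := hbl.inX i
      have : N f c z ∩ {z | z ∈ B (q i) ∧ (hfin2 z).toFinset = F (q i)} = ∅ := by
        ext x
        simp only [Set.mem_inter_iff, Set.mem_empty_iff_false, iff_false, not_and]
        intro hx1 hx2
        apply hc
        rw [← hx1.2]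
        exact hhom ξ x (hξ hx2) z (hξ hz) hx1.1
      rw [this]
      exact Set.countable_empty
    · exact hbl.ctb j i h z hz c hc

variable [LinearOrder I] [WellFoundedLT I]

/-- Uncountable sets contain uncountable homogeneous sets of colour zero. -/
theorem exists_hom (hI : ∀ i : I, (Set.Iio i).Countable) (hU : Uncountable I)
    (hsymm : ∀ x y, f x y = f y x) (htri : NoTri f) {A : Set P} (hA : ¬ A.Countable) :
    ∃ H, H ⊆ A ∧ ¬ H.Countable ∧ ∀ x ∈ H, ∀ y ∈ H, x ≠ y → f x y = 0 := by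
  classical
  let Q : ℕ → Prop := fun v => ∃ (K : Finset (Fin (k + 1))) (B : Set P), B ⊆ A ∧ ¬ B.Countable ∧
    (∀ c ∈ K, ∀ x ∈ B, ∀ y ∈ B, x ≠ y → f x y ≠ c) ∧ K.card = v
  have hb : ∀ v, Q v → v ≤ k + 1 := by
    rintro v ⟨K, B, -, -, -, rfl⟩
    refine (Finset.card_le_univ _).trans ?_
    simp
  have h0 : Q 0 := ⟨∅, A, subset_rfl, hA, fun c hc => absurd hc (Finset.notMem_empty c), rfl⟩
  have hv : Q (Nat.findGreatest Q (k + 1)) :=
    Nat.findGreatest_spec (P := Q) (Nat.zero_le _) h0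
  obtain ⟨K, B, hBA, hB, hK, hcard⟩ := hv
  have hctb : ∀ z ∈ B, ∀ c, c ≠ 0 → (N f c z ∩ B).Countable := by
    intro z hz c hc
    by_contra hcon
    have hcK : c ∉ K := by
      intro hcK
      obtain ⟨x, hx⟩ : (N f c z ∩ B).Nonempty := by
        rw [Set.nonempty_iff_ne_empty]
        intro h
        rw [h] at hcon
        exact hcon Set.countable_empty
      exact hK c hcK x hx.2 z hz hx.1.1 hx.1.2
    have hQ : Q (K.card + 1) := by
      refine ⟨insert c K, N f c z ∩ B, Set.inter_subset_right.trans hBA, hcon, ?_,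
        Finset.card_insert_of_notMem hcK⟩
      intro c' hc' x hx y hy hxy
      rw [Finset.mem_insert] at hc'
      rcases hc' with rfl | hc'
      · exact kill_of htri hc hx.1 hy.1 hxy
      · exact hK c' hc' x hx.2 y hy.2 hxy
    have := Nat.le_findGreatest (hb _ hQ) hQ
    omega
  obtain ⟨H, h1, h2, h3⟩ := greedy f hI hU hsymm (fun _ => B) (fun _ => hB)
    (fun _ _ z hz c hc => hctb z hz c hc)
  exact ⟨H 0, (h1 0).trans hBA, h2 0, fun x hx y hy hxy => h3 0 0 x hx y hy hxy⟩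

/-- The combinatorial core. -/
theorem core (hI : ∀ i : I, (Set.Iio i).Countable) (hU : Uncountable I)
    (hsymm : ∀ x y, f x y = f y x) (htri : NoTri f) (col : P → I)
    (hcol : ∀ ξ, ¬ {x | col x = ξ}.Countable) :
    ∃ H : ℕ → Set P, (∀ j, ¬ (H j).Countable) ∧ (∀ j, ∃ ξ, ∀ x ∈ H j, col x = ξ) ∧
      (∀ i j, i < j → ∀ x ∈ H i, ∀ z ∈ H j, col x ≠ col z) ∧
      ∀ i j, ∀ x ∈ H i, ∀ y ∈ H j, x ≠ y → f x y = 0 := by
  have hex : ∀ ξ, ∃ Y, Y ⊆ {x | col x = ξ} ∧ ¬ Y.Countable ∧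
      ∀ x ∈ Y, ∀ y ∈ Y, x ≠ y → f x y = 0 := fun ξ => exists_hom hI hU hsymm htri (hcol ξ)
  choose Y hY1 hY2 hY3 using hex
  have hsm : ¬ T2.Small Y Set.univ := by
    intro h
    have h1 : {ξ | ¬ (Set.univ ∩ Y ξ).Countable} = Set.univ := by
      ext ξ
      simp [hY2 ξ]
    unfold T2.Small at h
    rw [h1, Set.countable_univ_iff] at h
    exact hU.not_countable h
  obtain ⟨B, hB1, hB2, hB3, hB4⟩ := stage2 Y hsymm htri hsm col (fun ξ x hx => hY1 ξ hx) hY3
  obtain ⟨H, h1, h2, h3⟩ := greedy f hI hU hsymm B hB1 hB4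
  refine ⟨H, h2, fun j => ?_, fun i j hij x hx z hz => hB3 i j hij x (h1 i hx) z (h1 j hz), h3⟩
  obtain ⟨ξ, hξ⟩ := hB2 j
  exact ⟨ξ, fun x hx => hY1 ξ (hξ (h1 j hx))⟩

end

end Pool.Agent.Helper397.T3
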