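import Pool.Agent.Helper397.T3

set_option autoImplicit false

namespace Pool.Agent.Helper397.T4

open Pool.Agent.Helper397.T1 Pool.Agent.Helper397.T3
open Ordinal

/-- `ω₁` -/
noncomputable abbrev w1 : Ordinal.{0} := (Cardinal.aleph 1).ord

/-- The index set of order type `ω₁`. -/
abbrev I1 : Type := w1.ToType

/-- the ordinal of an index -/
noncomputable def ofI (i : I1) : Ordinal.{0} := (ToType.mk.symm i : Set.Iio _).1

theorem ofI_lt (i : I1) : ofI i < w1 := (ToType.mk.symm i : Set.Iio _).2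

theorem ofI_lt_ofI {i j : I1} : ofI i < ofI j ↔ i < j := by
  unfold ofI
  rw [Subtype.coe_lt_coe, OrderIso.lt_iff_lt]

theorem exists_ofI {a : Ordinal.{0}} (ha : a < w1) : ∃ i : I1, ofI i = a :=
  ⟨ToType.mk ⟨a, ha⟩, by simp [ofI]⟩

theorem mk_I1 : Cardinal.mk I1 = Cardinal.aleph 1 := by
  simp [I1, w1]

theorem uncountable_I1 : Uncountable I1 := by
  rw [← Cardinal.aleph0_lt_mk_iff, mk_I1]
  rw [← Cardinal.succ_aleph0]
  exact Order.lt_succ _

theorem countable_Iio (i : I1) : (Set.Iio i).Countable := by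
  have h := Cardinal.mk_Iio_lt i (by simp)
  rw [mk_I1, ← Cardinal.succ_aleph0, Order.lt_succ_iff] at h
  exact Cardinal.mk_le_aleph0_iff.mp h

theorem countable_Iic (i : I1) : (Set.Iic i).Countable := by
  rw [← Set.Iio_union_right]
  exact (countable_Iio i).union (Set.countable_singleton i)

theorem w1_pos : w1 ≠ 0 := by
  intro h
  have h1 : w1.card = 0 := by rw [h]; simp
  rw [Cardinal.card_ord] at h1
  exact (Cardinal.aleph_pos 1).ne' h1

theorem exists_enum {S : Set I1} (hS : ¬ S.Countable) :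
    ∃ e : I1 → I1, StrictMono e ∧ ∀ i, e i ∈ S := by
  haveI : Nonempty I1 := by
    by_contra h
    rw [not_nonempty_iff] at h
    exact hS (Set.to_countable S)
  haveI : Inhabited I1 := ⟨Classical.choice this⟩
  obtain ⟨e, he⟩ := exists_rec (I := I1) (X := I1) (fun i D x => x ∈ S ∧ ∀ j, j < i → D j < x)
    (by
      intro i D D' x h hx
      refine ⟨hx.1, fun j hj => ?_⟩
      rw [← h j hj]
      exact hx.2 j hj)
    (by
      intro i D
      have hc : (⋃ j ∈ Set.Iio i, Set.Iic (D j)).Countable :=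
        Set.Countable.biUnion (countable_Iio i) (fun j _ => countable_Iic (D j))
      by_contra hcon
      push Not at hcon
      refine hS (hc.mono ?_)
      intro x hx
      obtain ⟨j, hj, hjx⟩ := hcon x hx
      exact Set.mem_iUnion₂.mpr ⟨j, hj, hjx⟩)
  exact ⟨e, fun i j hij => (he j).2 i hij, fun i => (he i).1⟩

/-- Points of the plane as ordinals. -/
noncomputable def pt (p : I1 × I1) : Ordinal.{0} := w1 * ofI p.1 + ofI p.2

theorem pt_lt_of_col {p q : I1 × I1} (h : p.1 < q.1) : pt p < pt q := by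
  unfold pt
  have h1 : w1 * ofI p.1 + ofI p.2 < w1 * ofI p.1 + w1 := by
    gcongr
    exact ofI_lt p.2
  have h2 : w1 * ofI p.1 + w1 = w1 * (ofI p.1 + 1) := by
    rw [mul_add, mul_one]
  have h3 : w1 * (ofI p.1 + 1) ≤ w1 * ofI q.1 := by
    gcongr
    exact Order.add_one_le_of_lt (ofI_lt_ofI.mpr h)
  calc _ < _ := h1
    _ = _ := h2
    _ ≤ _ := h3
    _ ≤ _ := le_self_add

theorem pt_lt_of_row {p q : I1 × I1} (h : p.1 = q.1) (h2 : p.2 < q.2) : pt p < pt q := by
  unfold pt
  rw [h]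
  gcongr
  exact ofI_lt_ofI.mpr h2

theorem pt_inj {p q : I1 × I1} (h : pt p = pt q) : p = q := by
  rcases lt_trichotomy p.1 q.1 with h1 | h1 | h1
  · exact absurd h (pt_lt_of_col h1).ne
  · rcases lt_trichotomy p.2 q.2 with h2 | h2 | h2
    · exact absurd h (pt_lt_of_row h1 h2).ne
    · exact Prod.ext h1 h2
    · exact absurd h (pt_lt_of_row h1.symm h2).ne'
  · exact absurd h (pt_lt_of_col h1).ne'

theorem pt_lt (p : I1 × I1) : pt p < w1 * w1 := by
  have h2 : w1 * ofI p.1 + w1 = w1 * (ofI p.1 + 1) := by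
    rw [mul_add, mul_one]
  have h3 : w1 * (ofI p.1 + 1) ≤ w1 * w1 := by
    gcongr
    exact Order.add_one_le_of_lt (ofI_lt p.1)
  have h1 : w1 * ofI p.1 + ofI p.2 < w1 * ofI p.1 + w1 := by
    gcongr
    exact ofI_lt p.2
  exact h1.trans_le (h2.le.trans h3)

theorem final (k : ℕ) (c : Ordinal.{0} → Ordinal.{0} → Fin (k + 1))
    (hno : ¬ ∃ i : Fin (k + 1), i ≠ 0 ∧ ∃ a b d : Ordinal.{0}, a < b ∧ b < d ∧ d < w1 * w1 ∧
      c a b = i ∧ c a d = i ∧ c b d = i) :
    ∃ F : Ordinal.{0} → Ordinal.{0}, StrictMonoOn F (Set.Iio (w1 * ω)) ∧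
      (∀ β : Ordinal.{0}, β < w1 * ω → F β < w1 * w1) ∧
      (∀ β γ : Ordinal.{0}, β < γ → γ < w1 * ω → c (F β) (F γ) = 0) := by
  classical
  let f : I1 × I1 → I1 × I1 → Fin (k + 1) := fun p q =>
    if pt p < pt q then c (pt p) (pt q) else c (pt q) (pt p)
  have hf : ∀ p q, pt p < pt q → f p q = c (pt p) (pt q) := fun p q h => if_pos h
  have hsymm : ∀ p q, f p q = f q p := by
    intro p q
    rcases lt_trichotomy (pt p) (pt q) with h | h | h
    · simp [f, h, not_lt.mpr h.le]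
    · simp [f, h]
    · simp [f, h, not_lt.mpr h.le]
  have htri' : ∀ i, i ≠ 0 → ∀ x y z, pt x < pt y → pt y < pt z → f x y = i → f y z = i →
      f x z = i → False := by
    intro i hi x y z hxy hyz h1 h2 h3
    rw [hf x y hxy] at h1
    rw [hf y z hyz] at h2
    rw [hf x z (hxy.trans hyz)] at h3
    exact hno ⟨i, hi, pt x, pt y, pt z, hxy, hyz, pt_lt z, h1, h3, h2⟩
  have htri : NoTri f := by
    intro i hi x y z hxy hyz hxz h1 h2 h3
    have e1 : pt x ≠ pt y := fun h => hxy (pt_inj h)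
    have e2 : pt y ≠ pt z := fun h => hyz (pt_inj h)
    have e3 : pt x ≠ pt z := fun h => hxz (pt_inj h)
    have s1 : f y x = i := by rw [hsymm]; exact h1
    have s2 : f z y = i := by rw [hsymm]; exact h2
    have s3 : f z x = i := by rw [hsymm]; exact h3
    rcases lt_or_gt_of_ne e1 with a | a
    · rcases lt_or_gt_of_ne e2 with b | b
      · exact htri' i hi x y z a b h1 h2 h3
      · rcases lt_or_gt_of_ne e3 with d | d
        · exact htri' i hi x z y d b h3 s2 h1
        · exact htri' i hi z x y d a s3 h1 s2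
    · rcases lt_or_gt_of_ne e2 with b | b
      · rcases lt_or_gt_of_ne e3 with d | d
        · exact htri' i hi y x z a d s1 h3 h2
        · exact htri' i hi y z x b d h2 s3 s1
      · exact htri' i hi z y x b a s2 s1 s3
  have hcol : ∀ ξ : I1, ¬ {x : I1 × I1 | x.1 = ξ}.Countable := by
    intro ξ h
    have h1 : (Set.univ : Set I1) ⊆ Prod.snd '' {x : I1 × I1 | x.1 = ξ} := by
      intro α _
      exact ⟨(ξ, α), rfl, rfl⟩
    exact uncountable_I1.not_countable (Set.countable_univ_iff.mp ((h.image _).mono h1))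
  obtain ⟨H, hH1, hH2, hH3, hH4⟩ := core countable_Iio uncountable_I1 hsymm htri Prod.fst hcol
  choose ξ hξ using hH2
  have hne : ∀ j, (H j).Nonempty := by
    intro j
    rw [Set.nonempty_iff_ne_empty]
    intro h
    exact hH1 j (h ▸ Set.countable_empty)
  have hξne : ∀ i j, i < j → ξ i ≠ ξ j := by
    intro i j hij h
    obtain ⟨x, hx⟩ := hne i
    obtain ⟨z, hz⟩ := hne j
    exact hH3 i j hij x hx z hz (by rw [hξ i x hx, hξ j z hz, h])
  obtain ⟨g, hg⟩ := exists_increasing_or_nonincreasing_subseq (· < ·) ξ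
  have hinc : ∀ m n : ℕ, m < n → ξ (g m) < ξ (g n) := by
    rcases hg with hg | hg
    · exact hg
    · exfalso
      have hdesc : ∀ n, ξ (g (n + 1)) < ξ (g n) := by
        intro n
        have h1 : g n < g (n + 1) := g.strictMono (Nat.lt_succ_self n)
        exact lt_of_le_of_ne (not_lt.mp (hg n (n + 1) (Nat.lt_succ_self n))) (hξne _ _ h1).symm
      exact (wellFounded_iff_isEmpty_descending_chain.mp
        (wellFounded_lt (α := I1))).false ⟨fun n => ξ (g n), hdesc⟩
  have hS : ∀ n, ¬ {α : I1 | (ξ (g n), α) ∈ H (g n)}.Countable := by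
    intro n h
    apply hH1 (g n)
    have h1 : H (g n) ⊆ (fun α => (ξ (g n), α)) '' {α : I1 | (ξ (g n), α) ∈ H (g n)} := by
      intro x hx
      have := hξ (g n) x hx
      refine ⟨x.2, ?_, ?_⟩
      · show (ξ (g n), x.2) ∈ H (g n)
        rw [← this]
        exact hx
      · show (ξ (g n), x.2) = x
        rw [← this]
    exact (h.image _).mono h1
  choose e he1 he2 using fun n => exists_enum (hS n)
  have hdec : ∀ β : Ordinal.{0}, ∃ q : ℕ × I1, β < w1 * ω →
      (β / w1 = (q.1 : Ordinal.{0}) ∧ β % w1 = ofI q.2) := by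
    intro β
    by_cases hβ : β < w1 * ω
    · have h1 : β / w1 < ω := (Ordinal.lt_mul_iff_div_lt w1_pos).mp hβ
      obtain ⟨n, hn⟩ := lt_omega0.mp h1
      obtain ⟨i, hi⟩ := exists_ofI (Ordinal.mod_lt β w1_pos)
      exact ⟨(n, i), fun _ => ⟨hn, hi.symm⟩⟩
    · obtain ⟨i, -⟩ := exists_ofI (Ordinal.mod_lt β w1_pos)
      exact ⟨(0, i), fun h => absurd h hβ⟩
  choose q hq using hdec
  let G : Ordinal.{0} → I1 × I1 := fun β => (ξ (g (q β).1), e (q β).1 (q β).2)
  have hGH : ∀ β, G β ∈ H (g (q β).1) := fun β => he2 _ _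
  have hmono : ∀ β γ : Ordinal.{0}, β < γ → γ < w1 * ω → pt (G β) < pt (G γ) := by
    intro β γ hβγ hγ
    obtain ⟨a1, a2⟩ := hq β (hβγ.trans hγ)
    obtain ⟨b1, b2⟩ := hq γ hγ
    have hle : β / w1 ≤ γ / w1 := Ordinal.div_le_left hβγ.le w1
    rcases hle.lt_or_eq with hlt | heq
    · rw [a1, b1] at hlt
      exact pt_lt_of_col (hinc _ _ (by exact_mod_cast hlt))
    · have hmod : β % w1 < γ % w1 := by
        have h1 := Ordinal.div_add_mod β w1
        have h2 := Ordinal.div_add_mod γ w1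
        rw [← h1, ← h2, heq] at hβγ
        exact (add_lt_add_iff_left _).mp hβγ
      have hn : (q β).1 = (q γ).1 := by
        rw [a1, b1] at heq
        exact_mod_cast heq
      rw [a2, b2, ofI_lt_ofI] at hmod
      have hfst : (G β).1 = (G γ).1 := by simp only [G, hn]
      refine pt_lt_of_row hfst ?_
      simp only [G]
      rw [hn]
      exact he1 _ hmod
  refine ⟨fun β => pt (G β), ?_, ?_, ?_⟩
  · intro β hβ γ hγ hβγ
    exact hmono β γ hβγ hγ
  · intro β _
    exact pt_lt _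
  · intro β γ hβγ hγ
    have h1 := hmono β γ hβγ hγ
    rw [← hf _ _ h1]
    refine hH4 _ _ _ (hGH β) _ (hGH γ) ?_
    intro h
    rw [h] at h1
    exact lt_irrefl _ h1

end Pool.Agent.Helper397.T4
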